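import Pool.Agent.Helper35.HS.Defs

/-!
# Twisted quasi-cocycles and lineal structures (project HS)

A quasi-cocycle for a homomorphism `ε : G → {1, -1}` is a function `c : G → ℝ` such that
`c (g h) - c g - ε g * c h` is bounded. Word metrics which are quasi-isometric to the real line are
described by unbounded quasi-cocycles.
-/

set_option autoImplicit false

namespace Pool.Agent.Helper35.HS

variable {G : Type} [Group G]

/-- The sign `1` or `-1` as a real number. -/
def sg (u : ℤˣ) : ℝ := ((u : ℤ) : ℝ)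

theorem sg_one : sg 1 = 1 := by simp [sg]

theorem sg_neg_one : sg (-1) = -1 := by simp [sg]

theorem sg_mul (u v : ℤˣ) : sg (u * v) = sg u * sg v := by simp [sg]

theorem sg_cases (u : ℤˣ) : sg u = 1 ∨ sg u = -1 := by
  rcases Int.units_eq_one_or u with rfl | rfl
  · left; exact sg_one
  · right; exact sg_neg_one

theorem abs_sg (u : ℤˣ) : |sg u| = 1 := by
  rcases sg_cases u with h | h <;> simp [h]

theorem sg_mul_self (u : ℤˣ) : sg u * sg u = 1 := by
  rcases sg_cases u with h | h <;> simp [h]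

/-- The function `c` is a quasi-cocycle for `ε` with defect `D`. -/
def QC (ε : G →* ℤˣ) (c : G → ℝ) (D : ℝ) : Prop :=
  ∀ g h, |c (g * h) - c g - sg (ε g) * c h| ≤ D

/-- The function `c` is unbounded. -/
def Unb (c : G → ℝ) : Prop := ∀ T : ℝ, ∃ g, T ≤ |c g|

/-- The function `|c|` is comparable with the word length of `X`. -/
def Comp (X : Set G) (c : G → ℝ) : Prop :=
  ∃ A : ℝ, ∀ g, |c g| ≤ A * len X g + A ∧ (len X g : ℝ) ≤ A * |c g| + A

/-- The quasi-cocycle `c` for `ε` describes the word length of `X`. -/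
structure LD (X : Set G) (ε : G →* ℤˣ) (c : G → ℝ) : Prop where
  qc : ∃ D, QC ε c D
  comp : Comp X c
  unb : Unb c

/-- The quasi-cocycle `c` for `ε` describes the hyperbolic structure `s`. -/
def LDs (s : H G) (ε : G →* ℤˣ) (c : G → ℝ) : Prop := ∃ X : HSet G, cls X = s ∧ LD X.1 ε c

/-! ### Elementary estimates -/

/-- Take `g = h = 1`. -/
theorem QC.one {ε : G →* ℤˣ} {c : G → ℝ} {D : ℝ} (h : QC ε c D) : |c 1| ≤ D := by
  have h1 := h 1 1
  rw [mul_one, map_one, sg_one, one_mul, sub_self, zero_sub, abs_neg] at h1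
  exact h1

/-- Take `g⁻¹ * g = 1` and use `QC.one`: `c 1 - c g⁻¹ - ε g * c g` is at most `D` in absolute value. -/
theorem QC.inv {ε : G →* ℤˣ} {c : G → ℝ} {D : ℝ} (h : QC ε c D) (g : G) :
    |c g⁻¹ + sg (ε g) * c g| ≤ 2 * D := by
  have h1 := h g⁻¹ g
  rw [inv_mul_cancel, map_inv, Int.units_inv_eq_self] at h1
  have h2 := abs_le.1 h1
  have h3 := abs_le.1 h.one
  rw [abs_le]
  constructor
  · linarith [h2.1, h2.2, h3.1, h3.2]
  · linarith [h2.1, h2.2, h3.1, h3.2]

/-- `c (g⁻¹ * k)` is `c g⁻¹ + ε g * c k` up to `D`, now use `QC.inv`. -/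
theorem QC.left {ε : G →* ℤˣ} {c : G → ℝ} {D : ℝ} (h : QC ε c D) (g k : G) :
    |c (g⁻¹ * k) - sg (ε g) * (c k - c g)| ≤ 3 * D := by
  have h1 := h g⁻¹ k
  rw [map_inv, Int.units_inv_eq_self] at h1
  have h2 := abs_le.1 h1
  have h3 := abs_le.1 (h.inv g)
  rw [abs_le, mul_sub]
  constructor
  · linarith [h2.1, h2.2, h3.1, h3.2]
  · linarith [h2.1, h2.2, h3.1, h3.2]

/-- Bound for `c` by the word length, if `c` is bounded on the generators.

Proof. If `x⁻¹ ∈ X`, then `|c x| ≤ B + 2 D` by `QC.inv`. Induction on a word `l` in the letters `X` and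
their inverses: `|c l.prod| ≤ (B + 3 D) * l.length + D`, where the empty word is `QC.one` and
`|c (a * p)| ≤ |c a| + |c p| + D`. Apply it to a shortest word (`exists_word`). -/
theorem QC.len_bound {X : Set G} (hX : Gen X) {ε : G →* ℤˣ} {c : G → ℝ} {D : ℝ} (h : QC ε c D)
    {B : ℝ} (hB : ∀ x ∈ X, |c x| ≤ B) (g : G) : |c g| ≤ (B + 3 * D) * len X g + D := by
  have hD : 0 ≤ D := (abs_nonneg _).trans (h 1 1)
  have hx : ∀ x : G, (x ∈ X ∨ x⁻¹ ∈ X) → |c x| ≤ B + 2 * D := by
    rintro x (hx | hx)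
    · linarith [hB x hx]
    · have h1 := hB _ hx
      have h2 := h.inv x
      have h3 : |sg (ε x) * c x| = |c x| := by rw [abs_mul, abs_sg, one_mul]
      have h4 : sg (ε x) * c x = (c x⁻¹ + sg (ε x) * c x) - c x⁻¹ := by ring
      rw [← h3, h4]
      refine (abs_sub _ _).trans ?_
      linarith
  have key : ∀ l : List G, (∀ x ∈ l, x ∈ X ∨ x⁻¹ ∈ X) →
      |c l.prod| ≤ (B + 3 * D) * l.length + D := by
    intro l
    induction l with
    | nil =>
      intro _
      simpa using h.one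
    | cons a l ih =>
      intro hl
      have h1 := hx a (hl a List.mem_cons_self)
      have h2 := ih fun x hx' => hl x (List.mem_cons_of_mem _ hx')
      have h3 := h a l.prod
      have h4 : |sg (ε a) * c l.prod| = |c l.prod| := by rw [abs_mul, abs_sg, one_mul]
      rw [List.prod_cons, List.length_cons]
      push_cast
      have h5 : c (a * l.prod) = (c (a * l.prod) - c a - sg (ε a) * c l.prod) +
          (c a + sg (ε a) * c l.prod) := by ring
      have h6 : |c (a * l.prod)| ≤ D + (|c a| + |c l.prod|) := by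
        rw [h5]
        refine (abs_add_le _ _).trans (add_le_add h3 ?_)
        refine (abs_add_le _ _).trans ?_
        rw [h4]
      linarith
  obtain ⟨l, hl, hl'⟩ := exists_word hX g
  have h1 := key l hl.1
  rw [hl.2, hl'] at h1
  exact h1

/-- Sums of quasi-cocycles. -/
theorem QC.add {ε : G →* ℤˣ} {c c' : G → ℝ} {D D' : ℝ} (h : QC ε c D) (h' : QC ε c' D') :
    QC ε (fun g => c g + c' g) (D + D') := by
  intro g k
  have h1 := abs_le.1 (h g k)
  have h2 := abs_le.1 (h' g k)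
  rw [abs_le]
  constructor
  · show -(D + D') ≤ c (g * k) + c' (g * k) - (c g + c' g) - sg (ε g) * (c k + c' k)
    linarith [h1.1, h2.1]
  · show c (g * k) + c' (g * k) - (c g + c' g) - sg (ε g) * (c k + c' k) ≤ D + D'
    linarith [h1.2, h2.2]

/-- The defect is not negative. -/
theorem QC.nonneg {ε : G →* ℤˣ} {c : G → ℝ} {D : ℝ} (h : QC ε c D) : 0 ≤ D :=
  (abs_nonneg _).trans (h 1 1)

/-- Comparability does not depend on the generating set in the equivalence class. (Use `Dom.linear`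
twice; the constants can be enlarged, for example so that they are nonnegative.) -/
theorem Comp.of_dom {X Y : Set G} (hX : Gen X) (hY : Gen Y) (h : Dom X Y) (h' : Dom Y X)
    {c : G → ℝ} (hc : Comp X c) : Comp Y c := by
  obtain ⟨C, hC⟩ := h.linear hX hY
  obtain ⟨C', hC'⟩ := h'.linear hY hX
  obtain ⟨A, hA⟩ := hc
  have hA0 : 0 ≤ A := by
    have h1 := (hA 1).1
    rw [len_one, Nat.cast_zero, mul_zero, zero_add] at h1
    exact (abs_nonneg _).trans h1
  have hC0 : (0 : ℝ) ≤ C := Nat.cast_nonneg _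
  have hC0' : (0 : ℝ) ≤ C' := Nat.cast_nonneg _
  refine ⟨A * C + C' * A + A, fun g => ?_⟩
  obtain ⟨h1, h2⟩ := hA g
  have h3 : (len X g : ℝ) ≤ C * len Y g := by exact_mod_cast hC g
  have h4 : (len Y g : ℝ) ≤ C' * len X g := by exact_mod_cast hC' g
  have h5 : (0 : ℝ) ≤ len Y g := Nat.cast_nonneg _
  have h6 : 0 ≤ |c g| := abs_nonneg _
  have h7 : A * (len X g : ℝ) ≤ A * (C * len Y g) := mul_le_mul_of_nonneg_left h3 hA0
  have h8 : (C' : ℝ) * len X g ≤ C' * (A * |c g| + A) := mul_le_mul_of_nonneg_left h2 hC0'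
  have h9 : 0 ≤ A * C := mul_nonneg hA0 hC0
  have h10 : 0 ≤ C' * A := mul_nonneg hC0' hA0
  have h11 : 0 ≤ (C' * A + A) * (len Y g : ℝ) := mul_nonneg (add_nonneg h10 hA0) h5
  have h12 : 0 ≤ (A * C + A) * |c g| := mul_nonneg (add_nonneg h9 hA0) h6
  constructor
  · calc |c g| ≤ A * (C * len Y g) + A := by linarith
      _ ≤ A * (C * len Y g) + A + ((C' * A + A) * len Y g + (A * C + C' * A)) := by linarith
      _ = (A * C + C' * A + A) * len Y g + (A * C + C' * A + A) := by ring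
  · calc (len Y g : ℝ) ≤ C' * (A * |c g| + A) := by linarith
      _ ≤ C' * (A * |c g| + A) + ((A * C + A) * |c g| + (A * C + A)) := by linarith
      _ = (A * C + C' * A + A) * |c g| + (A * C + C' * A + A) := by ring

/-- All representatives are described by `c`. (From `Comp.of_dom`; `cls X = cls Y` gives both
inequalities of classes, and `cls_le`.) -/
theorem LDs.ld {s : H G} {ε : G →* ℤˣ} {c : G → ℝ} (h : LDs s ε c) {X : HSet G} (hX : cls X = s) :
    LD X.1 ε c := by
  obtain ⟨X₀, h0, hq, hc, hu⟩ := h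
  have h1 : Dom X₀.1 X.1 := cls_le.1 (h0.trans hX.symm).le
  have h2 : Dom X.1 X₀.1 := cls_le.1 (hX.trans h0.symm).le
  exact ⟨hq, hc.of_dom X₀.2.1 X.2.1 h1 h2, hu⟩

/-- The order relation in terms of `c`: the length with respect to `X` is bounded on `Y` if and only
if `c` is bounded on `Y`. (Directly from `Comp`.) -/
theorem LD.dom_iff {X : Set G} {ε : G →* ℤˣ} {c : G → ℝ} (h : LD X ε c) (Y : Set G) :
    Dom X Y ↔ ∃ B : ℝ, ∀ y ∈ Y, |c y| ≤ B := by
  obtain ⟨A, hA⟩ := h.comp
  have hA0 : 0 ≤ A := by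
    have h1 := (hA 1).1
    rw [len_one, Nat.cast_zero, mul_zero, zero_add] at h1
    exact (abs_nonneg _).trans h1
  constructor
  · rintro ⟨C, hC⟩
    refine ⟨A * C + A, fun y hy => (hA y).1.trans ?_⟩
    have h1 : (len X y : ℝ) ≤ C := by exact_mod_cast hC y hy
    have h2 := mul_le_mul_of_nonneg_left h1 hA0
    linarith
  · rintro ⟨B, hB⟩
    refine ⟨⌈A * B + A⌉₊, fun y hy => ?_⟩
    have h1 := mul_le_mul_of_nonneg_left (hB y hy) hA0
    have h2 : ((len X y : ℕ) : ℝ) ≤ A * B + A := (hA y).2.trans (by linarith)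
    exact_mod_cast h2.trans (Nat.le_ceil _)

/-- The order relation for classes. (From `LDs.ld`, `LD.dom_iff`, `cls_le`.) -/
theorem LDs.le_iff {s : H G} {ε : G →* ℤˣ} {c : G → ℝ} (h : LDs s ε c) (Y : HSet G) :
    s ≤ cls Y ↔ ∃ B : ℝ, ∀ y ∈ Y.1, |c y| ≤ B := by
  obtain ⟨X, hX, hl⟩ := h
  rw [← hX, cls_le]
  exact hl.dom_iff Y.1

/-! ### Homogenisation -/

private theorem slope_mul {a : ℕ → ℝ} {D : ℝ} (h : ∀ k l, |a (k + l) - a k - a l| ≤ D)
    (k m : ℕ) : |a ((m + 1) * k) - ((m : ℝ) + 1) * a k| ≤ m * D := by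
  induction m with
  | zero => simp
  | succ m ih =>
    have h1 := abs_le.mp (h ((m + 1) * k) k)
    have h2 := abs_le.mp ih
    have e : (m + 1 + 1) * k = (m + 1) * k + k := by ring
    rw [e, abs_le]
    push_cast
    constructor
    · linarith [h1.1, h2.1]
    · linarith [h1.2, h2.2]

/-- Homogenisation of a quasi-additive sequence.

Proof. Let `|a (k + l) - a k - a l| ≤ D` for all natural numbers. By induction on `m`,
`|a (m k) - m a k| ≤ m D` for `m ≥ 1` (and for `m = 0` it is `|a 0| ≤ D`). So for `k, l ≥ 1`,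
`|a (k l) / (k l) - a k / k| ≤ D / k` and `|a (k l) / (k l) - a l / l| ≤ D / l`, and `a k / k`
is a Cauchy sequence with a limit `q`; the limit `l → ∞` in
`|a (l) / l - a k / k| ≤ D / k + D / l` gives `|q - a k / k| ≤ D / k`. (Or use `Subadditive` for
`a k + D`.) -/
theorem exists_slope {a : ℕ → ℝ} {D : ℝ} (h : ∀ k l, |a (k + l) - a k - a l| ≤ D) :
    ∃ q : ℝ, ∀ k : ℕ, |a k - k * q| ≤ D := by
  have hD : 0 ≤ D := (abs_nonneg _).trans (h 0 0)
  have h0 : |a 0| ≤ D := by simpa using h 0 0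
  have key : ∀ k l : ℕ, (a (k + 1) - D) / ((k : ℝ) + 1) ≤ (a (l + 1) + D) / ((l : ℝ) + 1) := by
    intro k l
    have hk : (0 : ℝ) < (k : ℝ) + 1 := by positivity
    have hl : (0 : ℝ) < (l : ℝ) + 1 := by positivity
    rw [div_le_div_iff₀ hk hl]
    have h1 := abs_le.mp (slope_mul h (k + 1) l)
    have h2 := abs_le.mp (slope_mul h (l + 1) k)
    rw [mul_comm (k + 1) (l + 1)] at h2
    nlinarith [h1.1, h2.2]
  let T : Set ℝ := {r | ∃ k : ℕ, r = (a (k + 1) - D) / ((k : ℝ) + 1)}
  have hT : T.Nonempty := ⟨_, 0, rfl⟩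
  have hub : ∀ l : ℕ, (a (l + 1) + D) / ((l : ℝ) + 1) ∈ upperBounds T := by
    rintro l _ ⟨k, rfl⟩
    exact key k l
  refine ⟨sSup T, fun k => ?_⟩
  rcases k with _ | k
  · simpa using h0
  · have hk : (0 : ℝ) < (k : ℝ) + 1 := by positivity
    have h1 : (a (k + 1) - D) / ((k : ℝ) + 1) ≤ sSup T := le_csSup ⟨_, hub 0⟩ ⟨k, rfl⟩
    have h2 : sSup T ≤ (a (k + 1) + D) / ((k : ℝ) + 1) := csSup_le hT (hub k)
    rw [div_le_iff₀ hk] at h1
    rw [le_div_iff₀ hk] at h2
    rw [abs_le]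
    push_cast
    constructor <;> linarith

/-- Homogenisation of a quasi-cocycle on the kernel of `ε`.

Proof. For `x` with `ε x = 1` the sequence `a k = c (x ^ k)` satisfies `|a (k + l) - a k - a l| ≤ D`, so
`exists_slope` gives `q x` with `|c (x ^ k) - k q x| ≤ D` for natural numbers `k` (choose `q x` for all
`x` with `ε x = 1` and `0` otherwise). For negative exponents use `QC.inv`. The last claim:
`c (g x ^ k g⁻¹)` differs from `c g + ε g (c (x ^ k) + c g⁻¹)` by at most `2 D` (as `ε (x ^ k) = 1`), so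
that `|k (q (g x g⁻¹) - ε g * q x)|` is bounded independent of `k` (note
`(g x g⁻¹) ^ k = g x ^ k g⁻¹`, `ε (g x g⁻¹) = 1`), hence `q (g x g⁻¹) = ε g * q x`. -/
theorem QC.homog {ε : G →* ℤˣ} {c : G → ℝ} {D : ℝ} (h : QC ε c D) :
    ∃ q : G → ℝ, (∀ x, ε x = 1 → ∀ k : ℤ, |c (x ^ k) - k * q x| ≤ 3 * D) ∧
      ∀ g x, ε x = 1 → q (g * x * g⁻¹) = sg (ε g) * q x := by
  classical
  have hD : 0 ≤ D := h.nonneg
  have hpow : ∀ x, ε x = 1 → ∀ k : ℕ, sg (ε (x ^ k)) = 1 := by
    intro x hx k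
    rw [map_pow, hx, one_pow, sg_one]
  have hex : ∀ x, ε x = 1 → ∃ r : ℝ, ∀ k : ℕ, |c (x ^ k) - k * r| ≤ D := by
    intro x hx
    refine exists_slope (a := fun k => c (x ^ k)) fun k l => ?_
    have h1 := h (x ^ k) (x ^ l)
    rw [hpow x hx k, one_mul, ← pow_add] at h1
    exact h1
  let q : G → ℝ := fun x => if hx : ε x = 1 then (hex x hx).choose else 0
  have hq : ∀ x, ε x = 1 → ∀ k : ℕ, |c (x ^ k) - k * q x| ≤ D := by
    intro x hx k
    have e : q x = (hex x hx).choose := dif_pos hx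
    rw [e]
    exact (hex x hx).choose_spec k
  refine ⟨q, ?_, ?_⟩
  · intro x hx k
    obtain ⟨n, rfl | rfl⟩ := Int.eq_nat_or_neg k
    · rw [zpow_natCast]
      have h1 := hq x hx n
      push_cast
      linarith
    · rw [zpow_neg, zpow_natCast]
      have h1 := abs_le.mp (hq x hx n)
      have h2 := h.inv (x ^ n)
      rw [hpow x hx n, one_mul] at h2
      have h3 := abs_le.mp h2
      rw [abs_le]
      push_cast
      constructor
      · linarith [h1.2, h3.1]
      · linarith [h1.1, h3.2]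
  · intro g x hx
    have hy : ε (g * x * g⁻¹) = 1 := by
      rw [map_mul, map_mul, hx, mul_one, ← map_mul, mul_inv_cancel, map_one]
    have hb : ∀ k : ℕ, (k : ℝ) * |q (g * x * g⁻¹) - sg (ε g) * q x| ≤
        4 * D + |c g| + |c g⁻¹| := by
      intro k
      have h1 := hq _ hy k
      have h2 := hq x hx k
      have h3 := h (g * x ^ k) g⁻¹
      have h4 := h g (x ^ k)
      rw [conj_pow] at h1
      have h5 : |sg (ε (g * x ^ k)) * c g⁻¹| = |c g⁻¹| := by
        rw [abs_mul, abs_sg, one_mul]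
      have h6 : |sg (ε g) * (c (x ^ k) - k * q x)| ≤ D := by
        rw [abs_mul, abs_sg, one_mul]
        exact h2
      rw [← Nat.abs_cast k, ← abs_mul]
      have e : (k : ℝ) * (q (g * x * g⁻¹) - sg (ε g) * q x) =
          -(c (g * x ^ k * g⁻¹) - k * q (g * x * g⁻¹)) +
          (c (g * x ^ k * g⁻¹) - c (g * x ^ k) - sg (ε (g * x ^ k)) * c g⁻¹) +
          sg (ε (g * x ^ k)) * c g⁻¹ +
          (c (g * x ^ k) - c g - sg (ε g) * c (x ^ k)) + c g +
          sg (ε g) * (c (x ^ k) - k * q x) := by ring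
      rw [e]
      have a1 := abs_le.mp h1
      have a3 := abs_le.mp h3
      have a4 := abs_le.mp h4
      have a5 := abs_le.mp h5.le
      have a6 := abs_le.mp h6
      have a7 := abs_le.mp (le_refl |c g|)
      rw [abs_le]
      constructor
      · linarith [a1.2, a3.1, a4.1, a5.1, a6.1, a7.1]
      · linarith [a1.1, a3.2, a4.2, a5.2, a6.2, a7.2]
    by_contra hne
    have hpos : 0 < |q (g * x * g⁻¹) - sg (ε g) * q x| := abs_pos.mpr (sub_ne_zero.mpr hne)
    obtain ⟨k, hk⟩ := exists_nat_gt ((4 * D + |c g| + |c g⁻¹|) /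
      |q (g * x * g⁻¹) - sg (ε g) * q x|)
    rw [div_lt_iff₀ hpos] at hk
    linarith [hb k]

/-- Elements `z` with `ε z = -1` have bounded powers.

Proof. Let `q` be as in `QC.homog`. Since `ε (z ^ 2) = 1` and `z z² z⁻¹ = z²`, `q (z²) = - q (z²)`, so
`q (z²) = 0` and `|c (z ^ (2 k))| ≤ 3 D`, `|c (z ^ (2 k + 1))| ≤ |c z| + 4 D`. -/
theorem QC.bdd_pow {ε : G →* ℤˣ} {c : G → ℝ} {D : ℝ} (h : QC ε c D) {z : G} (hz : ε z = -1) :
    ∃ R : ℝ, ∀ k : ℕ, |c (z ^ k)| ≤ R := by
  have hD : 0 ≤ D := h.nonneg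
  obtain ⟨q, hq, hconj⟩ := h.homog
  have hz2 : ε (z ^ 2) = 1 := by rw [map_pow, hz]; decide
  have hq0 : q (z ^ 2) = 0 := by
    have h1 := hconj z (z ^ 2) hz2
    have h2 : z * z ^ 2 * z⁻¹ = z ^ 2 := by group
    rw [h2, hz, sg_neg_one] at h1
    linarith
  have heven : ∀ m : ℕ, |c ((z ^ 2) ^ m)| ≤ 3 * D := by
    intro m
    have h1 := hq (z ^ 2) hz2 m
    rw [hq0, mul_zero, sub_zero, zpow_natCast] at h1
    exact h1
  refine ⟨|c z| + 4 * D, fun k => ?_⟩
  have hcz : 0 ≤ |c z| := abs_nonneg _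
  obtain ⟨m, rfl | rfl⟩ := Nat.even_or_odd' k
  · rw [pow_mul]
    have h1 := heven m
    linarith
  · rw [pow_succ', pow_mul]
    have h1 := heven m
    have h2 := h z ((z ^ 2) ^ m)
    have h3 : |sg (ε z) * c ((z ^ 2) ^ m)| = |c ((z ^ 2) ^ m)| := by rw [abs_mul, abs_sg, one_mul]
    have h4 : c (z * (z ^ 2) ^ m) = (c (z * (z ^ 2) ^ m) - c z - sg (ε z) * c ((z ^ 2) ^ m)) +
        (c z + sg (ε z) * c ((z ^ 2) ^ m)) := by ring
    have h5 : |c (z * (z ^ 2) ^ m)| ≤ D + (|c z| + |c ((z ^ 2) ^ m)|) := by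
      rw [h4]
      refine (abs_add_le _ _).trans (add_le_add h2 ?_)
      refine (abs_add_le _ _).trans ?_
      rw [h3]
    linarith

/-- A quasi-cocycle which is bounded on a subgroup of finite index contained in the kernel of `ε` is
bounded.

Proof. Every `g` is `x * r` with `x ∈ K` and `r` from a finite set (representatives of the right
cosets), and `|c (x * r)| ≤ |c x| + |c r| + D`. -/
theorem QC.bdd_of_finiteIndex {ε : G →* ℤˣ} {c : G → ℝ} {D : ℝ} (h : QC ε c D) (K : Subgroup G)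
    [K.FiniteIndex] {B : ℝ} (hB : ∀ x ∈ K, |c x| ≤ B) : ∃ B' : ℝ, ∀ g, |c g| ≤ B' := by
  obtain ⟨M, hM⟩ := (Set.finite_range fun r : G ⧸ K => |c r.out|).bddAbove
  refine ⟨D + (M + B), fun g => ?_⟩
  set r : G := (QuotientGroup.mk g : G ⧸ K).out with hr
  have hx : r⁻¹ * g ∈ K := by
    rw [← QuotientGroup.eq, hr, QuotientGroup.out_eq']
  have h1 := hB _ hx
  have h2 : |c r| ≤ M := hM ⟨(QuotientGroup.mk g : G ⧸ K), rfl⟩
  have h3 := h r (r⁻¹ * g)
  have h4 : |sg (ε r) * c (r⁻¹ * g)| = |c (r⁻¹ * g)| := by rw [abs_mul, abs_sg, one_mul]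
  rw [mul_inv_cancel_left] at h3
  have h5 : c g = (c g - c r - sg (ε r) * c (r⁻¹ * g)) + (c r + sg (ε r) * c (r⁻¹ * g)) := by ring
  rw [h5]
  refine (abs_add_le _ _).trans (add_le_add h3 ?_)
  refine (abs_add_le _ _).trans ?_
  rw [h4]
  exact add_le_add h2 h1

/-! ### From the real line to quasi-cocycles -/

private theorem wd_comm' (X : Set G) (x y : G) : wd X x y = wd X y x := by
  unfold wd
  rw [← len_inv, mul_inv_rev, inv_inv]

private theorem wd_tri {X : Set G} (hX : Gen X) (x y z : G) : wd X x z ≤ wd X x y + wd X y z := by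
  unfold wd
  have h := len_mul hX (x⁻¹ * y) (y⁻¹ * z)
  rw [show x⁻¹ * y * (y⁻¹ * z) = x⁻¹ * z by group] at h
  exact_mod_cast h

private theorem eq_of_len_zero {X : Set G} (hX : Gen X) {g : G} (h : len X g = 0) : g = 1 := by
  obtain ⟨l, hl, hl'⟩ := exists_word hX g
  rw [h, List.length_eq_zero_iff] at hl'
  rw [← hl.2, hl', List.prod_nil]

/-- Discrete intermediate value theorem on geodesics: induction on the length of `p⁻¹ * p'`. The
geodesic starts with a neighbour `q` of `p`; if `ψ q ≤ t`, use the induction hypothesis for `q`, and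
otherwise `u = p`. -/
private theorem exists_mid {X : Set G} (hX : Gen X) {ψ : G → ℝ} {B : ℝ} (hB : 0 ≤ B)
    (hψ : ∀ x y, wd X x y ≤ 1 → |ψ x - ψ y| ≤ B) {t : ℝ} {p' : G} (hp' : t ≤ ψ p') :
    ∀ (n : ℕ) (p : G), len X (p⁻¹ * p') = n → ψ p ≤ t →
      ∃ u, |ψ u - t| ≤ B ∧ wd X p u + wd X u p' = wd X p p' := by
  intro n
  induction n with
  | zero =>
    intro p hn hp
    have h1 := eq_of_len_zero hX hn
    have h2 : p = p' := by rw [inv_mul_eq_one] at h1; exact h1
    subst h2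
    refine ⟨p, ?_, ?_⟩
    · rw [le_antisymm hp hp', sub_self, abs_zero]; exact hB
    · unfold wd; rw [inv_mul_cancel, len_one]; simp
  | succ n ih =>
    intro p hn hp
    obtain ⟨a, b, hab, ha, hb⟩ := len_split hX (g := p⁻¹ * p') (k := 1) (by omega)
    have hb' : len X b = n := by omega
    have h1 : wd X p (p * a) = 1 := by
      unfold wd; rw [inv_mul_cancel_left, ha]; simp
    have h2 : (p * a)⁻¹ * p' = b := by
      rw [mul_inv_rev, mul_assoc, ← hab, inv_mul_cancel_left]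
    rcases le_or_gt (ψ (p * a)) t with h3 | h3
    · obtain ⟨u, hu, hu'⟩ := ih (p * a) (by rw [h2]; exact hb') h3
      refine ⟨u, hu, le_antisymm ?_ (wd_tri hX p u p')⟩
      have h4 := wd_tri hX p (p * a) u
      have h5 : wd X (p * a) p' = n := by unfold wd; rw [h2, hb']
      have h6 : wd X p p' = n + 1 := by unfold wd; rw [hn]; push_cast; ring
      linarith
    · refine ⟨p, ?_, ?_⟩
      · have h4 := abs_le.1 (hψ p (p * a) h1.le)
        rw [abs_le]
        constructor <;> linarith [h4.1, h4.2]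
      · have : wd X p p = 0 := by unfold wd; rw [inv_mul_cancel, len_one]; simp
        rw [this, zero_add]

/-- A word metric which is quasi-isometric to the real line is the metric of the real line up to
a bounded error.

Proof. Let `φ` and `A` be as in the definition of `Lineal`, `d = wd X`, and
`F x = |x|` if `φ 1 ≤ φ x`, `F x = - |x|` if `φ x < φ 1`, where `|x| = len X x`.
Neighbours `p, p'` (`d p p' ≤ 1`) satisfy `|φ p - φ p'| ≤ 2 A`. Discrete
intermediate value: on a geodesic (`len_split`, or a shortest word) from `p` to `p'` and for a real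
number `t` between `φ p` and `φ p'` there is a point `u` with `|φ u - t| ≤ 2 A`, and
`d p u + d u p' = d p p'`. (1) If `φ 1 ≤ φ y ≤ φ x`, then there is such a point `u` on a geodesic from
`1` to `x` with `|φ u - φ y| ≤ 2 A`, so `d u y ≤ A * 2 A + A =: C`, and
`|x| = |u| + d u x`, so `| |x| - |y| - d x y | ≤ 2 C`. The same for `φ x ≤ φ y ≤ φ 1`.
(2) If `φ y ≤ φ 1 ≤ φ x`, then there is a point `u` on a geodesic from `y` to `x` with
`|φ u - φ 1| ≤ 2 A`, so `|u| ≤ C` and `|x| + |y| ≤ d x y + 2 C`; and `d x y ≤ |x| + |y|`. -/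
theorem exists_rough {X : Set G} (hX : Gen X) (h : Lineal X) :
    ∃ (f : G → ℝ) (C : ℝ), f 1 = 0 ∧ (∀ x y, abs (|f x - f y| - wd X x y) ≤ C) ∧ Unb f := by
  classical
  obtain ⟨φ, A, hA, hφ, hs⟩ := h
  have hnb : ∀ x y, wd X x y ≤ 1 → |φ x - φ y| ≤ 2 * A := by
    intro x y hxy
    have h1 := (hφ x y).1
    nlinarith
  have h2A : 0 ≤ 2 * A := by linarith
  set C : ℝ := A * (2 * A) + A with hC
  have hC0 : 0 ≤ C := by positivity
  have hclose : ∀ u y, |φ u - φ y| ≤ 2 * A → wd X u y ≤ C := by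
    intro u y huy
    have h1 := (hφ u y).2
    have h2 : A * |φ u - φ y| ≤ A * (2 * A) := mul_le_mul_of_nonneg_left huy hA.le
    linarith
  have hlen : ∀ x, wd X 1 x = len X x := by
    intro x; unfold wd; rw [inv_one, one_mul]
  have hlen' : ∀ x, wd X x 1 = len X x := by
    intro x; rw [wd_comm', hlen]
  -- the case where `y` is between `1` and `x`
  have key1 : ∀ x y, (∃ u, |φ u - φ y| ≤ 2 * A ∧ wd X 1 u + wd X u x = wd X 1 x) →
      abs (|(len X x : ℝ) - len X y| - wd X x y) ≤ 2 * C := by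
    rintro x y ⟨u, hu, hu'⟩
    have h1 := hclose u y hu
    rw [hlen, hlen] at hu'
    have h2 := wd_tri hX 1 u y
    have h3 := wd_tri hX 1 y u
    have h4 := wd_tri hX u x y
    have h5 := wd_tri hX u y x
    have h6 := wd_tri hX x u y
    have h7 := wd_tri hX 1 x y
    have h8 := wd_tri hX 1 y x
    rw [hlen, hlen] at h2 h3 h7 h8
    rw [wd_comm' X y u] at h3
    rw [wd_comm' X y x] at h5 h8
    rw [wd_comm' X x u] at h6
    have h9 : 0 ≤ wd X u y := by unfold wd; positivity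
    have h10 : 0 ≤ wd X x y := by unfold wd; positivity
    rcases abs_cases ((len X x : ℝ) - len X y) with ⟨e, _⟩ | ⟨e, _⟩ <;> rw [e, abs_le] <;>
      constructor <;> linarith
  -- the case where `1` is between `y` and `x`
  have key2 : ∀ x y, φ y ≤ φ 1 → φ 1 ≤ φ x →
      abs (|(len X x : ℝ) + len X y| - wd X x y) ≤ 2 * C := by
    intro x y h1 h2
    obtain ⟨u, hu, hu'⟩ := exists_mid hX h2A hnb h2 _ y rfl h1
    have h3 := hclose u 1 hu
    have h4 := wd_tri hX y u 1
    have h5 := wd_tri hX 1 u x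
    have h6 := wd_tri hX y 1 x
    rw [hlen] at h5 h6
    rw [wd_comm' X 1 u] at h5
    rw [hlen'] at h4 h6
    rw [wd_comm' X y x] at hu' h6
    have h7 : (0 : ℝ) ≤ (len X x : ℝ) + len X y := by positivity
    rw [abs_of_nonneg h7, abs_le]
    constructor <;> linarith
  have hsym : ∀ a b : ℝ, ∀ x y, abs (|a - b| - wd X x y) ≤ 2 * C →
      abs (|b - a| - wd X y x) ≤ 2 * C := by
    intro a b x y h1
    rw [abs_sub_comm b a, wd_comm' X y x]
    exact h1
  have keyP : ∀ x y, φ 1 ≤ φ x → φ 1 ≤ φ y →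
      abs (|(len X x : ℝ) - len X y| - wd X x y) ≤ 2 * C := by
    intro x y h1 h2
    rcases le_total (φ y) (φ x) with h3 | h3
    · exact key1 x y (exists_mid hX h2A hnb h3 _ 1 rfl h2)
    · exact hsym _ _ _ _ (key1 y x (exists_mid hX h2A hnb h3 _ 1 rfl h1))
  have keyN : ∀ x y, φ x ≤ φ 1 → φ y ≤ φ 1 →
      abs (|(len X x : ℝ) - len X y| - wd X x y) ≤ 2 * C := by
    have aux : ∀ x y, φ x ≤ φ y → φ y ≤ φ 1 →
        abs (|(len X x : ℝ) - len X y| - wd X x y) ≤ 2 * C := by
      intro x y h1 h2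
      obtain ⟨u, hu, hu'⟩ := exists_mid hX h2A hnb h2 _ x rfl h1
      refine key1 x y ⟨u, hu, ?_⟩
      rw [wd_comm' X 1 u, wd_comm' X u x, wd_comm' X 1 x, ← hu', add_comm]
    intro x y h1 h2
    rcases le_total (φ x) (φ y) with h3 | h3
    · exact aux x y h3 h2
    · exact hsym _ _ _ _ (aux y x h3 h1)
  refine ⟨fun x => if φ 1 ≤ φ x then (len X x : ℝ) else -(len X x : ℝ), 2 * C, ?_, ?_, ?_⟩
  · simp [len_one]
  · intro x y
    by_cases hx : φ 1 ≤ φ x <;> by_cases hy : φ 1 ≤ φ y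
    · simp only [hx, hy, if_true]
      exact keyP x y hx hy
    · simp only [hx, hy, if_true, if_false, sub_neg_eq_add]
      exact key2 x y (not_le.1 hy).le hx
    · simp only [hx, hy, if_true, if_false]
      have h1 := key2 y x (not_le.1 hx).le hy
      rw [show -(len X x : ℝ) - len X y = -((len X y : ℝ) + len X x) by ring, abs_neg,
        wd_comm' X x y]
      exact h1
    · simp only [hx, hy, if_false]
      have h1 := keyN x y (not_le.1 hx).le (not_le.1 hy).le
      rw [show -(len X x : ℝ) - -(len X y : ℝ) = -((len X x : ℝ) - len X y) by ring, abs_neg]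
      exact h1
  · intro T
    obtain ⟨x, hx⟩ := hs (φ 1 + A * T + 2 * A)
    refine ⟨x, ?_⟩
    have h1 := abs_le.1 hx
    have h2 := (hφ x 1).1
    rw [hlen'] at h2
    have h3 := le_abs_self (φ x - φ 1)
    have h4 : A * T ≤ A * (len X x : ℝ) := by linarith [h1.1]
    have h5 : T ≤ (len X x : ℝ) := le_of_mul_le_mul_left h4 hA
    have h6 : |(if φ 1 ≤ φ x then (len X x : ℝ) else -(len X x : ℝ))| = (len X x : ℝ) := by
      have h7 : (0 : ℝ) ≤ (len X x : ℝ) := Nat.cast_nonneg _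
      split_ifs
      · exact abs_of_nonneg h7
      · rw [abs_neg, abs_of_nonneg h7]
    show T ≤ |(if φ 1 ≤ φ x then (len X x : ℝ) else -(len X x : ℝ))|
    rw [h6]
    exact h5

/-- Left translations act on the line up to a bounded error by isometries.

Proof. Let `C` be the constant of `f`. Fix `g`. Since `wd (g x) (g y) = wd x y`,
`abs (|f (g x) - f (g y)| - |f x - f y|) ≤ 2 C`. With `y = 1`: for each `x` there is a sign `u x` with
`|f (g x) - f g - u x * f x| ≤ 2 C`. If `|f x|` and `|f y|` are both larger than `4 C` then `u x = u y`: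
otherwise `|f (g x) - f (g y)|` differs by at most `4 C` from `|f x + f y|`, and `|f x + f y|` differs
from `|f x - f y|` by `2 min (|f x|, |f y|) > 8 C`, contradiction to the first inequality. So take
the sign `u` of an `x` with `|f x| > 4 C` (it exists as `f` is unbounded); for `|f x| ≤ 4 C` one has
`|f (g x) - f g| ≤ 6 C` and the claim holds with the constant `10 C`. -/
theorem exists_sign {X : Set G} {f : G → ℝ} {C : ℝ} (h0 : f 1 = 0)
    (hf : ∀ x y, abs (|f x - f y| - wd X x y) ≤ C) (hu : Unb f) (g : G) :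
    ∃ u : ℤˣ, ∀ x, |f (g * x) - f g - sg u * f x| ≤ 10 * C := by
  have hC : 0 ≤ C := (abs_nonneg _).trans (hf 1 1)
  have hwd : ∀ x y, wd X (g * x) (g * y) = wd X x y := by
    intro x y
    unfold wd
    rw [show (g * x)⁻¹ * (g * y) = x⁻¹ * y by group]
  have h1 : ∀ x y, abs (|f (g * x) - f (g * y)| - |f x - f y|) ≤ 2 * C := by
    intro x y
    have e1 := abs_le.1 (hf (g * x) (g * y))
    have e2 := abs_le.1 (hf x y)
    rw [hwd] at e1
    rw [abs_le]
    constructor <;> linarith [e1.1, e1.2, e2.1, e2.2]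
  have h2 : ∀ x, abs (|f (g * x) - f g| - |f x|) ≤ 2 * C := by
    intro x
    have := h1 x 1
    rwa [mul_one, h0, sub_zero] at this
  have h3 : ∀ a b : ℝ, abs (|a| - |b|) ≤ 2 * C → |a - b| ≤ 2 * C ∨ |a + b| ≤ 2 * C := by
    intro a b hab
    rcases abs_cases a with ⟨ha, -⟩ | ⟨ha, -⟩ <;> rcases abs_cases b with ⟨hb, -⟩ | ⟨hb, -⟩ <;>
      rw [ha, hb] at hab
    · exact Or.inl hab
    · right; rwa [sub_neg_eq_add] at hab
    · right; rwa [show -a - b = -(a + b) by ring, abs_neg] at hab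
    · left; rwa [show -a - -b = -(a - b) by ring, abs_neg] at hab
  obtain ⟨x0, hx0⟩ := hu (4 * C + 1)
  have hx0' : 4 * C < |f x0| := by linarith
  have key : ∀ x, ∀ t t' : ℝ, (t = 1 ∨ t = -1) → (t' = 1 ∨ t' = -1) →
      |f (g * x0) - f g - t * f x0| ≤ 2 * C → |f (g * x) - f g - t' * f x| ≤ 2 * C →
      4 * C < |f x| → t = t' := by
    intro x t t' ht ht' h4 h5 h6
    have h7 := abs_le.1 (h1 x0 x)
    have h4' := abs_le.1 h4
    have h5' := abs_le.1 h5
    rcases ht with rfl | rfl <;> rcases ht' with rfl | rfl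
    · rfl
    · exfalso
      rcases abs_cases (f x0) with ⟨a1, a2⟩ | ⟨a1, a2⟩ <;>
      rcases abs_cases (f x) with ⟨b1, b2⟩ | ⟨b1, b2⟩ <;>
      rcases abs_cases (f (g * x0) - f (g * x)) with ⟨c1, c2⟩ | ⟨c1, c2⟩ <;>
      rcases abs_cases (f x0 - f x) with ⟨d1, d2⟩ | ⟨d1, d2⟩ <;>
      linarith [h4'.1, h4'.2, h5'.1, h5'.2, h7.1, h7.2]
    · exfalso
      rcases abs_cases (f x0) with ⟨a1, a2⟩ | ⟨a1, a2⟩ <;>
      rcases abs_cases (f x) with ⟨b1, b2⟩ | ⟨b1, b2⟩ <;>
      rcases abs_cases (f (g * x0) - f (g * x)) with ⟨c1, c2⟩ | ⟨c1, c2⟩ <;>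
      rcases abs_cases (f x0 - f x) with ⟨d1, d2⟩ | ⟨d1, d2⟩ <;>
      linarith [h4'.1, h4'.2, h5'.1, h5'.2, h7.1, h7.2]
    · rfl
  have hex : ∀ x, ∃ u : ℤˣ, |f (g * x) - f g - sg u * f x| ≤ 2 * C := by
    intro x
    rcases h3 _ _ (h2 x) with h | h
    · exact ⟨1, by rwa [sg_one, one_mul]⟩
    · exact ⟨-1, by rwa [sg_neg_one, neg_one_mul, sub_neg_eq_add]⟩
  obtain ⟨u, hu0⟩ := hex x0
  refine ⟨u, fun x => ?_⟩
  rcases le_or_gt |f x| (4 * C) with hx | hx
  · have h8 := abs_le.1 (h2 x)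
    have h9 : |f (g * x) - f g| ≤ 6 * C := by linarith [h8.2]
    have h10 : |sg u * f x| ≤ 4 * C := by rw [abs_mul, abs_sg, one_mul]; exact hx
    calc |f (g * x) - f g - sg u * f x| ≤ |f (g * x) - f g| + |sg u * f x| := abs_sub _ _
      _ ≤ 10 * C := by linarith
  · obtain ⟨u', hu'⟩ := hex x
    have := key x (sg u) (sg u') (sg_cases u) (sg_cases u') hu0 hu' hx
    rw [this]
    linarith

/-- Word metrics which are quasi-isometric to the real line are described by quasi-cocycles.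

Proof. Take `f` and `C` from `exists_rough` and the signs `ε g` from `exists_sign`. Then
`f (g h x)` is `f g + ε g (f h + ε h f x)` up to `20 C`, and `f (g h) + ε (g h) f x` up to `10 C`, and
`f (g h)` is `f g + ε g f h` up to `10 C`; so `|ε (g h) - ε g ε h| * |f x| ≤ 40 C` for all `x`, and
`ε (g h) = ε g ε h` as `f` is unbounded. So `f` is a quasi-cocycle for the homomorphism `ε`.
`Comp X f` is the case `y = 1` of `exists_rough`. -/
theorem exists_ld {X : Set G} (hX : Gen X) (h : Lineal X) :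
    ∃ (ε : G →* ℤˣ) (c : G → ℝ), LD X ε c := by
  obtain ⟨f, C, h0, hf, hu⟩ := exists_rough hX h
  have hC : 0 ≤ C := (abs_nonneg _).trans (hf 1 1)
  choose e he using exists_sign h0 hf hu
  have hmul : ∀ g k, e (g * k) = e g * e k := by
    intro g k
    by_contra hne
    have hne' : sg (e (g * k)) ≠ sg (e g) * sg (e k) := by
      intro h'
      apply hne
      rw [← sg_mul] at h'
      unfold sg at h'
      exact Units.ext (by exact_mod_cast h')
    obtain ⟨x, hx⟩ := hu (20 * C + 1)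
    have h1 := abs_le.1 (he g (k * x))
    have h2 : |sg (e g) * (f (k * x) - f k - sg (e k) * f x)| ≤ 10 * C := by
      rw [abs_mul, abs_sg, one_mul]; exact he k x
    have h2' := abs_le.1 h2
    have h3 := abs_le.1 (he (g * k) x)
    have h4 := abs_le.1 (he g k)
    rw [mul_assoc] at h3
    have h5 : |(sg (e (g * k)) - sg (e g) * sg (e k)) * f x| ≤ 40 * C := by
      rw [abs_le]
      constructor <;> nlinarith [h1.1, h1.2, h2'.1, h2'.2, h3.1, h3.2, h4.1, h4.2]
    have h6 : |sg (e (g * k)) - sg (e g) * sg (e k)| = 2 := by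
      rcases sg_cases (e (g * k)) with h | h <;> rcases sg_cases (e g) with h' | h' <;>
        rcases sg_cases (e k) with h'' | h'' <;> rw [h, h', h''] at hne' ⊢ <;>
        first
          | (exfalso; apply hne'; norm_num; done)
          | norm_num
    rw [abs_mul, h6] at h5
    linarith
  refine ⟨MonoidHom.mk' e hmul, f, ⟨⟨10 * C, fun g k => he g k⟩, ⟨1 + C, fun g => ?_⟩, hu⟩⟩
  have h1 := abs_le.1 (hf g 1)
  have h2 : wd X g 1 = (len X g : ℝ) := by
    unfold wd
    rw [mul_one, len_inv]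
  rw [h2, h0, sub_zero] at h1
  have h3 : (0 : ℝ) ≤ len X g := Nat.cast_nonneg _
  have h4 : 0 ≤ |f g| := abs_nonneg _
  constructor
  · nlinarith [h1.2, mul_nonneg hC h3]
  · nlinarith [h1.1, mul_nonneg hC h4]

/-! ### From quasi-cocycles to lineal structures -/

/-- A word metric which is quasi-isometric to the real line is hyperbolic. (From `exists_rough` and the
four point condition `|a - b| + |c - d| ≤ max (|a - c| + |b - d|) (|a - d| + |b - c|)` for real
numbers; error `4 C`.) -/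
theorem Lineal.hyp {X : Set G} (hX : Gen X) (h : Lineal X) : Hyp X := by
  obtain ⟨f, C, -, hf, -⟩ := exists_rough hX h
  refine ⟨4 * C, fun x y z w => ?_⟩
  have key : ∀ a b c d : ℝ,
      |a - b| + |c - d| ≤ max (|a - c| + |b - d|) (|a - d| + |b - c|) := by
    intro a b c d
    rw [le_max_iff]
    by_contra hcon
    push Not at hcon
    obtain ⟨h1, h2⟩ := hcon
    rcases abs_cases (a - b) with ⟨e1, _⟩ | ⟨e1, _⟩ <;>
    rcases abs_cases (c - d) with ⟨e2, _⟩ | ⟨e2, _⟩ <;>
    rw [e1, e2] at h1 h2 <;>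
    linarith [le_abs_self (a - c), le_abs_self (b - d), le_abs_self (a - d),
      le_abs_self (b - c), neg_abs_le (a - c), neg_abs_le (b - d), neg_abs_le (a - d),
      neg_abs_le (b - c)]
  have h1 := abs_le.mp (hf x y)
  have h2 := abs_le.mp (hf z w)
  have h3 := abs_le.mp (hf x z)
  have h4 := abs_le.mp (hf y w)
  have h5 := abs_le.mp (hf x w)
  have h6 := abs_le.mp (hf y z)
  rcases le_max_iff.mp (key (f x) (f y) (f z) (f w)) with h7 | h7
  · have := le_max_left (wd X x z + wd X y w) (wd X x w + wd X y z)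
    linarith [h1.1, h2.1, h3.2, h4.2]
  · have := le_max_right (wd X x z + wd X y w) (wd X x w + wd X y z)
    linarith [h1.1, h2.1, h5.2, h6.2]

/-- The generating set given by a quasi-cocycle.

Proof. Let `S` be a finite generating set and `J` a bound for `|c (p * s) - c p|` for all `p` and all
`s ∈ S ∪ S⁻¹` (namely the maximum of `|c s|` plus `D`). Let `X = {x | |c x| ≤ C}` with
`C = 1 + 2 J + 3 D` (so `S ⊆ X`, `Gen X`). For any `g`, `len X g ≤ |c g| + 2`: take a word in `S` from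
`1` to `g` with the initial products `p`; by the discrete intermediate value theorem there are such
products `p_j` with `|c (p_j) - c 1 - j σ| ≤ J` for `j = 0, ..., r`, where `r` is the integer part of
`|c g - c 1|` and `σ` its sign, and `p_0 = 1`; put `p_{r+1} = g`. Consecutive ones satisfy
`|c (p_j) - c (p_{j+1})| ≤ 1 + 2 J`, so `|c (p_j⁻¹ p_{j+1})| ≤ 1 + 2 J + 3 D = C` by `QC.left`. (The
order of the `p_j` along the word does not matter.) So `len X g ≤ r + 1 ≤ |c g| + D + 1`. The other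
estimate is `QC.len_bound`. -/
theorem exists_gen {ε : G →* ℤˣ} {c : G → ℝ} {D : ℝ} (h : QC ε c D) (S : Finset G)
    (hS : Subgroup.closure (S : Set G) = ⊤) : ∃ X : Set G, Gen X ∧ Comp X c := by
  have hD : 0 ≤ D := h.nonneg
  obtain ⟨M, hM0, hM⟩ : ∃ M : ℝ, 0 ≤ M ∧ ∀ s ∈ S, |c s| ≤ M :=
    ⟨∑ s ∈ S, |c s|, Finset.sum_nonneg fun _ _ => abs_nonneg _,
      fun s hs => Finset.single_le_sum (f := fun s => |c s|) (fun _ _ => abs_nonneg _) hs⟩
  have hstep : ∀ p, ∀ s ∈ S, |c (p * s) - c p| ≤ M + D := by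
    intro p s hs
    have h1 := abs_le.mp (h p s)
    have h2 : |sg (ε p) * c s| ≤ M := by
      rw [abs_mul, abs_sg, one_mul]
      exact hM s hs
    have h3 := abs_le.mp h2
    rw [abs_le]
    constructor
    · linarith [h1.1, h3.1]
    · linarith [h1.2, h3.2]
  have hiv : ∀ p : G, ∀ t : ℝ, (c 1 ≤ t ∧ t ≤ c p ∨ c p ≤ t ∧ t ≤ c 1) →
      ∃ u, |c u - t| ≤ M + D := by
    have hext : ∀ p p' : G, |c p' - c p| ≤ M + D →
        (∀ t : ℝ, (c 1 ≤ t ∧ t ≤ c p ∨ c p ≤ t ∧ t ≤ c 1) → ∃ u, |c u - t| ≤ M + D) →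
        ∀ t : ℝ, (c 1 ≤ t ∧ t ≤ c p' ∨ c p' ≤ t ∧ t ≤ c 1) → ∃ u, |c u - t| ≤ M + D := by
      intro p p' hpp' ih t ht
      have h1 := abs_le.mp hpp'
      rcases ht with ⟨h2, h3⟩ | ⟨h2, h3⟩
      · rcases le_total t (c p) with h4 | h4
        · exact ih t (Or.inl ⟨h2, h4⟩)
        · refine ⟨p, ?_⟩
          rw [abs_le]
          constructor <;> linarith [h1.1, h1.2]
      · rcases le_total (c p) t with h4 | h4
        · exact ih t (Or.inr ⟨h4, h3⟩)
        · refine ⟨p, ?_⟩
          rw [abs_le]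
          constructor <;> linarith [h1.1, h1.2]
    intro p
    have hp : p ∈ Subgroup.closure (S : Set G) := by rw [hS]; trivial
    induction hp using Subgroup.closure_induction_right with
    | one =>
      intro t ht
      refine ⟨1, ?_⟩
      have : t = c 1 := by
        rcases ht with ⟨h1, h2⟩ | ⟨h1, h2⟩
        · exact le_antisymm h2 h1
        · exact le_antisymm h2 h1
      rw [this, sub_self, abs_zero]
      linarith
    | mul_right x hx y hy ih => exact hext x (x * y) (hstep x y hy) ih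
    | mul_inv_cancel x hx y hy ih =>
      refine hext x (x * y⁻¹) ?_ ih
      have h1 := hstep (x * y⁻¹) y hy
      rw [inv_mul_cancel_right, abs_sub_comm] at h1
      exact h1
  set C : ℝ := 1 + 2 * (M + D) + 3 * D with hC
  set X : Set G := {x | |c x| ≤ C}
  have hSX : (S : Set G) ⊆ X := by
    intro s hs
    have := hM s hs
    change |c s| ≤ C
    linarith
  have hgen : Gen X := by
    refine top_le_iff.mp ?_
    rw [← hS]
    exact Subgroup.closure_mono hSX
  have hone := h.one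
  have hclose : ∀ a b : G, |c a - c b| ≤ 1 + 2 * (M + D) → len X b ≤ len X a + 1 := by
    intro a b hab
    have h1 := abs_le.mp (h.left a b)
    have h2 : |sg (ε a) * (c b - c a)| ≤ 1 + 2 * (M + D) := by
      rw [abs_mul, abs_sg, one_mul, abs_sub_comm]
      exact hab
    have h3 := abs_le.mp h2
    have h4 : a⁻¹ * b ∈ X := by
      change |c (a⁻¹ * b)| ≤ C
      rw [abs_le]
      constructor
      · linarith [h1.1, h3.1]
      · linarith [h1.2, h3.2]
    have h5 := len_mul hgen a (a⁻¹ * b)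
    rw [mul_inv_cancel_left] at h5
    exact h5.trans (Nat.add_le_add_left (len_mem h4) _)
  have hmain : ∀ g : G, ∀ σ : ℝ, (σ = 1 ∨ σ = -1) → σ * (c g - c 1) = |c g - c 1| →
      ∀ j : ℕ, (j : ℝ) ≤ |c g - c 1| → ∀ u : G, |c u - (c 1 + j * σ)| ≤ M + D →
        len X u ≤ j + 1 := by
    intro g σ hσ hσg j
    induction j with
    | zero =>
      intro _ u hu
      rw [Nat.cast_zero, zero_mul, add_zero] at hu
      have h1 := hclose 1 u (by rw [abs_sub_comm]; linarith)
      rwa [len_one] at h1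
    | succ j ih =>
      intro hj u hu
      have hj' : (j : ℝ) ≤ |c g - c 1| := by
        push_cast at hj
        linarith
      have hj0 : (0 : ℝ) ≤ j := Nat.cast_nonneg _
      obtain ⟨v, hv⟩ := hiv g (c 1 + j * σ) (by
        rcases hσ with rfl | rfl
        · left
          constructor <;> linarith
        · right
          constructor <;> linarith)
      have h1 := ih hj' v hv
      have h2 : |c v - c u| ≤ 1 + 2 * (M + D) := by
        push_cast at hu
        have h3 := abs_le.mp hu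
        have h4 := abs_le.mp hv
        rw [abs_le]
        rcases hσ with rfl | rfl
        · constructor <;> linarith [h3.1, h3.2, h4.1, h4.2]
        · constructor <;> linarith [h3.1, h3.2, h4.1, h4.2]
      exact (hclose v u h2).trans (Nat.add_le_add_right h1 1)
  have hupper : ∀ g : G, (len X g : ℝ) ≤ |c g| + (D + 2) := by
    intro g
    obtain ⟨σ, hσ, hσg⟩ : ∃ σ : ℝ, (σ = 1 ∨ σ = -1) ∧ σ * (c g - c 1) = |c g - c 1| := by
      rcases abs_cases (c g - c 1) with ⟨h1, _⟩ | ⟨h1, _⟩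
      · exact ⟨1, Or.inl rfl, by rw [h1, one_mul]⟩
      · exact ⟨-1, Or.inr rfl, by rw [h1, neg_one_mul]⟩
    have hr := Nat.floor_le (abs_nonneg (c g - c 1))
    have hr' := Nat.lt_floor_add_one |c g - c 1|
    have hr0 : (0 : ℝ) ≤ (⌊|c g - c 1|⌋₊ : ℝ) := Nat.cast_nonneg _
    generalize ⌊|c g - c 1|⌋₊ = r at hr hr' hr0
    obtain ⟨v, hv⟩ := hiv g (c 1 + r * σ) (by
      rcases hσ with rfl | rfl
      · left
        constructor <;> linarith
      · right
        constructor <;> linarith)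
    have h1 := hmain g σ hσ hσg r hr v hv
    have h2 : |c v - c g| ≤ 1 + 2 * (M + D) := by
      have h4 := abs_le.mp hv
      rw [abs_le]
      rcases hσ with rfl | rfl
      · constructor <;> linarith [h4.1, h4.2]
      · constructor <;> linarith [h4.1, h4.2]
    have h3 : (len X g : ℝ) ≤ (r : ℝ) + 1 + 1 := by
      exact_mod_cast (hclose v g h2).trans (Nat.add_le_add_right h1 1)
    have h5 : |c g - c 1| ≤ |c g| + |c 1| := abs_sub _ _
    linarith
  refine ⟨X, hgen, C + 3 * D + D + 2, fun g => ?_⟩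
  have h1 := h.len_bound hgen (B := C) (fun x hx => hx) g
  have h2 := hupper g
  have h3 : (0 : ℝ) ≤ len X g := Nat.cast_nonneg _
  have h4 : 0 ≤ |c g| := abs_nonneg _
  have h5 : 0 ≤ C := by
    rw [hC]
    linarith
  constructor
  · nlinarith [mul_nonneg hD h3]
  · nlinarith [mul_nonneg hD h4, mul_nonneg h5 h4]

/-- A set described by an unbounded quasi-cocycle is lineal.

Proof. Take `φ = c`. By `QC.left`, `c (x⁻¹ y)` is `± (c y - c x)` up to `3 D`, so that
`Comp X c` gives the quasi-isometry inequalities. Coarse surjectivity: by `QC.bdd_of_finiteIndex` for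
the kernel of `ε` (finite index), there is an `x` with `ε x = 1` and `|c x| > 3 D`, so that `q x ≠ 0` with
`q` from `QC.homog`, and `c (x ^ k)` is `k q x` up to `3 D` for all integers `k`; each real number is
within `|q x|` from some `k q x`. -/
theorem LD.lineal {X : Set G} (hX : Gen X) {ε : G →* ℤˣ} {c : G → ℝ} (h : LD X ε c) :
    Lineal X := by
  obtain ⟨D, hD⟩ := h.qc
  have hD0 : 0 ≤ D := hD.nonneg
  obtain ⟨A, hA⟩ := h.comp
  have hex : ∃ x, ε x = 1 ∧ 3 * D < |c x| := by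
    by_contra hcon
    push Not at hcon
    obtain ⟨B', hB'⟩ := hD.bdd_of_finiteIndex ε.ker (B := 3 * D)
      (fun x hx => hcon x (MonoidHom.mem_ker.mp hx))
    obtain ⟨g, hg⟩ := h.unb (B' + 1)
    linarith [hB' g]
  obtain ⟨x, hx1, hx⟩ := hex
  obtain ⟨q, hq, -⟩ := hD.homog
  have hqx : q x ≠ 0 := by
    intro h0
    have h1 := hq x hx1 1
    rw [h0, mul_zero, sub_zero, zpow_one] at h1
    linarith
  have hqp : 0 < |q x| := abs_pos.mpr hqx
  have hA1 : A ≤ |A| := le_abs_self A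
  have hA0 : 0 ≤ |A| := abs_nonneg A
  have hcmp : ∀ a b : G, |c (a⁻¹ * b)| ≤ |c a - c b| + 3 * D ∧
      |c a - c b| ≤ |c (a⁻¹ * b)| + 3 * D := by
    intro a b
    have h1 := hD.left a b
    have h2 : |sg (ε a) * (c b - c a)| = |c a - c b| := by
      rw [abs_mul, abs_sg, one_mul, abs_sub_comm]
    have h3 := abs_sub_abs_le_abs_sub (c (a⁻¹ * b)) (sg (ε a) * (c b - c a))
    have h4 := abs_sub_abs_le_abs_sub (sg (ε a) * (c b - c a)) (c (a⁻¹ * b))
    rw [abs_sub_comm (sg (ε a) * (c b - c a))] at h4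
    rw [h2] at h3 h4
    constructor <;> linarith
  have hDA : 0 ≤ 3 * D * |A| := by positivity
  refine ⟨c, |A| + 3 * D * |A| + 3 * D + |q x| + 1, by linarith, ?_, ?_⟩
  · intro a b
    obtain ⟨h1, h2⟩ := hcmp a b
    obtain ⟨h3, h4⟩ := hA (a⁻¹ * b)
    have hw : (0 : ℝ) ≤ (len X (a⁻¹ * b) : ℝ) := Nat.cast_nonneg _
    have hu : 0 ≤ |c a - c b| := abs_nonneg _
    have h5 : A * (len X (a⁻¹ * b) : ℝ) ≤ |A| * (len X (a⁻¹ * b) : ℝ) :=
      mul_le_mul_of_nonneg_right hA1 hw
    have h6 : A * |c (a⁻¹ * b)| ≤ |A| * |c (a⁻¹ * b)| :=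
      mul_le_mul_of_nonneg_right hA1 (abs_nonneg _)
    have h7 : |A| * |c (a⁻¹ * b)| ≤ |A| * (|c a - c b| + 3 * D) :=
      mul_le_mul_of_nonneg_left h1 hA0
    have h8 : 0 ≤ (3 * D * |A| + 3 * D + |q x| + 1) * (len X (a⁻¹ * b) : ℝ) :=
      mul_nonneg (by linarith) hw
    have h9 : 0 ≤ (3 * D * |A| + 3 * D + |q x| + 1) * |c a - c b| :=
      mul_nonneg (by linarith) hu
    unfold wd
    constructor
    · nlinarith
    · nlinarith
  · intro t
    refine ⟨x ^ ⌊t / q x⌋, ?_⟩
    have h1 := hq x hx1 ⌊t / q x⌋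
    have h2 : |(⌊t / q x⌋ : ℝ) * q x - t| ≤ |q x| := by
      have h3 : (⌊t / q x⌋ : ℝ) * q x - t = ((⌊t / q x⌋ : ℝ) - t / q x) * q x := by
        field_simp
      have h4 : |(⌊t / q x⌋ : ℝ) - t / q x| ≤ 1 := by
        rw [abs_le]
        constructor
        · linarith [Int.lt_floor_add_one (t / q x)]
        · linarith [Int.floor_le (t / q x)]
      rw [h3, abs_mul]
      nlinarith
    have h5 := abs_sub_le (c (x ^ ⌊t / q x⌋)) ((⌊t / q x⌋ : ℝ) * q x) t
    linarith

/-- Every unbounded quasi-cocycle on a finitely generated group describes a lineal structure. -/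
theorem exists_lds {ε : G →* ℤˣ} {c : G → ℝ} {D : ℝ} (h : QC ε c D) (hu : Unb c) (S : Finset G)
    (hS : Subgroup.closure (S : Set G) = ⊤) : ∃ s : H G, IsLineal s ∧ LDs s ε c := by
  obtain ⟨X, hX, hc⟩ := exists_gen h S hS
  have hl : LD X ε c := ⟨⟨D, h⟩, hc, hu⟩
  have hL := hl.lineal hX
  exact ⟨cls ⟨X, hX, hL.hyp hX⟩, ⟨_, rfl, hL⟩, ⟨_, rfl, hl⟩⟩

/-! ### Comparison of lineal structures -/

/-- The character of a structure described by a quasi-cocycle.

Proof. With `QC.left` and the definition, `c (x⁻¹ g x)` is `ε x * (c (g x) - c x)` up to `3 D`, and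
`c (g x)` is `c g + ε g * c x` up to `D`. So if `ε g = 1`, then `|c (x⁻¹ g x)| ≤ |c g| + 4 D` for all
`x`, and if `ε g = -1`, then `|c (x⁻¹ g x)| ≥ 2 |c x| - |c g| - 4 D` is unbounded in `x`. The length is
comparable with `|c|`. -/
theorem LD.char {X : Set G} {ε : G →* ℤˣ} {c : G → ℝ} (h : LD X ε c) (g : G) :
    ε g = 1 ↔ ∃ C, ∀ x, len X (x⁻¹ * g * x) ≤ C := by
  obtain ⟨⟨D, hD⟩, ⟨A, hA⟩, hu⟩ := h
  have hA0 : 0 ≤ A := by
    have h1 := (hA 1).1
    rw [len_one] at h1
    simp only [Nat.cast_zero, mul_zero, zero_add] at h1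
    exact (abs_nonneg _).trans h1
  have key : ∀ x, |c (x⁻¹ * g * x) - sg (ε x) * (c (g * x) - c x)| ≤ 3 * D := by
    intro x
    rw [mul_assoc]
    exact hD.left x (g * x)
  have key2 : ∀ x, |(|c (x⁻¹ * g * x)| - |c (g * x) - c x|)| ≤ 3 * D := by
    intro x
    have h1 := abs_abs_sub_abs_le_abs_sub (c (x⁻¹ * g * x)) (sg (ε x) * (c (g * x) - c x))
    rw [abs_mul, abs_sg, one_mul] at h1
    exact h1.trans (key x)
  constructor
  · intro hg
    refine ⟨⌈A * (|c g| + 4 * D) + A⌉₊, fun x => ?_⟩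
    have h1 := hD g x
    rw [hg, sg_one, one_mul] at h1
    have h2 : |c (g * x) - c x| ≤ |c g| + D := by
      have h3 : c (g * x) - c x = c g + (c (g * x) - c g - c x) := by ring
      rw [h3]
      exact (abs_add_le _ _).trans (add_le_add le_rfl h1)
    have h4 := (abs_le.mp (key2 x)).2
    have h5 : |c (x⁻¹ * g * x)| ≤ |c g| + 4 * D := by linarith
    have h6 := (hA (x⁻¹ * g * x)).2
    have h7 : ((len X (x⁻¹ * g * x) : ℕ) : ℝ) ≤ A * (|c g| + 4 * D) + A :=
      h6.trans (add_le_add (mul_le_mul_of_nonneg_left h5 hA0) le_rfl)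
    exact_mod_cast h7.trans (Nat.le_ceil _)
  · rintro ⟨C, hC⟩
    rcases Int.units_eq_one_or (ε g) with hg | hg
    · exact hg
    · exfalso
      obtain ⟨x, hx⟩ := hu (A * C + A + |c g| + 4 * D + 1)
      have h1 := hD g x
      rw [hg, sg_neg_one] at h1
      have h2 : 2 * |c x| ≤ |c (g * x) - c x| + |c g| + D := by
        have h3 : 2 * c x = -(c (g * x) - c x) + c g + (c (g * x) - c g - -1 * c x) := by ring
        have h4 : 2 * |c x| = |2 * c x| := by rw [abs_mul, abs_two]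
        rw [h4, h3]
        refine (abs_add_le _ _).trans (add_le_add ((abs_add_le _ _).trans ?_) h1)
        rw [abs_neg]
      have h5 := (abs_le.mp (key2 x)).1
      have h6 := (hA (x⁻¹ * g * x)).1
      have h7 : ((len X (x⁻¹ * g * x) : ℕ) : ℝ) ≤ C := by exact_mod_cast hC x
      have h8 : A * ((len X (x⁻¹ * g * x) : ℕ) : ℝ) ≤ A * C := mul_le_mul_of_nonneg_left h7 hA0
      have h9 : 0 ≤ |c x| := abs_nonneg _
      have h10 := hD.nonneg
      have h11 : 0 ≤ |c g| := abs_nonneg _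
      have h12 : 0 ≤ A * (C : ℝ) := mul_nonneg hA0 (Nat.cast_nonneg _)
      linarith

/-- The lineal structures with character `ε` are those described by a quasi-cocycle for `ε`.

Proof. `→`: let `X` be a lineal representative (`IsLineal`), `exists_ld` gives `ε'` and `c` with
`LD X ε' c`. `HasChar` gives a representative `X'` of the same class; the condition
`∃ C, ∀ x, len (x⁻¹ g x) ≤ C` is the same for `X` and `X'` by `Dom.linear`. By `LD.char`,
`ε' g = 1 ↔ ε g = 1`, so `ε' = ε` (units of `ℤ` are `1` and `-1`). `←`: `LD.lineal` and `LD.char`. -/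
theorem lineal_char_iff {s : H G} {ε : G →* ℤˣ} :
    (IsLineal s ∧ HasChar ε s) ↔ ∃ c, LDs s ε c := by
  constructor
  · rintro ⟨⟨X, hX, hL⟩, ⟨X', hX', hc⟩⟩
    obtain ⟨ε', c, hld⟩ := exists_ld X.2.1 hL
    have hle : cls X ≤ cls X' := by rw [hX, hX']
    have hle' : cls X' ≤ cls X := by rw [hX, hX']
    obtain ⟨K, hK⟩ := (cls_le.mp hle).linear X.2.1 X'.2.1
    obtain ⟨K', hK'⟩ := (cls_le.mp hle').linear X'.2.1 X.2.1
    have hε : ε' = ε := by
      have hiff : ∀ g, ε' g = 1 ↔ ε g = 1 := by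
        intro g
        rw [hld.char g, hc g]
        constructor
        · rintro ⟨C, hC⟩
          exact ⟨K' * C, fun x => (hK' _).trans (Nat.mul_le_mul_left K' (hC x))⟩
        · rintro ⟨C, hC⟩
          exact ⟨K * C, fun x => (hK _).trans (Nat.mul_le_mul_left K (hC x))⟩
      ext1 g
      have h1 := hiff g
      rcases Int.units_eq_one_or (ε' g) with h2 | h2
      · rw [h2, h1.mp h2]
      · rcases Int.units_eq_one_or (ε g) with h3 | h3
        · rw [h1.mpr h3] at h2
          exact absurd h2 (by decide)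
        · rw [h2, h3]
    rw [← hε]
    exact ⟨c, X, hX, hld⟩
  · rintro ⟨c, X, hX, hld⟩
    exact ⟨⟨X, hX, hld.lineal X.2.1⟩, ⟨X, hX, fun g => hld.char g⟩⟩

/-- Every lineal structure has a character. (`exists_ld` and `LD.char`.) -/
theorem IsLineal.exists_char {s : H G} (h : IsLineal s) : ∃ ε : G →* ℤˣ, HasChar ε s := by
  obtain ⟨X, hX, hL⟩ := h
  obtain ⟨ε, c, hld⟩ := exists_ld X.2.1 hL
  exact ⟨ε, X, hX, fun g => hld.char g⟩

/-- Proportional quasi-cocycles give the same class.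

Proof. Since `c'` is unbounded, `t ≠ 0`. By `LDs.le_iff` for a representative `X` of `s` and `Comp X c`:
`c` is bounded on `X`, so `c'` is bounded on `X` and `s' ≤ s`. For a representative `X'` of `s'`,
`c'` is bounded on `X'`, so `|c| ≤ (|c'| + B) / |t|` is bounded on `X'` and `s ≤ s'`. -/
theorem LDs.eq_of_prop {s s' : H G} {ε ε' : G →* ℤˣ} {c c' : G → ℝ} (h : LDs s ε c)
    (h' : LDs s' ε' c') {t B : ℝ} (hB : ∀ g, |c' g - t * c g| ≤ B) : s' = s := by
  obtain ⟨X, hX, hl⟩ := id h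
  obtain ⟨X', hX', hl'⟩ := id h'
  have ht : t ≠ 0 := by
    rintro rfl
    obtain ⟨g, hg⟩ := hl'.unb (B + 1)
    have := hB g
    rw [zero_mul, sub_zero] at this
    linarith
  apply le_antisymm
  · rw [← hX]
    obtain ⟨b, hb⟩ := (h.le_iff X).mp hX.ge
    refine (h'.le_iff X).mpr ⟨|t| * b + B, fun y hy => ?_⟩
    have h1 := hB y
    have h2 : |t * c y| ≤ |t| * b := by
      rw [abs_mul]
      exact mul_le_mul_of_nonneg_left (hb y hy) (abs_nonneg t)
    have h3 : c' y = t * c y + (c' y - t * c y) := by ring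
    rw [h3]
    exact (abs_add_le _ _).trans (by linarith)
  · rw [← hX']
    obtain ⟨b, hb⟩ := (h'.le_iff X').mp hX'.ge
    refine (h.le_iff X').mpr ⟨(b + B) / |t|, fun y hy => ?_⟩
    have h1 := hB y
    have ht' : 0 < |t| := abs_pos.mpr ht
    rw [le_div_iff₀ ht', ← abs_mul]
    have h3 : c y * t = c' y + -(c' y - t * c y) := by ring
    rw [h3]
    refine (abs_add_le _ _).trans ?_
    rw [abs_neg]
    linarith [hb y hy]

private theorem exists_pos_slope {ε : G →* ℤˣ} {c : G → ℝ} {D : ℝ} (h : QC ε c D) (hu : Unb c)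
    {q : G → ℝ} (hq : ∀ x, ε x = 1 → ∀ k : ℤ, |c (x ^ k) - k * q x| ≤ 3 * D) :
    ∃ x, ε x = 1 ∧ q x ≠ 0 := by
  by_contra hne
  push Not at hne
  have hK : ∀ x ∈ ε.ker, |c x| ≤ 3 * D := by
    intro x hx
    have hx' : ε x = 1 := hx
    have h1 := hq x hx' 1
    rw [hne x hx', mul_zero, sub_zero, zpow_one] at h1
    exact h1
  obtain ⟨B', hB'⟩ := h.bdd_of_finiteIndex ε.ker hK
  obtain ⟨g, hg⟩ := hu (B' + 1)
  linarith [hB' g]

/-- Comparable lineal structures with the same character are equal.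

Proof. Let `X` be a representative of `s`. By `LDs.le_iff`, `|c'| ≤ B` on `X`. By `Comp X c` and
`QC.len_bound` (for `c'`), `|c' g| ≤ A (|c g| + 1)` for some `A`. There is an `x` with `ε x = 1` and
`q x ≠ 0`, where `q` and `q'` are the homogenisations (`QC.homog`) of `c` and `c'`
(`QC.bdd_of_finiteIndex` for the kernel of `ε`). For any `g` let `k` be an integer with
`|c g + ε g k q x| ≤ |q x|`. Then `|c (g x ^ k)|` is bounded, so `|c' (g x ^ k)|` is bounded, and
`c' (g x ^ k)` is `c' g + ε g k q' x` up to a constant, hence `c' g - (q' x / q x) c g` is bounded. Now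
`LDs.eq_of_prop`. -/
theorem LDs.eq_of_le {s s' : H G} {ε : G →* ℤˣ} {c c' : G → ℝ} (h : LDs s ε c)
    (h' : LDs s' ε c') (hle : s' ≤ s) : s' = s := by
  obtain ⟨X, hX, hl⟩ := id h
  obtain ⟨X', hX', hl'⟩ := id h'
  obtain ⟨D, hD⟩ := hl.qc
  obtain ⟨D', hD'⟩ := hl'.qc
  have hD0 := hD.nonneg
  have hD0' := hD'.nonneg
  obtain ⟨b, hb⟩ := (h'.le_iff X).mp (hle.trans hX.ge)
  have hb' : ∀ y ∈ X.1, |c' y| ≤ max b 0 := fun y hy => (hb y hy).trans (le_max_left _ _)
  have hb0 : 0 ≤ max b 0 := le_max_right _ _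
  obtain ⟨A, hA⟩ := hl.comp
  have hA0 : 0 ≤ A := by
    have h1 := (hA 1).2
    rw [len_one, Nat.cast_zero] at h1
    have h2 := abs_nonneg (c 1)
    by_contra hneg
    push Not at hneg
    nlinarith
  obtain ⟨q, hq, -⟩ := hD.homog
  obtain ⟨q', hq', -⟩ := hD'.homog
  obtain ⟨x, hx, hqx⟩ := exists_pos_slope hD hl.unb hq
  have hqa : 0 < |q x| := abs_pos.mpr hqx
  set P : ℝ := max b 0 + 3 * D' with hP
  have hP0 : 0 ≤ P := by positivity
  set M : ℝ := P * (A * (|q x| + 4 * D) + A) + D' with hM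
  refine h.eq_of_prop h' (t := q' x / q x) (B := M + 4 * D' + |q' x|) fun g => ?_
  -- the exponent
  set u : ℝ := sg (ε g) with hu
  have huu : u * u = 1 := sg_mul_self _
  have hua : |u| = 1 := abs_sg _
  set k : ℤ := -round (c g * u / q x) with hk
  have hE : |c g + u * (k * q x)| ≤ |q x| := by
    have e : c g + u * (k * q x) = u * q x * (c g * u / q x - round (c g * u / q x)) := by
      rw [hk]
      push_cast
      field_simp
      linear_combination (-c g) * huu
    rw [e, abs_mul, abs_mul, hua, one_mul]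
    have h1 := abs_sub_round (c g * u / q x)
    nlinarith
  have h1 := hD g (x ^ k)
  have h2 := hq x hx k
  have h3 := hD' g (x ^ k)
  have h4 := hq' x hx k
  rw [← hu] at h1 h3
  have h2' : |u * (c (x ^ k) - k * q x)| ≤ 3 * D := by rw [abs_mul, hua, one_mul]; exact h2
  have h4' : |u * (c' (x ^ k) - k * q' x)| ≤ 3 * D' := by rw [abs_mul, hua, one_mul]; exact h4
  have hc : |c (g * x ^ k)| ≤ |q x| + 4 * D := by
    have e : c (g * x ^ k) = (c (g * x ^ k) - c g - u * c (x ^ k)) +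
        u * (c (x ^ k) - k * q x) + (c g + u * (k * q x)) := by ring
    have a1 := abs_le.mp h1
    have a2 := abs_le.mp h2'
    have a3 := abs_le.mp hE
    rw [e, abs_le]
    constructor
    · linarith [a1.1, a2.1, a3.1]
    · linarith [a1.2, a2.2, a3.2]
  have hc' : |c' (g * x ^ k)| ≤ M := by
    refine (hD'.len_bound X.2.1 hb' (g * x ^ k)).trans ?_
    rw [hM]
    have h5 := (hA (g * x ^ k)).2
    have h6 : A * |c (g * x ^ k)| + A ≤ A * (|q x| + 4 * D) + A := by
      have := mul_le_mul_of_nonneg_left hc hA0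
      linarith
    have h7 := mul_le_mul_of_nonneg_left (h5.trans h6) hP0
    linarith
  have hF : |q' x / q x * (c g + u * (k * q x))| ≤ |q' x| := by
    rw [abs_mul, abs_div]
    calc |q' x| / |q x| * |c g + u * (k * q x)| ≤ |q' x| / |q x| * |q x| :=
          mul_le_mul_of_nonneg_left hE (by positivity)
      _ = |q' x| := by field_simp
  have e : c' g - q' x / q x * c g = c' (g * x ^ k) - (c' (g * x ^ k) - c' g - u * c' (x ^ k)) -
      u * (c' (x ^ k) - k * q' x) - q' x / q x * (c g + u * (k * q x)) := by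
    field_simp
    ring
  have a1 := abs_le.mp h3
  have a2 := abs_le.mp h4'
  have a3 := abs_le.mp hc'
  have a4 := abs_le.mp hF
  rw [e, abs_le]
  constructor
  · linarith [a1.2, a2.2, a3.1, a4.2]
  · linarith [a1.1, a2.1, a3.2, a4.1]

/-- The third lineal structure.

Proof. Let `c₃ = c + c'`, a quasi-cocycle for `ε` (`QC.add`). It is unbounded, since otherwise
`s = s'` by `LDs.eq_of_prop` (with `t = -1`). Take `s₃` from `exists_lds`. If `s ≤ t` and `s' ≤ t` then
`c` and `c'` are bounded on a representative of `t`, so `c₃` is and `s₃ ≤ t` (`LDs.le_iff`). If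
`s₃ = s`, then `c₃` and `c` are bounded on a representative of `s`, so `c' = c₃ - c` is, so `s' ≤ s`
and `s' = s` by `LDs.eq_of_le`, contradiction. The same for `s₃ = s'`. -/
theorem exists_third (S : Finset G) (hS : Subgroup.closure (S : Set G) = ⊤) {s s' : H G}
    {ε : G →* ℤˣ} {c c' : G → ℝ} (h : LDs s ε c) (h' : LDs s' ε c') (hne : s ≠ s') :
    ∃ s₃ : H G, IsLineal s₃ ∧ s₃ ≠ s ∧ s₃ ≠ s' ∧ ∀ t, s ≤ t → s' ≤ t → s₃ ≤ t := by
  obtain ⟨X, hX, hl⟩ := id h
  obtain ⟨X', hX', hl'⟩ := id h'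
  obtain ⟨D, hD⟩ := hl.qc
  obtain ⟨D', hD'⟩ := hl'.qc
  have hU : Unb (fun g => c g + c' g) := by
    by_contra hn
    unfold Unb at hn
    push Not at hn
    obtain ⟨T, hT⟩ := hn
    refine hne (h.eq_of_prop h' (t := -1) (B := T) fun g => ?_).symm
    have e : c' g - -1 * c g = c g + c' g := by ring
    rw [e]
    exact (hT g).le
  obtain ⟨s₃, hs₃, h₃⟩ := exists_lds (hD.add hD') hU S hS
  refine ⟨s₃, hs₃, ?_, ?_, ?_⟩
  · rintro rfl
    obtain ⟨b, hb⟩ := (h₃.le_iff X).mp hX.ge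
    obtain ⟨b', hb'⟩ := (h.le_iff X).mp hX.ge
    refine hne (h.eq_of_le h' ?_).symm
    rw [← hX]
    refine (h'.le_iff X).mpr ⟨b + b', fun y hy => ?_⟩
    have e : c' y = (c y + c' y) + -c y := by ring
    rw [e]
    refine (abs_add_le _ _).trans ?_
    rw [abs_neg]
    exact add_le_add (hb y hy) (hb' y hy)
  · rintro rfl
    obtain ⟨b, hb⟩ := (h₃.le_iff X').mp hX'.ge
    obtain ⟨b', hb'⟩ := (h'.le_iff X').mp hX'.ge
    refine hne (h'.eq_of_le h ?_)
    rw [← hX']
    refine (h.le_iff X').mpr ⟨b + b', fun y hy => ?_⟩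
    have e : c y = (c y + c' y) + -c' y := by ring
    rw [e]
    refine (abs_add_le _ _).trans ?_
    rw [abs_neg]
    exact add_le_add (hb y hy) (hb' y hy)
  · intro t ht ht'
    obtain ⟨Z, rfl⟩ := exists_cls t
    obtain ⟨b, hb⟩ := (h.le_iff Z).mp ht
    obtain ⟨b', hb'⟩ := (h'.le_iff Z).mp ht'
    refine (h₃.le_iff Z).mpr ⟨b + b', fun y hy => ?_⟩
    exact (abs_add_le _ _).trans (add_le_add (hb y hy) (hb' y hy))

end Pool.Agent.Helper35.HS
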