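import Pool.Agent.Helper35.HS.Free
import Pool.Agent.Helper35.HS.QC

/-!
# Chains in free groups (project HS)

If a quasi-cocycle is bounded on a sequence of elements of a free group with bounded steps, then it is
bounded on all factors of the reduced words of the sequence.
-/

set_option autoImplicit false

namespace Pool.Agent.Helper35.HS

variable {n : ℕ}

/-- Prefixes of the elements of a chain are close to earlier elements of the chain.

Proof. Induction on `k`. For `k = 0` the initial segment is `1`. Step: let `p` be a initial segment of `w (k+1) = w k * y`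
with `y = (w k)⁻¹ * w (k + 1)`, `y.toWord.length ≤ M`. By `exists_cancel`,
`(w k).toWord = a ++ b`, `y.toWord = b⁻¹ ++ d`, `(w (k+1)).toWord = a ++ d`. Either the initial segment is a
initial segment of `a`, hence of `w k`, and the induction hypothesis applies, or it is `a ++ d'` with a initial segment `d'`
of `d`; then it is the reduced word of `w k * r`, where `r` is the element of the initial segment `b⁻¹ ++ d'` of
`y`, which has at most `M` letters. -/
theorem exists_near {w : ℕ → F n} (h0 : w 0 = 1) {M : ℕ}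
    (hM : ∀ j, ((w j)⁻¹ * w (j + 1)).toWord.length ≤ M) (k : ℕ) {p : F n}
    (hp : p.toWord <+: (w k).toWord) : ∃ j, ∃ r : F n, p = w j * r ∧ r.toWord.length ≤ M := by
  induction k generalizing p with
  | zero =>
    rw [h0, FreeGroup.toWord_one, List.prefix_nil, FreeGroup.toWord_eq_nil_iff] at hp
    refine ⟨0, 1, ?_, ?_⟩
    · rw [hp, h0, mul_one]
    · rw [FreeGroup.toWord_one]
      exact Nat.zero_le M
  | succ k ih =>
    obtain ⟨a, b, d, h1, h2, h3⟩ := exists_cancel (w k) ((w k)⁻¹ * w (k + 1))
    rw [mul_inv_cancel_left] at h3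
    rw [h3] at hp
    rcases List.prefix_or_prefix_of_prefix hp (List.prefix_append a.toWord d.toWord) with h | h
    · refine ih (h.trans ?_)
      rw [h1]
      exact List.prefix_append _ _
    · obtain ⟨t, ht⟩ := h
      rw [← ht, List.prefix_append_right_inj] at hp
      have hwk : w k = a * b := by
        rw [← FreeGroup.mk_toWord (x := w k), h1, ← FreeGroup.mul_mk, FreeGroup.mk_toWord,
          FreeGroup.mk_toWord]
      have hpa : p = a * FreeGroup.mk t := by
        rw [← FreeGroup.mk_toWord (x := p), ← ht, ← FreeGroup.mul_mk, FreeGroup.mk_toWord]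
      refine ⟨k, b⁻¹ * FreeGroup.mk t, ?_, ?_⟩
      · rw [hwk, hpa, ← mul_assoc, mul_inv_cancel_right]
      · have h4 : (b⁻¹ * FreeGroup.mk t : F n).toWord.length ≤
            (b⁻¹ : F n).toWord.length + (FreeGroup.mk t : F n).toWord.length :=
          FreeGroup.norm_mul_le b⁻¹ (FreeGroup.mk t)
        have h5 : (FreeGroup.mk t : F n).toWord.length ≤ t.length := FreeGroup.norm_mk_le
        have h6 : t.length ≤ d.toWord.length := hp.length_le
        have h7 := hM k
        rw [h2, List.length_append] at h7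
        omega

/-- There are finitely many elements of bounded length, so `c` is bounded on them. (The generating set
is finite.) -/
theorem exists_bound (c : F n → ℝ) (M : ℕ) : ∃ B : ℝ, ∀ g : F n, g.toWord.length ≤ M → |c g| ≤ B := by
  have h1 : {g : F n | g.toWord.length ≤ M}.Finite :=
    (List.finite_length_le (Fin n × Bool) M).preimage
      (FreeGroup.toWord_injective (α := Fin n)).injOn
  obtain ⟨B, hB⟩ := (h1.image fun g => |c g|).bddAbove
  exact ⟨B, fun g hg => hB ⟨g, hg, rfl⟩⟩

/-- Chains.

Proof. The steps have bounded word length `M` (finite set). Let `B` be a bound for `|c|` on the elements of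
word length at most `M` (`exists_bound`). By `exists_near`, prefixes `p` of `w k` are `w j * r` with
`|c p| ≤ R + B + D`. If `g.toWord` is a factor of `(w k).toWord`, then `g = p⁻¹ * p'` for two prefixes
`p, p'` of `w k`, so `|c g| ≤ |c p'| + |c p| + 3 D` by `QC.left`. If `g⁻¹.toWord` is a factor, use
`QC.inv`. -/
theorem chain_bdd {w : ℕ → F n} (h0 : w 0 = 1)
    (hfin : (Set.range fun j => (w j)⁻¹ * w (j + 1)).Finite) {ε : F n →* ℤˣ} {c : F n → ℝ} {D : ℝ}
    (hc : QC ε c D) {R : ℝ} (hR : ∀ j, |c (w j)| ≤ R) :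
    ∃ B : ℝ, ∀ g ∈ fac (Set.range w), |c g| ≤ B := by
  obtain ⟨M, hM⟩ := (hfin.image fun y : F n => y.toWord.length).bddAbove
  have hM' : ∀ j, ((w j)⁻¹ * w (j + 1)).toWord.length ≤ M := fun j =>
    hM ⟨_, ⟨j, rfl⟩, rfl⟩
  obtain ⟨B, hB⟩ := exists_bound c M
  obtain ⟨B₁, hB₁⟩ := exists_bound c 1
  have habs : ∀ (u : ℤˣ) (x : ℝ), |sg u * x| = |x| := fun u x => by
    rw [abs_mul, abs_sg, one_mul]
  have hpre : ∀ k (p : F n), p.toWord <+: (w k).toWord → |c p| ≤ R + B + D := by
    intro k p hp
    obtain ⟨j, r, rfl, hr⟩ := exists_near h0 hM' k hp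
    have h1 := hc (w j) r
    have h2 := hB r hr
    have h3 := hR j
    have h4 := habs (ε (w j)) (c r)
    have h5 : |c (w j * r)| ≤ |c (w j * r) - c (w j) - sg (ε (w j)) * c r| +
        |c (w j)| + |sg (ε (w j)) * c r| := by
      have h6 : c (w j * r) = (c (w j * r) - c (w j) - sg (ε (w j)) * c r) + c (w j) +
          sg (ε (w j)) * c r := by ring
      calc |c (w j * r)| = |(c (w j * r) - c (w j) - sg (ε (w j)) * c r) + c (w j) +
          sg (ε (w j)) * c r| := by rw [← h6]
        _ ≤ _ := (abs_add_le _ _).trans (add_le_add_left (abs_add_le _ _) _)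
    linarith
  have hfac : ∀ k (g : F n), g.toWord <:+: (w k).toWord →
      |c g| ≤ 2 * (R + B + D) + 3 * D := by
    rintro k g ⟨s, t, hst⟩
    have hred : FreeGroup.IsReduced (w k).toWord := FreeGroup.isReduced_toWord
    rw [← hst] at hred
    have hr2 : FreeGroup.IsReduced (s ++ g.toWord) := (List.isChain_append.1 hred).1
    have hr1 : FreeGroup.IsReduced s := (List.isChain_append.1 hr2).1
    have hp : s <+: (w k).toWord := ⟨g.toWord ++ t, by rw [← hst, List.append_assoc]⟩
    have hp' : s ++ g.toWord <+: (w k).toWord := ⟨t, hst⟩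
    have e1 : (FreeGroup.mk s).toWord = s := by
      rw [FreeGroup.toWord_mk]
      exact hr1.reduce_eq
    have e2 : (FreeGroup.mk (s ++ g.toWord)).toWord = s ++ g.toWord := by
      rw [FreeGroup.toWord_mk]
      exact hr2.reduce_eq
    have b1 := hpre k (FreeGroup.mk s) (by rw [e1]; exact hp)
    have b2 := hpre k (FreeGroup.mk (s ++ g.toWord)) (by rw [e2]; exact hp')
    have e3 : (FreeGroup.mk s)⁻¹ * FreeGroup.mk (s ++ g.toWord) = g := by
      rw [← FreeGroup.mul_mk, inv_mul_cancel_left, FreeGroup.mk_toWord]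
    have h1 := hc.left (FreeGroup.mk s) (FreeGroup.mk (s ++ g.toWord))
    rw [e3] at h1
    have h2 := habs (ε (FreeGroup.mk s)) (c (FreeGroup.mk (s ++ g.toWord)) - c (FreeGroup.mk s))
    have h3 := abs_sub_abs_le_abs_sub (c g)
      (sg (ε (FreeGroup.mk s)) * (c (FreeGroup.mk (s ++ g.toWord)) - c (FreeGroup.mk s)))
    have h4 := abs_sub (c (FreeGroup.mk (s ++ g.toWord))) (c (FreeGroup.mk s))
    linarith
  have hD := hc.nonneg
  refine ⟨max B₁ (2 * (R + B + D) + 5 * D), fun g hg => ?_⟩
  rcases hg with hg | ⟨_, ⟨k, rfl⟩, hg | hg⟩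
  · exact (hB₁ g hg).trans (le_max_left _ _)
  · refine le_trans ?_ (le_max_right _ _)
    have := hfac k g hg
    linarith
  · refine le_trans ?_ (le_max_right _ _)
    have h1 := hfac k g⁻¹ hg
    have h2 := hc.inv g⁻¹
    rw [inv_inv] at h2
    have h3 := habs (ε g⁻¹) (c g⁻¹)
    have h4 := abs_sub_abs_le_abs_sub (c g) (-(sg (ε g⁻¹) * c g⁻¹))
    rw [sub_neg_eq_add, abs_neg] at h4
    linarith

/-- The structure of a chain dominates the structures of the quasi-cocycles which are bounded on the
chain. (`LDs.le_iff` and `chain_bdd`.) -/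
theorem LDs.le_chain {w : ℕ → F n} (h0 : w 0 = 1)
    (hfin : (Set.range fun j => (w j)⁻¹ * w (j + 1)).Finite) {s : H (F n)} {ε : F n →* ℤˣ}
    {c : F n → ℝ} (h : LDs s ε c) {R : ℝ} (hR : ∀ j, |c (w j)| ≤ R) :
    s ≤ cls (facH (Set.range w)) := by
  obtain ⟨X, -, hX⟩ := id h
  obtain ⟨D, hD⟩ := hX.qc
  rw [h.le_iff]
  exact chain_bdd h0 hfin hD hR

end Pool.Agent.Helper35.HS
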