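import Pool.Agent.Helper35.HS.Gro

/-!
# Cosets of elliptic elements (project HS)

If all elements of a coset of a normal subgroup of finite index are elliptic with respect to a
hyperbolic word metric, then this word metric is bounded or quasi-isometric to the real line.
-/

set_option autoImplicit false

namespace Pool.Agent.Helper35.HS

variable {G : Type} [Group G]

/-- The properties of a loxodromic element `y` and its powers: `m` bounds Gromov products of
nonpositive and nonnegative powers, `κ` is a lower bound for the translation length. -/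
structure Lox (X : Set G) (y : G) (M κ : ℝ) : Prop where
  pos : 0 < κ
  nonneg : 0 ≤ M
  gp_le : ∀ i k : ℕ, gp X (y ^ i)⁻¹ (y ^ k) ≤ M
  grow : ∀ k : ℕ, κ * k ≤ len X (y ^ k)

/-- Unbounded hyperbolic word metrics have loxodromic elements, and these can be chosen in a given
normal subgroup of finite index.

Proof. By `bdd_of_sq` (with the constant `4 δ`, contrapositive) there is a `z` with
`len z + 4 δ < len (z * z)`. By `gp_pow`, `gp (z ^ i)⁻¹ (z ^ k) ≤ M := gp z⁻¹ z + 2 δ` for all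
`i, k`, and by `pow_of_sq` (with `C = 4 δ`) and `len z - 2 gp z⁻¹ z = len (z * z) - len z ≥ 4 δ`
one has `len (z ^ k) ≥ 2 δ k` (induction on `k`). Take `y = z ^ N` with `N = K.index`, which lies in
`K` (`Subgroup.pow_index_mem` or a similar fact for normal subgroups) with `N ≥ 1`; the powers
of `y` are powers of `z`, and `len (y ^ k) = len (z ^ (N k)) ≥ 2 δ N k ≥ 2 δ k`. -/
theorem exists_lox {X : Set G} (hX : Gen X) {δ : ℝ} (hδ : Del X δ) (hb : ¬ Bdd X)
    (K : Subgroup G) [K.Normal] [K.FiniteIndex] : ∃ y ∈ K, ∃ M κ : ℝ, Lox X y M κ := by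
  have hδ0 : 0 < δ := hδ.1
  have hz : ∃ z : G, (len X z : ℝ) + 4 * δ < len X (z * z) := by
    by_contra hcon
    push Not at hcon
    exact hb (bdd_of_sq hX hδ (4 * δ) hcon)
  obtain ⟨z, hz⟩ := hz
  have ha : gp X z⁻¹ z = len X z - (len X (z * z) : ℝ) / 2 := by
    unfold gp
    rw [len_inv, inv_inv]
    ring
  have hgrow : ∀ k : ℕ, 2 * δ * k ≤ len X (z ^ k) := by
    intro k
    induction k with
    | zero => simp
    | succ k ih =>
      have h2 := (pow_of_sq hX hδ (z := z) (C := 4 * δ) (by linarith) hz.le k).2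
      rw [ha] at h2
      push_cast
      linarith
  have hN : 1 ≤ K.index := Nat.one_le_iff_ne_zero.mpr Subgroup.FiniteIndex.index_ne_zero
  refine ⟨z ^ K.index, Subgroup.pow_index_mem K z, gp X z⁻¹ z + 2 * δ, 2 * δ, ?_, ?_, ?_, ?_⟩
  · linarith
  · have := gp_nonneg hX z⁻¹ z
    linarith
  · intro i k
    rw [← pow_mul, ← pow_mul]
    exact gp_pow hX hδ hz.le _ _
  · intro k
    rw [← pow_mul]
    refine le_trans ?_ (hgrow _)
    have h1 : (1 : ℝ) ≤ (K.index : ℝ) := by exact_mod_cast hN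
    have h2 : (0 : ℝ) ≤ (k : ℝ) := Nat.cast_nonneg k
    push_cast
    nlinarith [mul_nonneg (mul_nonneg hδ0.le h2) (sub_nonneg.mpr h1)]

/-- The inverse of a loxodromic element. (Use `gp_comm`, `len_inv`, and `(y⁻¹) ^ i = (y ^ i)⁻¹`.) -/
theorem Lox.inv {X : Set G} {y : G} {M κ : ℝ} (h : Lox X y M κ) : Lox X y⁻¹ M κ := by
  refine ⟨h.pos, h.nonneg, fun i k => ?_, fun k => ?_⟩
  · rw [inv_pow, inv_pow, inv_inv, gp_comm]
    exact h.gp_le k i
  · rw [inv_pow, len_inv]
    exact h.grow k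

/-- Points `g` for which `1` is a nearest point on the positive half of the axis.

Proof. Suppose that `gp g (y ^ k) > M'`, where `M' = len y + 2 M + 2 δ`. As `gp g (y ^ k) ≤ len (y ^ k)`
(`gp_le_right`), there is a least `j ≤ k` with `len (y ^ j) ≥ M'`; then `len (y ^ j) ≤ M' + len y`
(for `j = 0` one has `M' ≤ 0`, fine, otherwise `len (y ^ (j-1)) < M'`). Since
`len (y ^ k) + ... `: `gp (y ^ j) (y ^ k) = len (y ^ j) - gp (y ^ j)⁻¹ (y ^ (k - j))
≥ len (y ^ j) - M ≥ M' - M` (expand the Gromov products, `y ^ (k-j) = (y ^ j)⁻¹ * y ^ k`, note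
`len ((y^j)⁻¹⁻¹ * y ^ (k-j)) = len (y ^ k)`). By hyperbolicity
`gp g (y ^ j) ≥ min (gp g (y ^ k)) (gp (y ^ k) (y ^ j)) - δ ≥ M' - M - δ`. Hence
`len ((y ^ j)⁻¹ * g) = len g + len (y ^ j) - 2 gp g (y ^ j)
≤ len g + M' + len y - 2 M' + 2 M + 2 δ = len g`. To get a contradiction use the strict inequality
`gp g (y ^ k) > M'`: replace `M'` by `M' + 1` in the statement and the argument, then
`len ((y ^ j)⁻¹ * g) ≤ len g - 1 < len g`. -/
theorem gp_le_of_nearest {X : Set G} (hX : Gen X) {δ : ℝ} (hδ : Del X δ) {y : G} {M κ : ℝ}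
    (hy : Lox X y M κ) {g : G} (hg : ∀ k : ℕ, len X g ≤ len X ((y ^ k)⁻¹ * g)) (k : ℕ) :
    gp X g (y ^ k) ≤ len X y + 2 * M + 2 * δ + 1 := by
  set M' : ℝ := len X y + 2 * M + 2 * δ + 1 with hM'
  by_contra hcon
  push Not at hcon
  have hδ0 := hδ.1
  have hM0 := hy.nonneg
  have hlen0 : (0 : ℝ) ≤ len X y := Nat.cast_nonneg _
  have hk : M' ≤ (len X (y ^ k) : ℝ) := hcon.le.trans (gp_le_right hX _ _)
  classical
  have hex : ∃ j, M' ≤ (len X (y ^ j) : ℝ) := ⟨k, hk⟩
  obtain ⟨j, hj, hmin⟩ : ∃ j, M' ≤ (len X (y ^ j) : ℝ) ∧ ∀ i < j, (len X (y ^ i) : ℝ) < M' :=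
    ⟨Nat.find hex, Nat.find_spec hex, fun i hi => lt_of_not_ge (Nat.find_min hex hi)⟩
  have hjk : j ≤ k := by
    by_contra h
    exact absurd hk (not_le.mpr (hmin k (by omega)))
  have hup : (len X (y ^ j) : ℝ) ≤ M' + len X y := by
    rcases j with _ | j
    · rw [pow_zero, len_one, Nat.cast_zero]
      linarith
    · have h1 := hmin j (Nat.lt_succ_self j)
      have h2 : (len X (y ^ (j + 1)) : ℝ) ≤ len X (y ^ j) + len X y := by
        rw [pow_succ]
        exact_mod_cast len_mul hX (y ^ j) y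
      linarith
  have h1 := hy.gp_le j (k - j)
  have h2 : (y ^ j)⁻¹ * y ^ k = y ^ (k - j) := by
    rw [inv_mul_eq_iff_eq_mul, ← pow_add, Nat.add_sub_cancel' hjk]
  have h3 : gp X (y ^ j)⁻¹ (y ^ (k - j)) =
      ((len X (y ^ j) : ℝ) + len X (y ^ (k - j)) - len X (y ^ k)) / 2 := by
    unfold gp
    rw [len_inv, inv_inv, ← pow_add, Nat.add_sub_cancel' hjk]
  have h4 : gp X (y ^ k) (y ^ j) =
      ((len X (y ^ j) : ℝ) + len X (y ^ k) - len X (y ^ (k - j))) / 2 := by
    rw [gp_comm]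
    unfold gp
    rw [h2]
  have h5 := hδ.2 g (y ^ k) (y ^ j)
  have h6 : M' - M ≤ gp X (y ^ k) (y ^ j) := by
    rw [h4]
    rw [h3] at h1
    linarith
  have h7 : M' - M ≤ min (gp X g (y ^ k)) (gp X (y ^ k) (y ^ j)) := le_min (by linarith) h6
  have h8 : (len X ((y ^ j)⁻¹ * g) : ℝ) = len X g + len X (y ^ j) - 2 * gp X g (y ^ j) := by
    rw [gp_comm]
    unfold gp
    ring
  have h9 : (len X g : ℝ) ≤ len X ((y ^ j)⁻¹ * g) := by exact_mod_cast hg j
  linarith

/-- The main estimate. Let `1` be a nearest point of the axis of `y` for `g`, and let `x y ^ i g` be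
elliptic for all integers `i`. Then `g` is short.

Proof. Write `|h| = len X h`, `T = |g|`, `M' = |y| + 2 M + 2 δ + 1`. By `gp_le_of_nearest` for `y` and
for `y⁻¹` (`Lox.inv`), `gp g (y ^ i) ≤ M'` for all integers `i`. For an integer `i` let `z = x y ^ i g`.
By `Ell.sq`, `gp z z⁻¹ = |z| - |z * z| / 2 ≥ (|z| - 3 δ) / 2`. Next
`|y ^ i g| = |(y ^ (-i))⁻¹ * g| = |y ^ i| + T - 2 gp (y ^ (-i)) g ≥ |y ^ i| + T - 2 M'`, so
`|z| ≥ |y ^ i| + T - 2 M' - |x|`. Then (with `|x y ^ i| ≥ |y ^ i| - |x|`)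
`gp (x y ^ i) z = (|x y ^ i| + |z| - |g|) / 2 ≥ |y ^ i| - M' - |x|`, and
`gp z⁻¹ g⁻¹ = (|z| + T - |x y ^ i|) / 2 ≥ T - M' - |x|`, and
`gp z z⁻¹ ≥ (|y ^ i| + T) / 2 - M' - |x| - 3 δ / 2`. By hyperbolicity twice
`gp (x y ^ i) g⁻¹ ≥ min |y ^ i| T - M' - |x| - 3 δ / 2 - 2 δ`. Choose `i = n ≥ 0` with `κ n ≥ T`, so that
`|y ^ n| = |y ^ (-n)| ≥ T`; the last inequality for `i = n` and for `i = -n` and hyperbolicity give
`gp (x y ^ n) (x y ^ (-n)) ≥ T - M' - |x| - 3 δ / 2 - 3 δ`. But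
`gp (x y ^ n) (x y ^ (-n)) ≤ (|x| + |y ^ n| + |x| + |y ^ n| - |y ^ (-2 n)|) / 2 = |x| +
gp (y ^ n) (y ^ (-n)) ≤ |x| + M`. So `T ≤ 2 |x| + M + M' + 5 δ`. -/
theorem len_le_of_elliptic {X : Set G} (hX : Gen X) {δ : ℝ} (hδ : Del X δ) {y : G} {M κ : ℝ}
    (hy : Lox X y M κ) {g x : G} (hg : ∀ k : ℤ, len X g ≤ len X (y ^ k * g))
    (hx : ∀ k : ℤ, Ell X (x * (y ^ k * g))) :
    (len X g : ℝ) ≤ 2 * len X x + len X y + 3 * M + 7 * δ + 1 := by
  have hδ0 := hδ.1
  have hκ := hy.pos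
  -- the Gromov products of `g` with the powers of `y`
  have hgp : ∀ i : ℤ, gp X g (y ^ i) ≤ len X y + 2 * M + 2 * δ + 1 := by
    intro i
    obtain ⟨n, rfl | rfl⟩ := i.eq_nat_or_neg
    · rw [zpow_natCast]
      refine gp_le_of_nearest hX hδ hy (fun k => ?_) n
      have h := hg (-(k : ℤ))
      rwa [zpow_neg, zpow_natCast] at h
    · rw [zpow_neg, zpow_natCast, ← inv_pow, ← len_inv X y]
      refine gp_le_of_nearest hX hδ hy.inv (fun k => ?_) n
      have h := hg (k : ℤ)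
      rw [zpow_natCast] at h
      rwa [inv_pow, inv_inv]
  -- the main inequality
  have main : ∀ i : ℤ, (len X g : ℝ) ≤ len X (y ^ i) →
      (len X g : ℝ) - (len X y + 2 * M + 2 * δ + 1) - len X x - 7 * δ / 2 ≤
        gp X (x * y ^ i) g⁻¹ := by
    intro i hi
    have hz : x * (y ^ i * g) = x * y ^ i * g := (mul_assoc _ _ _).symm
    have h1 := hgp (-i)
    have e1 : gp X g (y ^ (-i)) =
        ((len X (y ^ i) : ℝ) + len X g - len X (y ^ i * g)) / 2 := by
      rw [gp_comm, gp, zpow_neg, inv_inv, len_inv]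
    rw [e1] at h1
    have h2 : (len X (y ^ i * g) : ℝ) ≤ len X x + len X (x * (y ^ i * g)) := by
      have h := len_mul hX x⁻¹ (x * (y ^ i * g))
      rw [inv_mul_cancel_left, len_inv] at h
      exact_mod_cast h
    have h3 : (len X (y ^ i) : ℝ) ≤ len X x + len X (x * y ^ i) := by
      have h := len_mul hX x⁻¹ (x * y ^ i)
      rw [inv_mul_cancel_left, len_inv] at h
      exact_mod_cast h
    have h4 : (len X (x * y ^ i) : ℝ) ≤ len X x + len X (y ^ i) := by
      exact_mod_cast len_mul hX x (y ^ i)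
    have e2 : gp X (x * y ^ i) (x * (y ^ i * g)) =
        ((len X (x * y ^ i) : ℝ) + len X (x * (y ^ i * g)) - len X g) / 2 := by
      rw [gp]
      congr 4
      group
    have e3 : gp X (x * (y ^ i * g))⁻¹ g⁻¹ =
        ((len X (x * (y ^ i * g)) : ℝ) + len X g - len X (x * y ^ i)) / 2 := by
      have e : (x * (y ^ i * g))⁻¹⁻¹ * g⁻¹ = x * y ^ i := by group
      rw [gp, e, len_inv, len_inv]
    have e4 : gp X (x * (y ^ i * g)) (x * (y ^ i * g))⁻¹ =
        (len X (x * (y ^ i * g)) : ℝ) - len X ((x * (y ^ i * g)) * (x * (y ^ i * g))) / 2 := by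
      have e : (x * (y ^ i * g))⁻¹ * (x * (y ^ i * g))⁻¹ =
          ((x * (y ^ i * g)) * (x * (y ^ i * g)))⁻¹ := (mul_inv_rev _ _).symm
      rw [gp, e, len_inv, len_inv]
      ring
    have h5 := (hx i).sq hX hδ
    have h6 := hδ.2 (x * (y ^ i * g)) (x * (y ^ i * g))⁻¹ g⁻¹
    have h7 := hδ.2 (x * y ^ i) (x * (y ^ i * g)) g⁻¹
    rw [e3, e4] at h6
    rw [e2] at h7
    rcases min_le_iff.1 h6 with h8 | h8 <;> rcases min_le_iff.1 h7 with h9 | h9 <;> linarith
  obtain ⟨n, hn⟩ : ∃ n : ℕ, (len X g : ℝ) / κ ≤ n := exists_nat_ge _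
  have hn' : (len X g : ℝ) ≤ len X (y ^ n) := by
    rw [div_le_iff₀ hκ] at hn
    have := hy.grow n
    linarith
  have m1 := main (n : ℤ) (by rwa [zpow_natCast])
  have m2 := main (-(n : ℤ)) (by rwa [zpow_neg, len_inv, zpow_natCast])
  rw [gp_comm] at m2
  have h1 := hδ.2 (x * y ^ (n : ℤ)) g⁻¹ (x * y ^ (-(n : ℤ)))
  have h2 := hy.gp_le n n
  have e1 : gp X (y ^ n)⁻¹ (y ^ n) =
      ((len X (y ^ n) : ℝ) + len X (y ^ n) - len X (y ^ n * y ^ n)) / 2 := by
    rw [gp, inv_inv, len_inv]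
  have e2 : gp X (x * y ^ (n : ℤ)) (x * y ^ (-(n : ℤ))) =
      ((len X (x * y ^ n) : ℝ) + len X (x * (y ^ n)⁻¹) - len X (y ^ n * y ^ n)) / 2 := by
    have e : (x * y ^ n)⁻¹ * (x * (y ^ n)⁻¹) = (y ^ n * y ^ n)⁻¹ := by group
    rw [gp, zpow_neg, zpow_natCast, e, len_inv]
  have h3 : (len X (x * y ^ n) : ℝ) ≤ len X x + len X (y ^ n) := by
    exact_mod_cast len_mul hX x (y ^ n)
  have h4 : (len X (x * (y ^ n)⁻¹) : ℝ) ≤ len X x + len X (y ^ n) := by
    have h := len_mul hX x (y ^ n)⁻¹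
    rw [len_inv] at h
    exact_mod_cast h
  rw [e1] at h2
  rw [e2] at h1
  rcases min_le_iff.1 h1 with h5 | h5 <;> linarith

/-- The group is within bounded distance from the powers of `y`.

Proof. Let `g ∈ K`. Among the integers `k` choose one for which `len (y ^ k * g)` is minimal (the values
are natural numbers), and apply `len_le_of_elliptic` to `g' = y ^ k * g`, which lies in `K`; all
`x * (y ^ l * g')` are elliptic by hypothesis. So `len (y ^ k * g) ≤ T` with a constant `T`. For general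
`g ∈ G` write `g = h * r` with `h ∈ K` and `r` from a finite set of representatives of the right cosets
of `K` (finite index), then `len (y ^ k * g) ≤ T + len r`. -/
theorem near_axis {X : Set G} (hX : Gen X) {δ : ℝ} (hδ : Del X δ) {y : G} {M κ : ℝ}
    (hy : Lox X y M κ) (K : Subgroup G) [K.Normal] [K.FiniteIndex] (hK : y ∈ K) (x : G)
    (hx : ∀ h ∈ K, Ell X (x * h)) : ∃ T : ℝ, ∀ g, ∃ k : ℤ, (len X (y ^ k * g) : ℝ) ≤ T := by
  have key : ∀ g ∈ K, ∃ k : ℤ, (len X (y ^ k * g) : ℝ) ≤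
      2 * len X x + len X y + 3 * M + 7 * δ + 1 := by
    intro g hg
    obtain ⟨k, hk⟩ : ∃ k : ℤ, ∀ l : ℤ, len X (y ^ k * g) ≤ len X (y ^ l * g) := by
      have hne : (Set.range fun k : ℤ => len X (y ^ k * g)).Nonempty := ⟨_, 0, rfl⟩
      obtain ⟨k, hk⟩ := Nat.sInf_mem hne
      refine ⟨k, fun l => ?_⟩
      have : len X (y ^ k * g) = sInf (Set.range fun k : ℤ => len X (y ^ k * g)) := hk
      rw [this]
      exact Nat.sInf_le ⟨l, rfl⟩
    refine ⟨k, len_le_of_elliptic hX hδ hy (g := y ^ k * g) (x := x) ?_ ?_⟩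
    · intro l
      rw [← mul_assoc, ← zpow_add]
      exact hk _
    · intro l
      exact hx _ (K.mul_mem (K.zpow_mem hK l) (K.mul_mem (K.zpow_mem hK k) hg))
  obtain ⟨B, hB⟩ : ∃ B : ℕ, ∀ q : G ⧸ K, len X q.out ≤ B := by
    obtain ⟨B, hB⟩ := (Set.finite_range fun q : G ⧸ K => len X q.out).bddAbove
    exact ⟨B, fun q => hB ⟨q, rfl⟩⟩
  refine ⟨2 * len X x + len X y + 3 * M + 7 * δ + 1 + B, fun g => ?_⟩
  set r : G := (QuotientGroup.mk g : G ⧸ K).out with hr
  have h1 : r⁻¹ * g ∈ K := by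
    rw [← QuotientGroup.eq, hr, QuotientGroup.out_eq']
  have h2 : g * r⁻¹ ∈ K := (inferInstance : K.Normal).mem_comm h1
  obtain ⟨k, hk⟩ := key _ h2
  refine ⟨k, ?_⟩
  have h3 : y ^ k * g = y ^ k * (g * r⁻¹) * r := by group
  have h4 := len_mul hX (y ^ k * (g * r⁻¹)) r
  rw [← h3] at h4
  have h5 : (len X (y ^ k * g) : ℝ) ≤ len X (y ^ k * (g * r⁻¹)) + len X r := by exact_mod_cast h4
  have h6 : (len X r : ℝ) ≤ B := by exact_mod_cast hB _
  linarith

/-- A group within bounded distance from the powers of a loxodromic element is quasi-isometric to the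
real line.

Proof. Choose for each `g` an integer `k g` with `len (y ^ (k g) * g) ≤ T` and let `φ g = - k g`. So
`wd (y ^ (- k g)) g ≤ T` (as `(y ^ (- k g))⁻¹ * g = y ^ (k g) * g`). By the triangle inequality,
`wd g h` differs from `wd (y ^ (-k g)) (y ^ (-k h)) = len (y ^ (k g - k h))` by at most `2 T`, and
`κ |l| ≤ len (y ^ l) ≤ len y * |l|` for all integers `l`. For the last condition of `Lineal`: given `t`,
let `l` be the integer part of `t` and `x = y ^ l`, then `len (y ^ (k x) * y ^ l) ≤ T` gives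
`κ |k x + l| ≤ T`, so that `φ x = - k x` is within `T / κ` from `l`. Take `A` large. -/
theorem lineal_of_near {X : Set G} (hX : Gen X) {y : G} {M κ : ℝ} (hy : Lox X y M κ) {T : ℝ}
    (hT : ∀ g, ∃ k : ℤ, (len X (y ^ k * g) : ℝ) ≤ T) : Lineal X := by
  choose k hk using hT
  have hT0 : 0 ≤ T := (Nat.cast_nonneg _).trans (hk 1)
  have hκ := hy.pos
  -- lower and upper bounds for the powers of `y`
  have low : ∀ l : ℤ, κ * |(l : ℝ)| ≤ len X (y ^ l) := by
    intro l
    obtain ⟨n, rfl | rfl⟩ := l.eq_nat_or_neg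
    · simpa using hy.grow n
    · rw [zpow_neg, len_inv]
      simpa using hy.grow n
  have upn : ∀ n : ℕ, (len X (y ^ n) : ℝ) ≤ len X y * n := by
    intro n
    induction n with
    | zero => simp [len_one]
    | succ n ih =>
      have h := len_mul hX (y ^ n) y
      rw [← pow_succ] at h
      have h' : (len X (y ^ (n + 1)) : ℝ) ≤ len X (y ^ n) + len X y := by exact_mod_cast h
      push_cast
      nlinarith
  have up : ∀ l : ℤ, (len X (y ^ l) : ℝ) ≤ len X y * |(l : ℝ)| := by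
    intro l
    obtain ⟨n, rfl | rfl⟩ := l.eq_nat_or_neg
    · simpa using upn n
    · rw [zpow_neg, len_inv]
      simpa using upn n
  -- comparison of distances
  have c1 : ∀ g h, wd X g h ≤ 2 * T + len X (y ^ (k g - k h)) := by
    intro g h
    have e : g⁻¹ * h = (y ^ k g * g)⁻¹ * (y ^ (k g - k h) * (y ^ k h * h)) := by
      rw [← mul_assoc (y ^ (k g - k h)), ← zpow_add, sub_add_cancel]
      group
    have h1 := len_mul hX (y ^ k g * g)⁻¹ (y ^ (k g - k h) * (y ^ k h * h))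
    have h2 := len_mul hX (y ^ (k g - k h)) (y ^ k h * h)
    rw [← e, len_inv] at h1
    have h3 : (len X (g⁻¹ * h) : ℝ) ≤ len X (y ^ k g * g) +
        (len X (y ^ (k g - k h)) + len X (y ^ k h * h)) := by
      exact_mod_cast h1.trans (Nat.add_le_add_left h2 _)
    have := hk g
    have := hk h
    unfold wd
    linarith
  have c2 : ∀ g h, (len X (y ^ (k g - k h)) : ℝ) ≤ 2 * T + wd X g h := by
    intro g h
    have e : y ^ (k g - k h) = (y ^ k g * g) * ((g⁻¹ * h) * (y ^ k h * h)⁻¹) := by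
      rw [zpow_sub]
      group
    have h1 := len_mul hX (y ^ k g * g) ((g⁻¹ * h) * (y ^ k h * h)⁻¹)
    have h2 := len_mul hX (g⁻¹ * h) (y ^ k h * h)⁻¹
    rw [← e] at h1
    rw [len_inv] at h2
    have h3 : (len X (y ^ (k g - k h)) : ℝ) ≤ len X (y ^ k g * g) +
        (len X (g⁻¹ * h) + len X (y ^ k h * h)) := by
      exact_mod_cast h1.trans (Nat.add_le_add_left h2 _)
    have := hk g
    have := hk h
    unfold wd
    linarith
  have hL0 : (0 : ℝ) ≤ len X y := Nat.cast_nonneg _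
  have hi : 0 < 1 / κ := by positivity
  have hTi : 0 ≤ T * (1 / κ) := by positivity
  have hφ : ∀ g h, |(-(k g : ℝ)) - (-(k h : ℝ))| = |((k g - k h : ℤ) : ℝ)| := by
    intro g h
    rw [← abs_neg]
    congr 1
    push_cast
    ring
  refine ⟨fun g => -(k g : ℝ), 1 / κ + 2 * (T * (1 / κ)) + 2 * T + len X y + 1, by positivity,
    fun g h => ?_, fun t => ?_⟩
  · have hw : 0 ≤ wd X g h := by unfold wd; positivity
    show |(-(k g : ℝ)) - (-(k h : ℝ))| ≤ _ ∧ _ ≤ _ * |(-(k g : ℝ)) - (-(k h : ℝ))| + _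
    rw [hφ]
    have ha : 0 ≤ |((k g - k h : ℤ) : ℝ)| := abs_nonneg _
    constructor
    · have h1 := (low (k g - k h)).trans (c2 g h)
      have h2 : |((k g - k h : ℤ) : ℝ)| ≤ (2 * T + wd X g h) * (1 / κ) := by
        rw [mul_one_div, le_div_iff₀ hκ]
        linarith
      nlinarith [mul_nonneg hw hTi, mul_nonneg hw hT0, mul_nonneg hw hL0]
    · have h1 := c1 g h
      have h2 := up (k g - k h)
      nlinarith [mul_nonneg ha hTi, mul_nonneg ha hT0, mul_nonneg ha hi.le]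
  · refine ⟨y ^ ⌊t⌋, ?_⟩
    have h1 := hk (y ^ ⌊t⌋)
    rw [← zpow_add] at h1
    have h2 := (low (k (y ^ ⌊t⌋) + ⌊t⌋)).trans h1
    have h3 : |((k (y ^ ⌊t⌋) + ⌊t⌋ : ℤ) : ℝ)| ≤ T * (1 / κ) := by
      rw [mul_one_div, le_div_iff₀ hκ]
      linarith
    have h4 := Int.floor_le t
    have h5 := Int.lt_floor_add_one t
    push_cast at h3
    have h6 := abs_le.mp h3
    show |(-(k (y ^ ⌊t⌋) : ℝ)) - t| ≤ _
    rw [abs_le]
    constructor <;> linarith [h6.1, h6.2]

/-- If all elements of a coset of a normal subgroup of finite index are elliptic, then the word metric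
is bounded or quasi-isometric to the real line. -/
theorem lineal_of_elliptic {X : Set G} (hX : Gen X) (hyp : Hyp X) (hb : ¬ Bdd X)
    (K : Subgroup G) [K.Normal] [K.FiniteIndex] (x : G) (hx : ∀ h ∈ K, Ell X (x * h)) :
    Lineal X := by
  obtain ⟨δ, hδ⟩ := exists_del hyp
  obtain ⟨y, hyK, M, κ, hy⟩ := exists_lox hX hδ hb K
  obtain ⟨T, hT⟩ := near_axis hX hδ hy K hyK x hx
  exact lineal_of_near hX hy hT

end Pool.Agent.Helper35.HS
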