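import Mathlib

/-!
# Hyperbolic structures on groups: definitions and first properties (project HS)

Word lengths with respect to arbitrary generating sets, the preorder of generating sets and the
poset of hyperbolic structures.
-/

set_option autoImplicit false

namespace Pool.Agent.Helper35.HS

variable {G : Type} [Group G]

/-- The set `X` generates the group `G`. -/
def Gen (X : Set G) : Prop := Subgroup.closure X = ⊤

/-- The list `l` is a word in the elements of `X` and their inverses with the value `g`. -/
def IsWord (X : Set G) (g : G) (l : List G) : Prop :=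
  (∀ x ∈ l, x ∈ X ∨ x⁻¹ ∈ X) ∧ l.prod = g

/-- The word length of `g` with respect to `X`. -/
noncomputable def len (X : Set G) (g : G) : ℕ :=
  sInf {n | ∃ l : List G, IsWord X g l ∧ l.length = n}

/-- The word metric of `X`, that is the metric of the Cayley graph on its set of vertices. -/
noncomputable def wd (X : Set G) (x y : G) : ℝ := (len X (x⁻¹ * y) : ℝ)

/-- The Cayley graph of `X` is hyperbolic: the four point condition of Gromov. -/
def Hyp (X : Set G) : Prop :=
  ∃ δ : ℝ, ∀ x y z w : G,
    wd X x y + wd X z w ≤ max (wd X x z + wd X y w) (wd X x w + wd X y z) + δ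

/-- `X ⪯ Y`: the word length with respect to `X` is bounded on `Y`. -/
def Dom (X Y : Set G) : Prop := ∃ C : ℕ, ∀ y ∈ Y, len X y ≤ C

/-! ### Word length -/

theorem len_le {X : Set G} {g : G} {l : List G} (h : IsWord X g l) : len X g ≤ l.length :=
  Nat.sInf_le ⟨l, h, rfl⟩

theorem exists_word {X : Set G} (hX : Gen X) (g : G) :
    ∃ l : List G, IsWord X g l ∧ l.length = len X g := by
  have hne : {n | ∃ l : List G, IsWord X g l ∧ l.length = n}.Nonempty := by
    have hg : g ∈ (Subgroup.closure X).toSubmonoid := by rw [hX]; trivial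
    rw [Subgroup.closure_toSubmonoid] at hg
    obtain ⟨l, hl, hp⟩ := Submonoid.exists_list_of_mem_closure hg
    exact ⟨_, l, ⟨fun x hx => by simpa using hl x hx, hp⟩, rfl⟩
  exact Nat.sInf_mem hne

theorem len_one (X : Set G) : len X 1 = 0 :=
  Nat.le_zero.mp (len_le (l := []) ⟨by simp, rfl⟩)

theorem len_inv (X : Set G) (g : G) : len X g⁻¹ = len X g := by
  have key : ∀ h : G, ∀ n, (∃ l : List G, IsWord X h l ∧ l.length = n) →
      ∃ l : List G, IsWord X h⁻¹ l ∧ l.length = n := by
    rintro h n ⟨l, ⟨hl, hp⟩, rfl⟩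
    refine ⟨(l.map (·⁻¹)).reverse, ⟨?_, ?_⟩, by simp⟩
    · intro x hx
      simp only [List.mem_reverse, List.mem_map] at hx
      obtain ⟨y, hy, rfl⟩ := hx
      rcases hl y hy with h | h
      · right; simpa using h
      · left; exact h
    · rw [← List.prod_inv_reverse, hp]
  unfold len
  congr 1
  ext n
  constructor
  · intro h
    simpa using key g⁻¹ n h
  · exact key g n

theorem len_mul {X : Set G} (hX : Gen X) (g h : G) : len X (g * h) ≤ len X g + len X h := by
  obtain ⟨l, hl, hl'⟩ := exists_word hX g
  obtain ⟨k, hk, hk'⟩ := exists_word hX h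
  rw [← hl', ← hk', ← List.length_append]
  refine len_le ⟨?_, by rw [List.prod_append, hl.2, hk.2]⟩
  intro x hx
  rcases List.mem_append.mp hx with hx | hx
  · exact hl.1 x hx
  · exact hk.1 x hx

theorem len_mem {X : Set G} {x : G} (hx : x ∈ X) : len X x ≤ 1 :=
  len_le (l := [x]) ⟨by simpa using Or.inl hx, by simp⟩

/-- Geodesics: an element of length `n` is the product of elements of the lengths `k` and `n - k`. -/
theorem len_split {X : Set G} (hX : Gen X) {g : G} {k : ℕ} (hk : k ≤ len X g) :
    ∃ u v : G, u * v = g ∧ len X u = k ∧ len X v = len X g - k := by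
  obtain ⟨l, hl, hl'⟩ := exists_word hX g
  refine ⟨(l.take k).prod, (l.drop k).prod, ?_, ?_⟩
  · rw [← List.prod_append, List.take_append_drop, hl.2]
  have h1 : len X (l.take k).prod ≤ k := by
    refine (len_le (l := l.take k) ⟨fun x hx => hl.1 x (List.mem_of_mem_take hx), rfl⟩).trans ?_
    simp
  have h2 : len X (l.drop k).prod ≤ len X g - k := by
    refine (len_le (l := l.drop k) ⟨fun x hx => hl.1 x (List.mem_of_mem_drop hx), rfl⟩).trans ?_
    simp [hl']
  have h3 : len X g ≤ len X (l.take k).prod + len X (l.drop k).prod := by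
    have := len_mul hX (l.take k).prod (l.drop k).prod
    rwa [← List.prod_append, List.take_append_drop, hl.2] at this
  omega

/-! ### The preorder -/

theorem Dom.linear {X Y : Set G} (hX : Gen X) (hY : Gen Y) (h : Dom X Y) :
    ∃ C : ℕ, ∀ g, len X g ≤ C * len Y g := by
  obtain ⟨C, hC⟩ := h
  refine ⟨C, fun g => ?_⟩
  obtain ⟨l, hl, hl'⟩ := exists_word hY g
  rw [← hl']
  have key : ∀ l : List G, (∀ x ∈ l, x ∈ Y ∨ x⁻¹ ∈ Y) → len X l.prod ≤ C * l.length := by
    intro l
    induction l with
    | nil => intro _; simp [len_one]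
    | cons a l ih =>
      intro h
      have ha : len X a ≤ C := by
        rcases h a (by simp) with h' | h'
        · exact hC a h'
        · rw [← len_inv]; exact hC _ h'
      have := len_mul hX a l.prod
      have h2 := ih (fun x hx => h x (by simp [hx]))
      simp only [List.prod_cons, List.length_cons]
      nlinarith
  have := key l hl.1
  rwa [hl.2] at this

theorem dom_of_linear {X Y : Set G} {C : ℕ} (h : ∀ g, len X g ≤ C * len Y g) : Dom X Y :=
  ⟨C, fun y hy => (h y).trans (by nlinarith [len_mem hy])⟩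

theorem dom_refl (X : Set G) : Dom X X := ⟨1, fun _ hx => len_mem hx⟩

theorem dom_trans {X Y Z : Set G} (hX : Gen X) (hY : Gen Y) (h : Dom X Y) (h' : Dom Y Z) :
    Dom X Z := by
  obtain ⟨C, hC⟩ := h.linear hX hY
  obtain ⟨C', hC'⟩ := h'
  exact ⟨C * C', fun z hz => (hC z).trans (Nat.mul_le_mul_left C (hC' z hz))⟩

/-- The generating sets of `G` with hyperbolic Cayley graph. -/
def HSet (G : Type) [Group G] : Type := {X : Set G // Gen X ∧ Hyp X}

instance : Preorder (HSet G) where
  le X Y := Dom X.1 Y.1
  le_refl X := dom_refl X.1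
  le_trans X Y _ h h' := dom_trans X.2.1 Y.2.1 h h'

theorem le_iff {X Y : HSet G} : X ≤ Y ↔ Dom X.1 Y.1 := Iff.rfl

/-- The poset of hyperbolic structures. -/
def H (G : Type) [Group G] : Type := Antisymmetrization (HSet G) (· ≤ ·)

instance : PartialOrder (H G) := inferInstanceAs (PartialOrder (Antisymmetrization (HSet G) (· ≤ ·)))

/-- The class of a generating set with hyperbolic Cayley graph. -/
def cls (X : HSet G) : H G := toAntisymmetrization (· ≤ ·) X

theorem cls_le {X Y : HSet G} : cls X ≤ cls Y ↔ Dom X.1 Y.1 :=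
  toAntisymmetrization_le_toAntisymmetrization_iff

theorem exists_cls (s : H G) : ∃ X : HSet G, cls X = s :=
  ⟨ofAntisymmetrization _ s, toAntisymmetrization_ofAntisymmetrization _ s⟩

/-! ### Lineal structures -/

/-- The Cayley graph of `X` is quasi-isometric to the real line. -/
def Lineal (X : Set G) : Prop :=
  ∃ (φ : G → ℝ) (A : ℝ), 0 < A ∧
    (∀ x y, |φ x - φ y| ≤ A * wd X x y + A ∧ wd X x y ≤ A * |φ x - φ y| + A) ∧
    ∀ t : ℝ, ∃ x, |φ x - t| ≤ A

/-- A lineal hyperbolic structure. -/
def IsLineal (s : H G) : Prop := ∃ X : HSet G, cls X = s ∧ Lineal X.1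

/-- The character of a lineal structure: `ε g = 1` if and only if `g` has bounded displacement on the
Cayley graph. -/
def HasChar (ε : G →* ℤˣ) (s : H G) : Prop :=
  ∃ X : HSet G, cls X = s ∧ ∀ g, ε g = 1 ↔ ∃ C, ∀ x, len X.1 (x⁻¹ * g * x) ≤ C

/-- The free group of rank `n`. -/
abbrev F (n : ℕ) : Type := FreeGroup (Fin n)

end Pool.Agent.Helper35.HS
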