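import Pool.Agent.Helper35.HS.Gro

/-!
# Factor closed generating sets of free groups (project HS)

The word metric of a set of reduced words which is closed under factors and inverses and contains the
letters is hyperbolic. In particular there is a hyperbolic structure for every set of elements.
-/

set_option autoImplicit false

namespace Pool.Agent.Helper35.HS

variable {n : ℕ}

/-- A set of elements of the free group which contains the letters and is closed under inverses and
factors of reduced words. -/
structure Fac (W : Set (F n)) : Prop where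
  letter : ∀ g : F n, g.toWord.length ≤ 1 → g ∈ W
  inv : ∀ g ∈ W, g⁻¹ ∈ W
  factor : ∀ g ∈ W, ∀ h : F n, h.toWord <:+: g.toWord → h ∈ W

/-- A contiguous piece of a reduced word is reduced. -/
private theorem isReduced_of_seg {l u : List (Fin n × Bool)} (h : FreeGroup.IsReduced l)
    (hu : u <:+: l) : FreeGroup.IsReduced u := by
  obtain ⟨s, t, rfl⟩ := hu
  exact (List.IsChain.left_of_append h).right_of_append

/-- The smallest such set which contains `U`. -/
def fac (U : Set (F n)) : Set (F n) :=
  {g | g.toWord.length ≤ 1 ∨ ∃ u ∈ U, g.toWord <:+: u.toWord ∨ g⁻¹.toWord <:+: u.toWord}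

theorem subset_fac (U : Set (F n)) : U ⊆ fac U :=
  fun u hu => Or.inr ⟨u, hu, Or.inl (List.infix_refl _)⟩

private theorem invRev_infix {v w : List (Fin n × Bool)} (h : v <:+: w) :
    FreeGroup.invRev v <:+: FreeGroup.invRev w := by
  obtain ⟨s, t, rfl⟩ := h
  refine ⟨FreeGroup.invRev t, FreeGroup.invRev s, ?_⟩
  rw [FreeGroup.invRev_append, FreeGroup.invRev_append, List.append_assoc]

/-- Use `FreeGroup.toWord_inv` and that reversal and `invRev` respect infixes. -/
theorem fac_fac (U : Set (F n)) : Fac (fac U) := by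
  refine ⟨fun g hg => Or.inl hg, ?_, ?_⟩
  · rintro g (hg | ⟨u, hu, hg⟩)
    · left
      rw [FreeGroup.toWord_inv, FreeGroup.invRev_length]
      exact hg
    · refine Or.inr ⟨u, hu, ?_⟩
      rw [inv_inv]
      exact hg.symm
  · rintro g (hg | ⟨u, hu, hg⟩) h hh
    · exact Or.inl (hh.length_le.trans hg)
    · refine Or.inr ⟨u, hu, ?_⟩
      rcases hg with hg | hg
      · exact Or.inl (hh.trans hg)
      · right
        refine List.IsInfix.trans ?_ hg
        rw [FreeGroup.toWord_inv, FreeGroup.toWord_inv]
        exact invRev_infix hh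

/-- Letters generate. -/
theorem Fac.gen {W : Set (F n)} (hW : Fac W) : Gen W := by
  unfold Gen
  rw [eq_top_iff, ← FreeGroup.closure_range_of (Fin n)]
  refine Subgroup.closure_mono ?_
  rintro _ ⟨a, rfl⟩
  exact hW.letter _ (by rw [FreeGroup.toWord_of]; simp)

/-- The list `w` is a concatenation of at most `k` lists which represent elements of `W`. -/
def Cut (W : Set (F n)) (k : ℕ) (w : List (Fin n × Bool)) : Prop :=
  ∃ ws : List (List (Fin n × Bool)), ws.length ≤ k ∧ ws.flatten = w ∧
    ∀ v ∈ ws, FreeGroup.mk v ∈ W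

private theorem reduce_infix {v w : List (Fin n × Bool)} (hw : FreeGroup.reduce w = w)
    (h : v <:+: w) : FreeGroup.reduce v = v := by
  obtain ⟨s, t, rfl⟩ := h
  have h1 : FreeGroup.IsReduced (s ++ v ++ t) := FreeGroup.isReduced_iff_reduce_eq.2 hw
  have h2 : FreeGroup.IsReduced v := (List.IsChain.left_of_append h1).right_of_append
  exact FreeGroup.isReduced_iff_reduce_eq.1 h2

private theorem mk_factor {W : Set (F n)} (hW : Fac W) {v w : List (Fin n × Bool)}
    (hw : FreeGroup.reduce w = w) (h : v <:+: w) (hm : FreeGroup.mk w ∈ W) :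
    FreeGroup.mk v ∈ W := by
  refine hW.factor _ hm _ ?_
  rw [FreeGroup.toWord_mk, FreeGroup.toWord_mk, hw, reduce_infix hw h]
  exact h

private theorem cut_prefix {W : Set (F n)} (hW : Fac W) (ws : List (List (Fin n × Bool))) :
    ∀ v : List (Fin n × Bool), FreeGroup.reduce ws.flatten = ws.flatten →
      (∀ u ∈ ws, FreeGroup.mk u ∈ W) → v <+: ws.flatten →
      ∃ vs : List (List (Fin n × Bool)), vs.length ≤ ws.length ∧ vs.flatten = v ∧
        ∀ u ∈ vs, FreeGroup.mk u ∈ W := by
  induction ws with
  | nil =>
    intro v _ _ hv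
    rw [List.flatten_nil, List.prefix_nil] at hv
    exact ⟨[], le_rfl, hv.symm, by simp⟩
  | cons p ws ih =>
    intro v hr hm hv
    rw [List.flatten_cons] at hr hv
    have hp : FreeGroup.reduce p = p := reduce_infix hr (List.prefix_append p _).isInfix
    have hpm : FreeGroup.mk p ∈ W := hm p List.mem_cons_self
    rcases le_total v.length p.length with hl | hl
    · have h1 : v <+: p := List.prefix_of_prefix_length_le hv (List.prefix_append p _) hl
      exact ⟨[v], by simp, by simp, by simpa using mk_factor hW hp h1.isInfix hpm⟩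
    · have h1 : p <+: v := List.prefix_of_prefix_length_le (List.prefix_append p _) hv hl
      obtain ⟨t, rfl⟩ := h1
      rw [List.prefix_append_right_inj] at hv
      obtain ⟨vs, h2, h3, h4⟩ := ih t (reduce_infix hr (List.suffix_append p _).isInfix)
        (fun u hu => hm u (List.mem_cons_of_mem _ hu)) hv
      refine ⟨p :: vs, by simpa using h2, by rw [List.flatten_cons, h3], ?_⟩
      intro u hu
      rcases List.mem_cons.1 hu with rfl | hu
      · exact hpm
      · exact h4 u hu

private theorem cut_suffix {W : Set (F n)} (hW : Fac W) (ws : List (List (Fin n × Bool))) :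
    ∀ v : List (Fin n × Bool), FreeGroup.reduce ws.flatten = ws.flatten →
      (∀ u ∈ ws, FreeGroup.mk u ∈ W) → v <:+ ws.flatten →
      ∃ vs : List (List (Fin n × Bool)), vs.length ≤ ws.length ∧ vs.flatten = v ∧
        ∀ u ∈ vs, FreeGroup.mk u ∈ W := by
  induction ws with
  | nil =>
    intro v _ _ hv
    rw [List.flatten_nil, List.suffix_nil] at hv
    exact ⟨[], le_rfl, hv.symm, by simp⟩
  | cons p ws ih =>
    intro v hr hm hv
    rw [List.flatten_cons] at hr hv
    have hp : FreeGroup.reduce p = p := reduce_infix hr (List.prefix_append p _).isInfix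
    have hpm : FreeGroup.mk p ∈ W := hm p List.mem_cons_self
    rcases le_total v.length ws.flatten.length with hl | hl
    · have h1 : v <:+ ws.flatten :=
        List.suffix_of_suffix_length_le hv (List.suffix_append p _) hl
      obtain ⟨vs, h2, h3, h4⟩ := ih v (reduce_infix hr (List.suffix_append p _).isInfix)
        (fun u hu => hm u (List.mem_cons_of_mem _ hu)) h1
      exact ⟨vs, h2.trans (by simp), h3, h4⟩
    · have h1 : ws.flatten <:+ v :=
        List.suffix_of_suffix_length_le (List.suffix_append p _) hv hl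
      obtain ⟨t, rfl⟩ := h1
      have h2 : t <:+ p := by
        obtain ⟨r, hr2⟩ := hv
        rw [← List.append_assoc] at hr2
        exact ⟨r, List.append_cancel_right hr2⟩
      refine ⟨t :: ws, by simp, by rw [List.flatten_cons], ?_⟩
      intro u hu
      rcases List.mem_cons.1 hu with rfl | hu
      · exact mk_factor hW hp h2.isInfix hpm
      · exact hm u (List.mem_cons_of_mem _ hu)

/-- Factors of words with `Cut`. The word `w` is reduced, so all factors and all parts are reduced and
`(FreeGroup.mk v).toWord = v` for them. (An infix of `ws.flatten` is a suffix of one part, followed by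
full parts, followed by a prefix of one part, or a factor of one part.) -/
theorem Cut.factor {W : Set (F n)} (hW : Fac W) {k : ℕ} {w v : List (Fin n × Bool)}
    (hw : FreeGroup.reduce w = w) (h : Cut W k w) (hv : v <:+: w) : Cut W k v := by
  obtain ⟨ws, h1, rfl, h3⟩ := h
  obtain ⟨s, t, hst⟩ := hv
  have hs : v ++ t <:+ ws.flatten := ⟨s, by rw [← List.append_assoc]; exact hst⟩
  obtain ⟨vs, h4, h5, h6⟩ := cut_suffix hW ws _ hw h3 hs
  have hr : FreeGroup.reduce vs.flatten = vs.flatten := by
    rw [h5]
    exact reduce_infix hw hs.isInfix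
  obtain ⟨us, h7, h8, h9⟩ := cut_prefix hW vs v hr h6 (by rw [h5]; exact List.prefix_append v t)
  exact ⟨us, h7.trans (h4.trans h1), h8, h9⟩

/-- Cancellation in the product of two reduced lists. -/
private theorem HSF3_cancel (L₁ : List (Fin n × Bool)) : ∀ L₂ : List (Fin n × Bool),
    FreeGroup.IsReduced L₁ → FreeGroup.IsReduced L₂ → ∃ a b b' d : List (Fin n × Bool),
      L₁ = a ++ b ∧ L₂ = b' ++ d ∧ FreeGroup.reduce (L₁ ++ L₂) = a ++ d := by
  induction L₁ using List.reverseRecOn with
  | nil =>
    intro L₂ _ h2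
    exact ⟨[], [], [], L₂, rfl, rfl, h2.reduce_eq⟩
  | append_singleton L₁ x ih =>
    intro L₂ h1 h2
    cases L₂ with
    | nil =>
      refine ⟨L₁ ++ [x], [], [], [], by simp, by simp, ?_⟩
      rw [List.append_nil]
      exact h1.reduce_eq
    | cons y L₂ =>
      by_cases hxy : x.1 = y.1 → x.2 = y.2
      · refine ⟨L₁ ++ [x], [], [], y :: L₂, by simp, by simp, ?_⟩
        apply FreeGroup.IsReduced.reduce_eq
        unfold FreeGroup.IsReduced at h1 h2 ⊢
        rw [List.isChain_append]
        refine ⟨h1, h2, ?_⟩
        intro u hu v hv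
        rw [List.getLast?_append_of_ne_nil _ (List.cons_ne_nil x []), List.getLast?_singleton,
          Option.mem_some_iff] at hu
        rw [List.head?_cons, Option.mem_some_iff] at hv
        rw [← hu, ← hv]
        exact hxy
      · rw [Classical.not_imp] at hxy
        obtain ⟨hxy1, hxy2⟩ := hxy
        obtain ⟨a, b, b', d, e1, e2, e3⟩ := ih L₂ (isReduced_of_seg h1 ⟨[], [x], by simp⟩)
          (isReduced_of_seg h2 ⟨[y], [], by simp⟩)
        refine ⟨a, b ++ [x], y :: b', d, by rw [e1, List.append_assoc], by rw [e2, List.cons_append],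
          ?_⟩
        rw [← e3]
        apply FreeGroup.reduce.Step.eq
        obtain ⟨x1, x2⟩ := x
        obtain ⟨y1, y2⟩ := y
        simp only at hxy1 hxy2
        subst hxy1
        have hy : y2 = !x2 := by
          cases x2 <;> cases y2 <;> simp_all
        subst hy
        rw [List.append_assoc, List.singleton_append]
        exact FreeGroup.Red.Step.not

private theorem HSF3_mono {W : Set (F n)} {k l : ℕ} (h : k ≤ l) {w : List (Fin n × Bool)}
    (hw : Cut W k w) : Cut W l w := by
  obtain ⟨ws, h1, h2, h3⟩ := hw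
  exact ⟨ws, h1.trans h, h2, h3⟩

private theorem HSF3_append {W : Set (F n)} {k l : ℕ} {v w : List (Fin n × Bool)}
    (hv : Cut W k v) (hw : Cut W l w) : Cut W (k + l) (v ++ w) := by
  obtain ⟨vs, h1, h2, h3⟩ := hv
  obtain ⟨ws, h4, h5, h6⟩ := hw
  refine ⟨vs ++ ws, ?_, ?_, ?_⟩
  · rw [List.length_append]
    exact Nat.add_le_add h1 h4
  · rw [List.flatten_append, h2, h5]
  · intro u hu
    rcases List.mem_append.1 hu with hu | hu
    · exact h3 u hu
    · exact h6 u hu

/-- Products.

Proof. `g.toWord = a ++ b` and `h.toWord = b' ++ d` and `(g * h).toWord = a ++ d` for some lists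
(`b'` is the inverse of `b`), and `Cut.factor` for the prefix `a` and the suffix `d`. -/
theorem Cut.mul {W : Set (F n)} (hW : Fac W) {k l : ℕ} {g h : F n} (hg : Cut W k g.toWord)
    (hh : Cut W l h.toWord) : Cut W (k + l) (g * h).toWord := by
  obtain ⟨a, b, b', d, e1, e2, e3⟩ := HSF3_cancel g.toWord h.toWord FreeGroup.isReduced_toWord
    FreeGroup.isReduced_toWord
  rw [FreeGroup.toWord_mul, e3]
  exact HSF3_append
    (Cut.factor hW (FreeGroup.reduce_toWord g) hg ⟨[], b, by rw [e1]; simp⟩)
    (Cut.factor hW (FreeGroup.reduce_toWord h) hh ⟨b', [], by rw [e2]; simp⟩)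

private theorem list_lcp {α : Type} (u : List α) : ∀ v : List α, ∃ p a b : List α,
    u = p ++ a ∧ v = p ++ b ∧ (∀ q : List α, q <+: u → q <+: v → q <+: p) ∧
    ∀ s ∈ a.head?, ∀ t ∈ b.head?, s ≠ t := by
  classical
  induction u with
  | nil =>
    intro v
    exact ⟨[], [], v, rfl, rfl, fun q h _ => h, by simp⟩
  | cons x u ih =>
    intro v
    cases v with
    | nil => exact ⟨[], x :: u, [], rfl, rfl, fun q _ h => h, by simp⟩
    | cons y v =>
      by_cases hxy : x = y
      · subst hxy
        obtain ⟨p, a, b, h1, h2, h3, h4⟩ := ih v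
        refine ⟨x :: p, a, b, by rw [h1, List.cons_append], by rw [h2, List.cons_append], ?_, h4⟩
        intro q hu hv
        cases q with
        | nil => exact List.nil_prefix
        | cons z q =>
          rw [List.cons_prefix_cons] at hu hv ⊢
          exact ⟨hu.1, h3 q hu.2 hv.2⟩
      · refine ⟨[], x :: u, y :: v, rfl, rfl, ?_, ?_⟩
        · intro q hu hv
          cases q with
          | nil => exact List.nil_prefix
          | cons z q =>
            rw [List.cons_prefix_cons] at hu hv
            exact absurd (hu.1.symm.trans hv.1) hxy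
        · intro s hs t ht
          simp only [List.head?_cons, Option.mem_def, Option.some.injEq] at hs ht
          rw [← hs, ← ht]
          exact hxy

private theorem toWord_mk_of_red {w : List (Fin n × Bool)} (h : FreeGroup.IsReduced w) :
    (FreeGroup.mk w).toWord = w := by
  rw [FreeGroup.toWord_mk]
  exact h.reduce_eq

private theorem lcp_aux (x y : F n) : ∃ p a b : F n, x.toWord = p.toWord ++ a.toWord ∧
    y.toWord = p.toWord ++ b.toWord ∧ (x⁻¹ * y).toWord = a⁻¹.toWord ++ b.toWord ∧
    ∀ q : List (Fin n × Bool), q <+: x.toWord → q <+: y.toWord → q <+: p.toWord := by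
  obtain ⟨p, a, b, h1, h2, h3, h4⟩ := list_lcp x.toWord y.toWord
  have hx : FreeGroup.IsReduced (p ++ a) := h1 ▸ FreeGroup.isReduced_toWord
  have hy : FreeGroup.IsReduced (p ++ b) := h2 ▸ FreeGroup.isReduced_toWord
  have hp : FreeGroup.IsReduced p := isReduced_of_seg hx (List.prefix_append p a).isInfix
  have ha : FreeGroup.IsReduced a := isReduced_of_seg hx (List.suffix_append p a).isInfix
  have hb : FreeGroup.IsReduced b := isReduced_of_seg hy (List.suffix_append p b).isInfix
  have ep := toWord_mk_of_red hp
  have ea := toWord_mk_of_red ha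
  have eb := toWord_mk_of_red hb
  have hx' : x = FreeGroup.mk p * FreeGroup.mk a := by
    rw [FreeGroup.mul_mk, ← h1, FreeGroup.mk_toWord]
  have hy' : y = FreeGroup.mk p * FreeGroup.mk b := by
    rw [FreeGroup.mul_mk, ← h2, FreeGroup.mk_toWord]
  refine ⟨FreeGroup.mk p, FreeGroup.mk a, FreeGroup.mk b, by rw [ep, ea, h1],
    by rw [ep, eb, h2], ?_, fun q hq hq' => by rw [ep]; exact h3 q hq hq'⟩
  have hinv : (FreeGroup.mk a)⁻¹.toWord = FreeGroup.invRev a := by
    rw [FreeGroup.toWord_inv, ea]
  have hia : FreeGroup.IsReduced (FreeGroup.invRev a) := by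
    rw [← hinv]; exact FreeGroup.isReduced_toWord
  have hmul : x⁻¹ * y = FreeGroup.mk (FreeGroup.invRev a ++ b) := by
    rw [hx', hy', ← FreeGroup.mul_mk, ← FreeGroup.inv_mk]
    group
  rw [hmul, hinv, eb]
  apply toWord_mk_of_red
  unfold FreeGroup.IsReduced at hia hb ⊢
  rw [List.isChain_append]
  refine ⟨hia, hb, ?_⟩
  intro s hs t ht hst
  cases a with
  | nil => simp [FreeGroup.invRev] at hs
  | cons c a =>
    have hs' : (c.1, !c.2) = s := by
      simpa [FreeGroup.invRev] using hs
    have hct : c ≠ t := h4 c (by simp) t ht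
    rw [← hs'] at hst ⊢
    have h5 : c.2 ≠ t.2 := fun h => hct (Prod.ext hst h)
    simp only
    cases hc : c.2 <;> cases ht2 : t.2 <;> simp_all

/-- Cancellation in a product of two reduced words: common part `b`. -/
theorem exists_cancel (g h : F n) : ∃ a b d : F n, g.toWord = a.toWord ++ b.toWord ∧
    h.toWord = b⁻¹.toWord ++ d.toWord ∧ (g * h).toWord = a.toWord ++ d.toWord := by
  obtain ⟨p, a, b, h1, h2, h3, -⟩ := lcp_aux g⁻¹ h
  refine ⟨a⁻¹, p⁻¹, b, ?_, by rw [inv_inv]; exact h2, by rw [inv_inv] at h3; exact h3⟩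
  have h4 : g.toWord = FreeGroup.invRev g⁻¹.toWord := by
    rw [← FreeGroup.toWord_inv, inv_inv]
  rw [h4, h1, FreeGroup.toWord_inv, FreeGroup.toWord_inv, FreeGroup.invRev_append]

/-- The word length is the smallest number of parts.

Proof. `←`: the parts are a word in `W` with the value `g`. `→`: the empty word, and by induction on a
word in `W` and the inverses (`W` is closed under inverses), using `Cut.mul` and that elements of `W`
have `Cut W 1`. -/
theorem len_le_iff_cut {W : Set (F n)} (hW : Fac W) {k : ℕ} {g : F n} :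
    len W g ≤ k ↔ Cut W k g.toWord := by
  constructor
  · intro h
    have key : ∀ l : List (F n), (∀ x ∈ l, x ∈ W ∨ x⁻¹ ∈ W) →
        Cut W l.length l.prod.toWord := by
      intro l
      induction l with
      | nil =>
        intro _
        refine ⟨[], le_rfl, ?_, fun v hv => absurd hv List.not_mem_nil⟩
        rw [List.prod_nil, FreeGroup.toWord_one, List.flatten_nil]
      | cons x l ih =>
        intro hl
        have hx : x ∈ W := by
          rcases hl x List.mem_cons_self with hx | hx
          · exact hx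
          · have h1 := hW.inv _ hx
            rwa [inv_inv] at h1
        have h1 : Cut W 1 x.toWord := by
          refine ⟨[x.toWord], le_rfl, by simp, ?_⟩
          intro v hv
          rw [List.mem_singleton] at hv
          rw [hv, FreeGroup.mk_toWord]
          exact hx
        have h2 := Cut.mul hW h1 (ih fun y hy => hl y (List.mem_cons_of_mem _ hy))
        rw [List.prod_cons, List.length_cons, Nat.add_comm]
        exact h2
    obtain ⟨l, hl, hl'⟩ := exists_word hW.gen g
    have h1 := key l hl.1
    rw [hl.2, hl'] at h1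
    exact HSF3_mono h h1
  · rintro ⟨ws, h1, h2, h3⟩
    refine (len_le (l := ws.map FreeGroup.mk) ⟨?_, ?_⟩).trans ?_
    · intro x hx
      obtain ⟨v, hv, rfl⟩ := List.mem_map.1 hx
      exact Or.inl (h3 v hv)
    · have h4 : ∀ ws : List (List (Fin n × Bool)),
          (ws.map FreeGroup.mk).prod = (FreeGroup.mk ws.flatten : F n) := by
        intro ws
        induction ws with
        | nil => rfl
        | cons w ws ih =>
          rw [List.map_cons, List.prod_cons, ih, List.flatten_cons, FreeGroup.mul_mk]
      rw [h4, h2, FreeGroup.mk_toWord]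
    · rw [List.length_map]
      exact h1

/-- The word length is monotone for factors. -/
theorem len_le_of_factor {W : Set (F n)} (hW : Fac W) {g h : F n} (hh : h.toWord <:+: g.toWord) :
    len W h ≤ len W g := by
  rw [len_le_iff_cut hW]
  exact Cut.factor hW (FreeGroup.reduce_toWord g) ((len_le_iff_cut hW).1 le_rfl) hh

/-- Cutting a concatenation. -/
private theorem HSF3_split {W : Set (F n)} (hW : Fac W) (ws : List (List (Fin n × Bool))) :
    ∀ u v : List (Fin n × Bool), ws.flatten = u ++ v →
      (∀ w ∈ ws, FreeGroup.mk w ∈ W ∧ FreeGroup.IsReduced w) →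
      ∃ us vs : List (List (Fin n × Bool)), us.flatten = u ∧ vs.flatten = v ∧
        us.length + vs.length ≤ ws.length + 1 ∧ (∀ w ∈ us, FreeGroup.mk w ∈ W) ∧
        ∀ w ∈ vs, FreeGroup.mk w ∈ W := by
  induction ws with
  | nil =>
    intro u v h _
    have h1 : u ++ v = [] := h.symm
    rw [List.append_eq_nil_iff] at h1
    refine ⟨[], [], h1.1.symm, h1.2.symm, by simp, by simp, by simp⟩
  | cons w ws ih =>
    intro u v h hw
    have hwW := hw w List.mem_cons_self
    have hws : ∀ w' ∈ ws, FreeGroup.mk w' ∈ W ∧ FreeGroup.IsReduced w' :=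
      fun w' hw' => hw w' (List.mem_cons_of_mem _ hw')
    rw [List.flatten_cons, List.append_eq_append_iff] at h
    rcases h with ⟨a, ha1, ha2⟩ | ⟨c, hc1, hc2⟩
    · obtain ⟨us, vs, h1, h2, h3, h4, h5⟩ := ih a v ha2 hws
      refine ⟨w :: us, vs, ?_, h2, ?_, ?_, h5⟩
      · rw [List.flatten_cons, h1, ha1]
      · rw [List.length_cons, List.length_cons]
        omega
      · intro w' hw'
        rcases List.mem_cons.1 hw' with rfl | hw'
        · exact hwW.1
        · exact h4 w' hw'
    · have hfac : ∀ x : List (Fin n × Bool), x <:+: w → FreeGroup.mk x ∈ W := by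
        intro x hx
        apply hW.factor _ hwW.1
        rw [FreeGroup.toWord_mk, FreeGroup.toWord_mk, hwW.2.reduce_eq,
          (isReduced_of_seg hwW.2 hx).reduce_eq]
        exact hx
      refine ⟨[u], c :: ws, by simp, ?_, ?_, ?_, ?_⟩
      · rw [List.flatten_cons, hc2]
      · simp only [List.length_cons, List.length_nil]
        omega
      · intro w' hw'
        rw [List.mem_singleton] at hw'
        rw [hw']
        exact hfac u ⟨[], c, by rw [hc1]; simp⟩
      · intro w' hw'
        rcases List.mem_cons.1 hw' with rfl | hw'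
        · exact hfac w' ⟨u, [], by rw [hc1]; simp⟩
        · exact (hws w' hw').1

/-- The word length is almost additive for reduced products. (A subdivision of `g.toWord ++ h.toWord`
into `k` parts cuts at most one part into two, so it gives subdivisions of the two words with
altogether at most `k + 1` parts.) -/
theorem len_add_le {W : Set (F n)} (hW : Fac W) {g h : F n}
    (hgh : (g * h).toWord = g.toWord ++ h.toWord) : len W g + len W h ≤ len W (g * h) + 1 := by
  obtain ⟨ws, h1, h2, h3⟩ := (len_le_iff_cut hW (g := g * h)).1 le_rfl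
  rw [hgh] at h2
  have hred : FreeGroup.IsReduced (g.toWord ++ h.toWord) := by
    rw [← hgh]
    exact FreeGroup.isReduced_toWord
  obtain ⟨us, vs, e1, e2, e3, e4, e5⟩ := HSF3_split hW ws g.toWord h.toWord h2 (by
    intro w hw
    refine ⟨h3 w hw, isReduced_of_seg hred ?_⟩
    rw [← h2]
    exact List.infix_of_mem_flatten hw)
  have h4 : len W g ≤ us.length := (len_le_iff_cut hW).2 ⟨us, le_rfl, e1, e4⟩
  have h5 : len W h ≤ vs.length := (len_le_iff_cut hW).2 ⟨vs, le_rfl, e2, e5⟩
  omega

/-- The longest common prefix. -/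
theorem exists_lcp (x y : F n) : ∃ p a b : F n, x.toWord = p.toWord ++ a.toWord ∧
    y.toWord = p.toWord ++ b.toWord ∧ (x⁻¹ * y).toWord = a⁻¹.toWord ++ b.toWord ∧
    ∀ q : List (Fin n × Bool), q <+: x.toWord → q <+: y.toWord → q <+: p.toWord :=
  lcp_aux x y

/-- The Gromov product is the length of the longest common prefix up to `1`.

Proof. With the decomposition of `exists_lcp` and `len_add_le` (for `p * a`, `p * b`, `a⁻¹ * b`) and
`len_mul`: `len x` is between `len p + len a - 1` and `len p + len a`, and similarly for `y`, and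
`len (x⁻¹ * y)` is between `len a + len b - 1` and `len a + len b`. -/
theorem gp_lcp {W : Set (F n)} (hW : Fac W) (x y : F n) : ∃ p : F n, p.toWord <+: x.toWord ∧
    p.toWord <+: y.toWord ∧
    (∀ q : List (Fin n × Bool), q <+: x.toWord → q <+: y.toWord → q <+: p.toWord) ∧
    |gp W x y - len W p| ≤ 1 := by
  obtain ⟨p, a, b, h1, h2, h3, h4⟩ := exists_lcp x y
  have hx : p * a = x := by
    rw [← FreeGroup.mk_toWord (x := x), h1, ← FreeGroup.mul_mk, FreeGroup.mk_toWord,
      FreeGroup.mk_toWord]
  have hy : p * b = y := by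
    rw [← FreeGroup.mk_toWord (x := y), h2, ← FreeGroup.mul_mk, FreeGroup.mk_toWord,
      FreeGroup.mk_toWord]
  have hz : a⁻¹ * b = x⁻¹ * y := by
    rw [← hx, ← hy]
    group
  have l1 : len W p + len W a ≤ len W x + 1 := by
    have := len_add_le hW (g := p) (h := a) (by rw [hx, h1])
    rwa [hx] at this
  have l2 : len W p + len W b ≤ len W y + 1 := by
    have := len_add_le hW (g := p) (h := b) (by rw [hy, h2])
    rwa [hy] at this
  have l3 : len W a + len W b ≤ len W (x⁻¹ * y) + 1 := by
    have := len_add_le hW (g := a⁻¹) (h := b) (by rw [hz, h3])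
    rwa [hz, len_inv] at this
  have m1 : len W x ≤ len W p + len W a := by
    rw [← hx]
    exact len_mul hW.gen p a
  have m2 : len W y ≤ len W p + len W b := by
    rw [← hy]
    exact len_mul hW.gen p b
  have m3 : len W (x⁻¹ * y) ≤ len W a + len W b := by
    rw [← hz, ← len_inv W a]
    exact len_mul hW.gen a⁻¹ b
  refine ⟨p, ⟨a.toWord, h1.symm⟩, ⟨b.toWord, h2.symm⟩, h4, ?_⟩
  have l1' : (len W p : ℝ) + len W a ≤ len W x + 1 := by exact_mod_cast l1
  have l2' : (len W p : ℝ) + len W b ≤ len W y + 1 := by exact_mod_cast l2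
  have l3' : (len W a : ℝ) + len W b ≤ len W (x⁻¹ * y) + 1 := by exact_mod_cast l3
  have m1' : (len W x : ℝ) ≤ len W p + len W a := by exact_mod_cast m1
  have m2' : (len W y : ℝ) ≤ len W p + len W b := by exact_mod_cast m2
  have m3' : (len W (x⁻¹ * y) : ℝ) ≤ len W a + len W b := by exact_mod_cast m3
  unfold gp
  rw [abs_le]
  constructor <;> linarith

/-- Hyperbolicity in terms of Gromov products.

Proof. Let `p, q, r` be the longest common prefixes of `x, y`, of `y, z` and of `x, z`. One of `p, q`
is a prefix of the other one, as both are prefixes of `y`; the shorter one is a common prefix of `x` and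
`z`, so it is a prefix of `r`; so `min (len p) (len q) ≤ len r` by `len_le_of_factor`. -/
theorem Fac.gp_le {W : Set (F n)} (hW : Fac W) (x y z : F n) :
    min (gp W x y) (gp W y z) ≤ gp W x z + 2 := by
  obtain ⟨p, p1, p2, -, p4⟩ := gp_lcp hW x y
  obtain ⟨q, q1, q2, -, q4⟩ := gp_lcp hW y z
  obtain ⟨r, -, -, r3, r4⟩ := gp_lcp hW x z
  rw [abs_le] at p4 q4 r4
  rcases List.prefix_or_prefix_of_prefix p2 q1 with h | h
  · have h1 : len W p ≤ len W r := len_le_of_factor hW (r3 _ p1 (h.trans q2)).isInfix
    have h2 : (len W p : ℝ) ≤ len W r := by exact_mod_cast h1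
    refine (min_le_left _ _).trans ?_
    linarith [p4.2, r4.1]
  · have h1 : len W q ≤ len W r := len_le_of_factor hW (r3 _ (h.trans p1) q2).isInfix
    have h2 : (len W q : ℝ) ≤ len W r := by exact_mod_cast h1
    refine (min_le_right _ _).trans ?_
    linarith [q4.2, r4.1]

/-- The four point condition from the inequality for Gromov products at `1`, by left invariance: for
the points `w⁻¹ x`, `w⁻¹ y`, `w⁻¹ z` the inequality is
`d(x,z) + d(y,w) ≤ max (d(x,y) + d(z,w)) (d(y,z) + d(x,w)) + 2 δ`. -/
theorem hyp_of_gp {G : Type} [Group G] {X : Set G} (hX : Gen X) {δ : ℝ}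
    (h : ∀ x y z, min (gp X x y) (gp X y z) ≤ gp X x z + δ) : Hyp X := by
  have _ := hX
  refine ⟨2 * δ, fun x y z w => ?_⟩
  have h1 := h (w⁻¹ * x) (w⁻¹ * z) (w⁻¹ * y)
  have e : ∀ u v : G, (w⁻¹ * u)⁻¹ * (w⁻¹ * v) = u⁻¹ * v := by
    intro u v
    group
  have f : ∀ u : G, len X (w⁻¹ * u) = len X (u⁻¹ * w) := by
    intro u
    rw [← len_inv X (w⁻¹ * u)]
    congr 1
    group
  have g1 : len X (z⁻¹ * y) = len X (y⁻¹ * z) := by
    rw [← len_inv X (z⁻¹ * y)]
    congr 1
    group
  unfold gp at h1
  rw [e, e, e, f, f, f, g1] at h1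
  unfold wd
  rcases min_le_iff.1 h1 with h2 | h2
  · refine le_trans ?_ (add_le_add_left (le_max_left _ _) _)
    linarith
  · refine le_trans ?_ (add_le_add_left (le_max_right _ _) _)
    linarith

/-- The hyperbolic structure of a set `U` of elements. -/
def facH (U : Set (F n)) : HSet (F n) :=
  ⟨fac U, (fac_fac U).gen, hyp_of_gp (fac_fac U).gen (fac_fac U).gp_le⟩

end Pool.Agent.Helper35.HS
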