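import Pool.Agent.Helper35.HS.Defs

/-!
# Gromov products of hyperbolic word metrics and elliptic elements (project HS)
-/

set_option autoImplicit false

namespace Pool.Agent.Helper35.HS

variable {G : Type} [Group G]

/-- The Gromov product of `x` and `y` at `1`. -/
noncomputable def gp (X : Set G) (x y : G) : ℝ :=
  ((len X x : ℝ) + len X y - len X (x⁻¹ * y)) / 2

theorem gp_comm (X : Set G) (x y : G) : gp X x y = gp X y x := by
  have : len X (y⁻¹ * x) = len X (x⁻¹ * y) := by rw [← len_inv]; congr 1; group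
  unfold gp
  rw [this]
  ring

theorem gp_nonneg {X : Set G} (hX : Gen X) (x y : G) : 0 ≤ gp X x y := by
  have h := len_mul hX x⁻¹ y
  rw [len_inv] at h
  have : ((len X (x⁻¹ * y) : ℕ) : ℝ) ≤ len X x + len X y := by exact_mod_cast h
  unfold gp
  linarith

theorem gp_le_left {X : Set G} (hX : Gen X) (x y : G) : gp X x y ≤ len X x := by
  have h := len_mul hX x (x⁻¹ * y)
  rw [mul_inv_cancel_left] at h
  have : ((len X y : ℕ) : ℝ) ≤ len X x + len X (x⁻¹ * y) := by exact_mod_cast h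
  unfold gp
  linarith

theorem gp_le_right {X : Set G} (hX : Gen X) (x y : G) : gp X x y ≤ len X y := by
  rw [gp_comm]
  exact gp_le_left hX y x

/-- `δ`-hyperbolicity of the word metric, in terms of the Gromov product at `1`. -/
def Del (X : Set G) (δ : ℝ) : Prop :=
  0 < δ ∧ ∀ x y z, min (gp X x y) (gp X y z) ≤ gp X x z + δ

/-- The four point condition implies the inequality for Gromov products.

Proof. Let `δ₀` be the constant of `Hyp X`, take `δ = |δ₀| + 1`. The four point condition for the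
points `x, z, 1, y` reads `d(x,z) + d(1,y) ≤ max (d(x,1) + d(z,y)) (d(x,y) + d(z,1)) + δ₀`, where
`d = wd X`, `wd X 1 y = len y`, `wd X x 1 = len x⁻¹ = len x`, `wd X z y = len (z⁻¹ y) = len (y⁻¹ z)`. If
the maximum is the first term, then `2 gp y z ≤ 2 gp x z + δ₀`; if it is the second one, then
`2 gp x y ≤ 2 gp x z + δ₀`. -/
theorem exists_del {X : Set G} (h : Hyp X) : ∃ δ, Del X δ := by
  obtain ⟨δ₀, h0⟩ := h
  refine ⟨|δ₀| + 1, by positivity, fun x y z => ?_⟩
  have h1 := h0 x z 1 y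
  have e1 : wd X 1 y = len X y := by rw [wd, inv_one, one_mul]
  have e2 : wd X x 1 = len X x := by rw [wd, mul_one, len_inv]
  have e3 : wd X z 1 = len X z := by rw [wd, mul_one, len_inv]
  have e4 : wd X z y = len X (y⁻¹ * z) := by
    rw [wd, ← len_inv]
    congr 2
    group
  rw [e1, e2, e3, e4] at h1
  unfold wd at h1
  have h2 := le_abs_self δ₀
  have h3 := abs_nonneg δ₀
  unfold gp
  rcases le_total ((len X x : ℝ) + len X (y⁻¹ * z)) (len X (x⁻¹ * y) + len X z) with h4 | h4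
  · rw [max_eq_right h4] at h1
    refine (min_le_left _ _).trans ?_
    linarith
  · rw [max_eq_left h4] at h1
    refine (min_le_right _ _).trans ?_
    linarith

/-- The word length is bounded. -/
def Bdd (X : Set G) : Prop := ∃ C : ℕ, ∀ g, len X g ≤ C

/-- The element `z` is elliptic: its powers have bounded length. -/
def Ell (X : Set G) (z : G) : Prop := ∃ C : ℕ, ∀ k : ℕ, len X (z ^ k) ≤ C

/-- Powers of an element whose square is long.

Proof. Write `|g| = len X g` and `a = gp z⁻¹ z = |z| - |z * z| / 2`. The hypothesis says that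
`2 a ≤ |z| - C`. Prove the first claim by induction on `i`. For `i = 0` it is
`gp 1 z = 0 ≤ a + δ` (`gp_nonneg`), for `i = 1` it is trivial. From the first claim for `i` the second
claim for `i` follows: `|z ^ (i + 1)| = |z ^ i| + |z| - 2 gp (z ^ i)⁻¹ z ≥ |z ^ i| + |z| - 2 a - 2 δ`.
Step from `i ≥ 1` to `i + 1`. By definition and `|z ^ (-1) ^ (-1) * z ^ (-(i+1))| = |z ^ i|`,
`gp z⁻¹ (z ^ (i + 1))⁻¹ = (|z| + |z ^ (i + 1)| - |z ^ i|) / 2 ≥ (2 |z| - 2 a - 2 δ) / 2 = |z| - a - δ`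
and this is larger than `a + δ` since `|z| - 2 a ≥ C > 2 δ`. By hyperbolicity
`min (gp z⁻¹ (z ^ (i+1))⁻¹) (gp (z ^ (i+1))⁻¹ z) ≤ gp z⁻¹ z + δ = a + δ`, hence
`gp (z ^ (i+1))⁻¹ z ≤ a + δ`. -/
theorem pow_of_sq {X : Set G} (hX : Gen X) {δ : ℝ} (hδ : Del X δ) {z : G} {C : ℝ} (hC : 2 * δ < C)
    (h : (len X z : ℝ) + C ≤ len X (z * z)) (i : ℕ) :
    gp X (z ^ i)⁻¹ z ≤ gp X z⁻¹ z + δ ∧
      (len X (z ^ i) : ℝ) + (len X z - 2 * gp X z⁻¹ z - 2 * δ) ≤ len X (z ^ (i + 1)) := by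
  have ha : gp X z⁻¹ z = len X z - len X (z * z) / 2 := by
    rw [gp, inv_inv, len_inv]
    ring
  have h1 : ∀ j : ℕ, gp X (z ^ j)⁻¹ z = ((len X (z ^ j) : ℝ) + len X z - len X (z ^ (j + 1))) / 2 := by
    intro j
    rw [gp, inv_inv, len_inv, ← pow_succ]
  have h2 : ∀ j : ℕ, gp X (z ^ j)⁻¹ z ≤ gp X z⁻¹ z + δ →
      (len X (z ^ j) : ℝ) + (len X z - 2 * gp X z⁻¹ z - 2 * δ) ≤ len X (z ^ (j + 1)) := by
    intro j hj
    rw [h1] at hj
    linarith
  have h3 : gp X (z ^ i)⁻¹ z ≤ gp X z⁻¹ z + δ := by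
    induction i with
    | zero =>
      have h4 := gp_nonneg hX z⁻¹ z
      have h5 := hδ.1
      rw [h1, pow_zero, zero_add, pow_one, len_one, Nat.cast_zero, zero_add, sub_self, zero_div]
      linarith
    | succ i ih =>
      have h4 := h2 i ih
      have h5 : gp X z⁻¹ (z ^ (i + 1))⁻¹ =
          ((len X z : ℝ) + len X (z ^ (i + 1)) - len X (z ^ i)) / 2 := by
        have e : z⁻¹⁻¹ * (z ^ (i + 1))⁻¹ = (z ^ i)⁻¹ := by
          rw [inv_inv, pow_succ, mul_inv_rev, mul_inv_cancel_left]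
        rw [gp, e, len_inv, len_inv, len_inv]
      have h6 := hδ.2 z⁻¹ (z ^ (i + 1))⁻¹ z
      rcases min_le_iff.1 h6 with h7 | h7
      · exfalso
        rw [h5] at h7
        rw [ha] at h7 h4
        linarith
      · exact h7
  exact ⟨h3, h2 i h3⟩

/-- Elliptic elements have short squares.

Proof. If `len z + 3 δ ≤ len (z * z)`, then by `pow_of_sq` (with `C = 3 δ`), and because of
`len z - 2 gp z⁻¹ z = len (z * z) - len z ≥ 3 δ`, one has `len (z ^ (i + 1)) ≥ len (z ^ i) + δ` for all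
`i`, so that `len (z ^ i) ≥ i δ` is unbounded. -/
theorem Ell.sq {X : Set G} (hX : Gen X) {δ : ℝ} (hδ : Del X δ) {z : G} (h : Ell X z) :
    (len X (z * z) : ℝ) ≤ len X z + 3 * δ := by
  by_contra hc
  have hc' := (not_le.1 hc).le
  have hpos := hδ.1
  have ha : gp X z⁻¹ z = len X z - len X (z * z) / 2 := by
    rw [gp, inv_inv, len_inv]
    ring
  have h1 : ∀ i : ℕ, (i : ℝ) * δ ≤ len X (z ^ i) := by
    intro i
    induction i with
    | zero =>
      rw [Nat.cast_zero, zero_mul]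
      positivity
    | succ i ih =>
      have h2 := (pow_of_sq hX hδ (C := 3 * δ) (by linarith) hc' i).2
      rw [ha] at h2
      rw [Nat.cast_add, Nat.cast_one, add_mul, one_mul]
      linarith
  obtain ⟨C, hC⟩ := h
  obtain ⟨n, hn⟩ := exists_nat_gt ((C : ℝ) / δ)
  rw [div_lt_iff₀ hpos] at hn
  have h3 := h1 n
  have h4 : (len X (z ^ n) : ℝ) ≤ C := by exact_mod_cast hC n
  linarith

/-- If all squares are short, then the word length is bounded.

Proof. Write `|g| = len X g`. For all `g` one has `gp g g⁻¹ = |g| - |g * g| / 2 ≥ (|g| - C) / 2`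
(note `gp g g⁻¹ = gp g⁻¹ g`, and `|g⁻¹ * g⁻¹| = |g * g|`). Suppose that `v` has even length `2 L`
(from an element of length at least `2 L` one gets one of length exactly `2 L` by `len_split`), and
write `v = z * w` with `|z| = |w| = L` (`len_split`). Then `gp z⁻¹ w = 0`,
`gp z v = (L + 2 L - L) / 2 = L` and `gp v⁻¹ w⁻¹ = (2 L + L - |v w⁻¹|) / 2 = L`, and
`gp v v⁻¹ ≥ (2 L - C) / 2`. So by hyperbolicity twice `gp z w⁻¹ ≥ L - C / 2 - 2 δ`. By hyperbolicity
twice again `0 = gp z⁻¹ w ≥ min (gp z⁻¹ z) (gp z w⁻¹) (gp w⁻¹ w) - 2 δ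
≥ min ((L - C) / 2) (L - C / 2 - 2 δ) - 2 δ`, hence `L ≤ |C| + 4 δ`. -/
theorem bdd_of_sq {X : Set G} (hX : Gen X) {δ : ℝ} (hδ : Del X δ) (C : ℝ)
    (h : ∀ g, (len X (g * g) : ℝ) ≤ len X g + C) : Bdd X := by
  obtain ⟨hδ0, hd⟩ := hδ
  obtain ⟨L, hL⟩ := exists_nat_gt (|C| + 4 * δ)
  refine ⟨2 * L, fun g => ?_⟩
  by_contra hg
  obtain ⟨v, v', -, hv, -⟩ := len_split hX (g := g) (k := 2 * L) (by omega)
  obtain ⟨z, w, hzw, hz, hw⟩ := len_split hX (g := v) (k := L) (by omega)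
  have hw' : len X w = L := by omega
  have e1 : z⁻¹⁻¹ * w = v := by rw [inv_inv, hzw]
  have e2 : z⁻¹ * v = w := by rw [← hzw, inv_mul_cancel_left]
  have e3 : v⁻¹⁻¹ * w⁻¹ = z := by rw [inv_inv, ← hzw, mul_inv_cancel_right]
  have e4 : v⁻¹ * v⁻¹ = (v * v)⁻¹ := by rw [mul_inv_rev]
  have g1 : gp X z⁻¹ w = 0 := by
    unfold gp
    rw [e1, len_inv, hz, hw', hv]
    push_cast
    ring
  have g2 : gp X z v = L := by
    unfold gp
    rw [e2, hz, hw', hv]
    push_cast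
    ring
  have g3 : gp X v⁻¹ w⁻¹ = L := by
    unfold gp
    rw [e3, len_inv, len_inv, hz, hw', hv]
    push_cast
    ring
  have hvv := h v
  have g4 : gp X v v⁻¹ = (4 * L - len X (v * v)) / 2 := by
    unfold gp
    rw [e4, len_inv, len_inv, hv]
    push_cast
    ring
  rw [hv] at hvv
  push_cast at hvv
  have hzz := h z
  rw [hz] at hzz
  have g5 : gp X z⁻¹ z = (2 * L - len X (z * z)) / 2 := by
    unfold gp
    rw [inv_inv, len_inv, hz]
    ring
  have hww := h w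
  rw [hw'] at hww
  have g6 : gp X w⁻¹ w = (2 * L - len X (w * w)) / 2 := by
    unfold gp
    rw [inv_inv, len_inv, hw']
    ring
  have hC1 := le_abs_self C
  have hC2 := abs_nonneg C
  have a1 := min_le_iff.mp (hd z v v⁻¹)
  have a2 := min_le_iff.mp (hd z v⁻¹ w⁻¹)
  have a3 := min_le_iff.mp (hd z⁻¹ z w⁻¹)
  have a4 := min_le_iff.mp (hd z⁻¹ w⁻¹ w)
  rw [g2, g4] at a1
  rw [g3] at a2
  rw [g5] at a3
  rw [g6, g1] at a4
  have b1 : (L : ℝ) - |C| / 2 - δ ≤ gp X z v⁻¹ := by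
    rcases a1 with a1 | a1 <;> linarith
  have b2 : (L : ℝ) - |C| / 2 - 2 * δ ≤ gp X z w⁻¹ := by
    rcases a2 with a2 | a2 <;> linarith
  rcases a4 with a4 | a4
  · rcases a3 with a3 | a3 <;> linarith
  · linarith

/-- Gromov products of negative and positive powers.

Proof. Let `a = gp z⁻¹ z`. For `k = 0` or `i = 0` the Gromov product is `gp _ 1 = 0` or `gp 1 _ = 0`.
Let `k ≥ 1`. By `pow_of_sq`, `gp (z ^ i)⁻¹ z ≤ a + δ`, and
`gp (z ^ k) z = (|z ^ k| + |z| - |z ^ (k-1)|) / 2 ≥ (2 |z| - 2 a - 2 δ) / 2 = |z| - a - δ` by the second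
claim of `pow_of_sq` for `k - 1`, and this is larger than `a + 2 δ` because of `|z| - 2 a ≥ 4 δ`
(since `|z| - 2 a = |z * z| - |z|`). By hyperbolicity
`min (gp (z ^ i)⁻¹ (z ^ k)) (gp (z ^ k) z) ≤ gp (z ^ i)⁻¹ z + δ ≤ a + 2 δ`. -/
theorem gp_pow {X : Set G} (hX : Gen X) {δ : ℝ} (hδ : Del X δ) {z : G}
    (h : (len X z : ℝ) + 4 * δ ≤ len X (z * z)) (i k : ℕ) :
    gp X (z ^ i)⁻¹ (z ^ k) ≤ gp X z⁻¹ z + 2 * δ := by
  have hpos := hδ.1
  have ha : gp X z⁻¹ z = len X z - len X (z * z) / 2 := by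
    rw [gp, inv_inv, len_inv]
    ring
  have ha0 := gp_nonneg hX z⁻¹ z
  rcases Nat.eq_zero_or_pos k with rfl | hk
  · have e : gp X (z ^ i)⁻¹ (z ^ 0) = 0 := by
      rw [pow_zero, gp, mul_one, inv_inv, len_inv, len_one, Nat.cast_zero]
      ring
    rw [e]
    linarith
  · obtain ⟨m, rfl⟩ := Nat.exists_eq_succ_of_ne_zero hk.ne'
    have h1 := (pow_of_sq hX hδ (C := 4 * δ) (by linarith) h i).1
    have h2 := (pow_of_sq hX hδ (C := 4 * δ) (by linarith) h m).2
    have e : (z ^ (m + 1))⁻¹ * z = (z ^ m)⁻¹ := by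
      rw [pow_succ', mul_inv_rev, inv_mul_cancel_right]
    have h3 : gp X (z ^ (m + 1)) z = ((len X (z ^ (m + 1)) : ℝ) + len X z - len X (z ^ m)) / 2 := by
      rw [gp, e, len_inv]
    rcases min_le_iff.1 (hδ.2 (z ^ i)⁻¹ (z ^ (m + 1)) z) with h4 | h4
    · exact h4.trans (by linarith)
    · exfalso
      rw [h3] at h4
      rw [ha] at h1 h2
      linarith

end Pool.Agent.Helper35.HS
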