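import Pool.Agent.Helper35.HS.QC

/-!
# Steering (project HS)

For three quasi-cocycles `c 0, c 1, c 2` with homomorphisms `ε 0 ≠ ε 1`, of which the third one is not
proportional to one of the others up to a bounded function, there is a sequence with steps in a finite
set on which `c 0` and `c 1` are bounded and `c 2` is unbounded.
-/

set_option autoImplicit false

namespace Pool.Agent.Helper35.HS

variable {G : Type} [Group G]

private theorem S1_zero (K : Subgroup G) {p : G → ℝ} (np : ∃ x ∈ K, p x ≠ 0) {a : ℝ}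
    (h : ∀ x ∈ K, a * p x = 0) : a = 0 := by
  obtain ⟨x, hx, hpx⟩ := np
  exact (mul_eq_zero.1 (h x hx)).resolve_right hpx

/-- two functions -/
private theorem S1_two (K : Subgroup G) [K.Normal] (ε ε' : G →* ℤˣ) (p q : G → ℝ)
    (hp : ∀ g, ∀ x ∈ K, p (g * x * g⁻¹) = sg (ε g) * p x)
    (hq : ∀ g, ∀ x ∈ K, q (g * x * g⁻¹) = sg (ε' g) * q x)
    (np : ∃ x ∈ K, p x ≠ 0) (nq : ∃ x ∈ K, q x ≠ 0)
    (h : ε' = ε → ¬ ∃ t : ℝ, ∀ x ∈ K, q x = t * p x) (a b : ℝ)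
    (hab : ∀ x ∈ K, a * p x + b * q x = 0) : a = 0 ∧ b = 0 := by
  by_cases he : ε' = ε
  · have hb : b = 0 := by
      by_contra hb
      refine h he ⟨-a / b, fun x hx => ?_⟩
      have h1 := hab x hx
      field_simp
      linarith
    refine ⟨S1_zero K np fun x hx => ?_, hb⟩
    have h1 := hab x hx
    rw [hb, zero_mul, add_zero] at h1
    exact h1
  · obtain ⟨g, hg⟩ : ∃ g, ε' g ≠ ε g := by
      by_contra hcon
      push Not at hcon
      exact he (MonoidHom.ext hcon)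
    have hs : sg (ε' g) = -sg (ε g) := by
      rcases Int.units_eq_one_or (ε g) with h1 | h1 <;>
        rcases Int.units_eq_one_or (ε' g) with h2 | h2 <;> rw [h1, h2] at hg ⊢ <;>
        simp [sg_one, sg_neg_one] at hg ⊢
    have key : ∀ x ∈ K, a * p x = b * q x := by
      intro x hx
      have h1 := hab (g * x * g⁻¹) (Subgroup.Normal.conj_mem inferInstance x hx g)
      rw [hp g x hx, hq g x hx, hs] at h1
      have h2 := sg_mul_self (ε g)
      have h3 : sg (ε g) * (a * (sg (ε g) * p x) + b * (-sg (ε g) * q x)) = 0 := by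
        rw [h1, mul_zero]
      linear_combination h3 + (b * q x - a * p x) * h2
    constructor
    · refine S1_zero K np fun x hx => ?_
      have h1 := hab x hx
      have h2 := key x hx
      linarith
    · refine S1_zero K nq fun x hx => ?_
      have h1 := hab x hx
      have h2 := key x hx
      linarith

/-- Linear independence.

Proof. For `g : G` and `x ∈ K` the hypothesis `hα` for `g x g⁻¹` gives
`∑ α i * sg (ε i g) * q i x = 0`. Choose `g` with `ε 0 g ≠ ε 1 g`; then `ε 2 g` is one of the two.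
Case `ε 2 g = ε 0 g`: subtracting `sg (ε 0 g)` times `hα`, one gets `α 1 * q 1 x = 0` for all `x ∈ K`,
so `α 1 = 0` by `hne`. If `ε 2 = ε 0`, then `α 2 = 0`, since otherwise `q 2 = (- α 0 / α 2) * q 0` on
`K`; and then `α 0 = 0` by `hne`. If `ε 2 ≠ ε 0`, use a `g'` with `ε 2 g' ≠ ε 0 g'` in the same way
to get `α 0 * q 0 x = 0` and `α 2 * q 2 x = 0`. The case `ε 2 g = ε 1 g` is the same with `0` and `1`
interchanged. -/
theorem indep (K : Subgroup G) [K.Normal] (ε : Fin 3 → G →* ℤˣ) (q : Fin 3 → G → ℝ)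
    (hconj : ∀ i g, ∀ x ∈ K, q i (g * x * g⁻¹) = sg (ε i g) * q i x) (h01 : ε 0 ≠ ε 1)
    (hne : ∀ i, ∃ x ∈ K, q i x ≠ 0) (h20 : ε 2 = ε 0 → ¬ ∃ t : ℝ, ∀ x ∈ K, q 2 x = t * q 0 x)
    (h21 : ε 2 = ε 1 → ¬ ∃ t : ℝ, ∀ x ∈ K, q 2 x = t * q 1 x) (α : Fin 3 → ℝ)
    (hα : ∀ x ∈ K, ∑ i, α i * q i x = 0) : α = 0 := by
  obtain ⟨g, hg⟩ : ∃ g, ε 0 g ≠ ε 1 g := by
    by_contra hcon
    push Not at hcon
    exact h01 (MonoidHom.ext hcon)
  have hs : sg (ε 1 g) = -sg (ε 0 g) := by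
    rcases Int.units_eq_one_or (ε 0 g) with h1 | h1 <;>
      rcases Int.units_eq_one_or (ε 1 g) with h2 | h2 <;> rw [h1, h2] at hg ⊢ <;>
      simp [sg_one, sg_neg_one] at hg ⊢
  have h0 : ∀ x ∈ K, α 0 * q 0 x + α 1 * q 1 x + α 2 * q 2 x = 0 := by
    intro x hx
    have h1 := hα x hx
    rwa [Fin.sum_univ_three] at h1
  have hgx : ∀ x ∈ K, α 0 * (sg (ε 0 g) * q 0 x) + α 1 * (-sg (ε 0 g) * q 1 x) +
      α 2 * (sg (ε 2 g) * q 2 x) = 0 := by
    intro x hx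
    have h1 := h0 (g * x * g⁻¹) (Subgroup.Normal.conj_mem inferInstance x hx g)
    rw [hconj 0 g x hx, hconj 1 g x hx, hconj 2 g x hx, hs] at h1
    exact h1
  have hsq := sg_mul_self (ε 0 g)
  have hs2 : sg (ε 2 g) = sg (ε 0 g) ∨ sg (ε 2 g) = -sg (ε 0 g) := by
    rcases sg_cases (ε 0 g) with h1 | h1 <;> rcases sg_cases (ε 2 g) with h2 | h2 <;>
      rw [h1, h2] <;> norm_num
  have hfin : α 0 = 0 ∧ α 1 = 0 ∧ α 2 = 0 := by
    rcases hs2 with hs2 | hs2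
    · have h1 : α 1 = 0 := by
        refine S1_zero K (hne 1) fun x hx => ?_
        have h2 := h0 x hx
        have h3 := hgx x hx
        rw [hs2] at h3
        have h4 : sg (ε 0 g) * (α 0 * (sg (ε 0 g) * q 0 x) + α 1 * (-sg (ε 0 g) * q 1 x) +
            α 2 * (sg (ε 0 g) * q 2 x)) = 0 := by rw [h3, mul_zero]
        linear_combination (1 / 2) * h2 - (1 / 2) * h4 +
          (1 / 2) * (α 0 * q 0 x - α 1 * q 1 x + α 2 * q 2 x) * hsq
      obtain ⟨h2, h3⟩ := S1_two K (ε 0) (ε 2) (q 0) (q 2) (hconj 0) (hconj 2) (hne 0) (hne 2) h20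
        (α 0) (α 2) (fun x hx => by
          have h2 := h0 x hx
          rw [h1, zero_mul, add_zero] at h2
          exact h2)
      exact ⟨h2, h1, h3⟩
    · have h1 : α 0 = 0 := by
        refine S1_zero K (hne 0) fun x hx => ?_
        have h2 := h0 x hx
        have h3 := hgx x hx
        rw [hs2] at h3
        have h4 : sg (ε 0 g) * (α 0 * (sg (ε 0 g) * q 0 x) + α 1 * (-sg (ε 0 g) * q 1 x) +
            α 2 * (-sg (ε 0 g) * q 2 x)) = 0 := by rw [h3, mul_zero]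
        linear_combination (1 / 2) * h2 + (1 / 2) * h4 -
          (1 / 2) * (α 0 * q 0 x - α 1 * q 1 x - α 2 * q 2 x) * hsq
      obtain ⟨h2, h3⟩ := S1_two K (ε 1) (ε 2) (q 1) (q 2) (hconj 1) (hconj 2) (hne 1) (hne 2) h21
        (α 1) (α 2) (fun x hx => by
          have h2 := h0 x hx
          rw [h1, zero_mul, zero_add] at h2
          exact h2)
      exact ⟨h1, h2, h3⟩
  funext i
  fin_cases i
  · exact hfin.1
  · exact hfin.2.1
  · exact hfin.2.2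

/-- Linearly independent functions on a set: there are three points with nonzero determinant.

Proof. The vectors `fun i => q i x` for `x ∈ K` span `Fin 3 → ℝ`, since otherwise there is a nonzero linear
functional which vanishes on them (`Submodule.exists_le_ker_of_lt_top` or `exists_dual_...`), which is
`v ↦ ∑ α i * v i`. A spanning set contains a basis (`exists_linearIndependent`), with three elements. So
each `v` is a linear combination `∑ j, b v j * q i (x j)`, where `b v` depends linearly on `v`. -/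
theorem exists_points (K : Subgroup G) (q : Fin 3 → G → ℝ)
    (h : ∀ α : Fin 3 → ℝ, (∀ x ∈ K, ∑ i, α i * q i x = 0) → α = 0) :
    ∃ x : Fin 3 → G, (∀ j, x j ∈ K) ∧
      ∀ v : Fin 3 → ℝ, ∃ b : Fin 3 → ℝ, ∀ i, v i = ∑ j, b j * q i (x j) := by
  set S : Set (Fin 3 → ℝ) := (fun x => fun i => q i x) '' (K : Set G) with hS
  have hspan : Submodule.span ℝ S = ⊤ := by
    by_contra hne
    obtain ⟨f, hf0, hf⟩ := Submodule.exists_le_ker_of_lt_top _ (lt_top_iff_ne_top.mpr hne)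
    have hf2 : ∀ v : Fin 3 → ℝ, f v = ∑ i, f (Pi.single i 1) * v i := by
      intro v
      conv_lhs => rw [← Finset.univ_sum_single v]
      rw [map_sum]
      refine Finset.sum_congr rfl fun i _ => ?_
      have h1 : (Pi.single i (v i) : Fin 3 → ℝ) = v i • Pi.single i 1 := by
        rw [← Pi.single_smul, smul_eq_mul, mul_one]
      rw [h1, map_smul, smul_eq_mul, mul_comm]
    have hα : (fun i => f (Pi.single i 1)) = (0 : Fin 3 → ℝ) := by
      apply h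
      intro x hx
      have h1 : f (fun i => q i x) = 0 := hf (Submodule.subset_span ⟨x, hx, rfl⟩)
      rwa [hf2] at h1
    apply hf0
    refine LinearMap.ext fun v => ?_
    rw [hf2, LinearMap.zero_apply]
    refine Finset.sum_eq_zero fun i _ => ?_
    rw [congrFun hα i, Pi.zero_apply, zero_mul]
  obtain ⟨b, hbS, hbspan, hbli⟩ := exists_linearIndependent ℝ S
  let B := Module.Basis.mk hbli (by rw [Subtype.range_coe, hbspan, hspan])
  have hfin : Finite b := Module.Finite.finite_basis B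
  have := Fintype.ofFinite b
  have hcard : Fintype.card b = 3 := by
    rw [← Module.finrank_eq_card_basis B]
    simp
  let e : Fin 3 ≃ b := (Fintype.equivFinOfCardEq hcard).symm
  choose x hxK hx using fun j => hbS (e j).2
  refine ⟨x, hxK, fun v => ⟨fun j => B.repr v (e j), fun i => ?_⟩⟩
  have h1 := B.sum_repr v
  have h2 : v i = ∑ k, B.repr v k * (B k) i := by
    conv_lhs => rw [← h1]
    rw [Finset.sum_apply]
    rfl
  rw [h2, ← Equiv.sum_comp e]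
  refine Finset.sum_congr rfl fun j _ => ?_
  congr 1
  rw [Module.Basis.mk_apply, ← hx j]

/-- The map `c` is coarsely onto.

Proof. Take the points `x j` of `exists_points`. For `v` let `b` be the coefficients and
`y = x 0 ^ ⌊b 0⌋ * x 1 ^ ⌊b 1⌋ * x 2 ^ ⌊b 2⌋ ∈ K`. Then `c i y` is `∑ j, ⌊b j⌋ * q i (x j)` up to
`2 D + 3 D`, and this is `v i` up to `∑ j, |q i (x j)|`. -/
theorem exists_box (K : Subgroup G) (c q : Fin 3 → G → ℝ) {D : ℝ}
    (hadd : ∀ i, ∀ x ∈ K, ∀ y ∈ K, |c i (x * y) - c i x - c i y| ≤ D)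
    (hpow : ∀ i, ∀ x ∈ K, ∀ k : ℤ, |c i (x ^ k) - k * q i x| ≤ D)
    (h : ∀ α : Fin 3 → ℝ, (∀ x ∈ K, ∑ i, α i * q i x = 0) → α = 0) :
    ∃ ρ : ℝ, ∀ v : Fin 3 → ℝ, ∃ y ∈ K, ∀ i, |c i y - v i| ≤ ρ := by
  obtain ⟨x, hxK, hx⟩ := exists_points K q h
  refine ⟨5 * D + ∑ i, ∑ j, |q i (x j)|, fun v => ?_⟩
  obtain ⟨b, hb⟩ := hx v
  have hk : ∀ j, x j ^ ⌊b j⌋ ∈ K := fun j => K.zpow_mem (hxK j) _
  refine ⟨x 0 ^ ⌊b 0⌋ * x 1 ^ ⌊b 1⌋ * x 2 ^ ⌊b 2⌋,
    K.mul_mem (K.mul_mem (hk 0) (hk 1)) (hk 2), fun i => ?_⟩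
  have h1 := abs_le.mp (hadd i _ (K.mul_mem (hk 0) (hk 1)) _ (hk 2))
  have h2 := abs_le.mp (hadd i _ (hk 0) _ (hk 1))
  have h3 := fun j => abs_le.mp (hpow i (x j) (hxK j) ⌊b j⌋)
  have h4 : ∀ j, |(⌊b j⌋ : ℝ) * q i (x j) - b j * q i (x j)| ≤ |q i (x j)| := by
    intro j
    rw [← sub_mul, abs_mul]
    have h5 : |(⌊b j⌋ : ℝ) - b j| ≤ 1 := by
      rw [abs_le]
      constructor
      · linarith [Int.lt_floor_add_one (b j)]
      · linarith [Int.floor_le (b j)]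
    exact mul_le_of_le_one_left (abs_nonneg _) h5
  have h5 := fun j => abs_le.mp (h4 j)
  have h6 : ∑ j, |q i (x j)| ≤ ∑ i, ∑ j, |q i (x j)| :=
    Finset.single_le_sum (f := fun i => ∑ j, |q i (x j)|)
      (fun i _ => Finset.sum_nonneg fun j _ => abs_nonneg _) (Finset.mem_univ i)
  have h7 := hb i
  rw [Fin.sum_univ_three] at h6 h7
  rw [h7]
  have a0 := h3 0
  have a1 := h3 1
  have a2 := h3 2
  have b0 := h5 0
  have b1 := h5 1
  have b2 := h5 2
  rw [abs_le]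
  constructor
  · linarith [h1.1, h2.1, a0.1, a1.1, a2.1, b0.1, b1.1, b2.1]
  · linarith [h1.2, h2.2, a0.2, a1.2, a2.2, b0.2, b1.2, b2.2]

/-- The steering argument.

Proof. For integers `a, b` choose `Y a b ∈ K` with `|c 0 (Y a b) - a| ≤ ρ`, `|c 1 (Y a b) - b| ≤ ρ`,
`|c 2 (Y a b) - (ρ + D + 1)| ≤ ρ`. Let `w 0 = 1` and
`w (j+1) = w j * Y (- ⌊c 0 (w j)⌋) (- ⌊c 1 (w j)⌋)`. By induction `w j ∈ K` and, with
`R = 1 + ρ + D + |c 0 1| + |c 1 1|`, `|c 0 (w j)| ≤ R` and `|c 1 (w j)| ≤ R`, since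
`c 0 (w (j+1))` is `c 0 (w j) - ⌊c 0 (w j)⌋` up to `ρ + D`. So the integers `⌊c 0 (w j)⌋` and
`⌊c 1 (w j)⌋` are bounded and the steps are in a finite set. And `c 2 (w (j+1)) ≥ c 2 (w j) + 1`. -/
theorem exists_walk (K : Subgroup G) (c : Fin 3 → G → ℝ) {D ρ : ℝ}
    (hadd : ∀ i, ∀ x ∈ K, ∀ y ∈ K, |c i (x * y) - c i x - c i y| ≤ D)
    (hbox : ∀ v : Fin 3 → ℝ, ∃ y ∈ K, ∀ i, |c i y - v i| ≤ ρ) :
    ∃ w : ℕ → G, w 0 = 1 ∧ (Set.range fun j => (w j)⁻¹ * w (j + 1)).Finite ∧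
      (∃ R : ℝ, ∀ j, |c 0 (w j)| ≤ R ∧ |c 1 (w j)| ≤ R) ∧ ∀ T : ℝ, ∃ j, T ≤ |c 2 (w j)| := by
  have hY : ∀ a b : ℤ, ∃ y ∈ K, |c 0 y - a| ≤ ρ ∧ |c 1 y - b| ≤ ρ ∧
      |c 2 y - (ρ + D + 1)| ≤ ρ := by
    intro a b
    obtain ⟨y, hy, h⟩ := hbox ![(a : ℝ), (b : ℝ), ρ + D + 1]
    exact ⟨y, hy, h 0, h 1, h 2⟩
  choose Y hYK hY0 hY1 hY2 using hY
  have hD : 0 ≤ D := (abs_nonneg _).trans (hadd 0 1 K.one_mem 1 K.one_mem)
  have hρ : 0 ≤ ρ := (abs_nonneg _).trans (hY0 0 0)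
  let w : ℕ → G := fun n => Nat.rec 1 (fun _ g => g * Y (-⌊c 0 g⌋) (-⌊c 1 g⌋)) n
  have hw0 : w 0 = 1 := rfl
  have hws : ∀ j, w (j + 1) = w j * Y (-⌊c 0 (w j)⌋) (-⌊c 1 (w j)⌋) := fun _ => rfl
  have hwK : ∀ j, w j ∈ K := by
    intro j
    induction j with
    | zero => exact K.one_mem
    | succ j ih =>
      rw [hws]
      exact K.mul_mem ih (hYK _ _)
  have hR : ∀ j, |c 0 (w j)| ≤ 1 + ρ + D + |c 0 1| + |c 1 1| ∧
      |c 1 (w j)| ≤ 1 + ρ + D + |c 0 1| + |c 1 1| := by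
    intro j
    have h0 := abs_nonneg (c 0 1)
    have h1 := abs_nonneg (c 1 1)
    cases j with
    | zero =>
      rw [hw0]
      constructor <;> linarith
    | succ j =>
      have ha0 := abs_le.mp (hadd 0 (w j) (hwK j) _ (hYK (-⌊c 0 (w j)⌋) (-⌊c 1 (w j)⌋)))
      have ha1 := abs_le.mp (hadd 1 (w j) (hwK j) _ (hYK (-⌊c 0 (w j)⌋) (-⌊c 1 (w j)⌋)))
      have hb0 := abs_le.mp (hY0 (-⌊c 0 (w j)⌋) (-⌊c 1 (w j)⌋))
      have hb1 := abs_le.mp (hY1 (-⌊c 0 (w j)⌋) (-⌊c 1 (w j)⌋))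
      have hf0 := Int.floor_le (c 0 (w j))
      have hf1 := Int.floor_le (c 1 (w j))
      have hg0 := Int.lt_floor_add_one (c 0 (w j))
      have hg1 := Int.lt_floor_add_one (c 1 (w j))
      push_cast at hb0 hb1
      rw [hws]
      constructor
      · rw [abs_le]
        constructor <;> linarith [ha0.1, ha0.2, hb0.1, hb0.2]
      · rw [abs_le]
        constructor <;> linarith [ha1.1, ha1.2, hb1.1, hb1.2]
  have h2 : ∀ j : ℕ, c 2 1 + j ≤ c 2 (w j) := by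
    intro j
    induction j with
    | zero => rw [hw0]; simp
    | succ j ih =>
      have ha := abs_le.mp (hadd 2 (w j) (hwK j) _ (hYK (-⌊c 0 (w j)⌋) (-⌊c 1 (w j)⌋)))
      have hb := abs_le.mp (hY2 (-⌊c 0 (w j)⌋) (-⌊c 1 (w j)⌋))
      rw [hws]
      push_cast
      linarith [ha.1, hb.1]
  refine ⟨w, hw0, ?_, ⟨_, hR⟩, ?_⟩
  · generalize hRR : (1 + ρ + D + |c 0 1| + |c 1 1| : ℝ) = R at hR
    refine Set.Finite.subset (((Set.finite_Icc (-⌊R⌋) (-⌊-R⌋)).prod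
      (Set.finite_Icc (-⌊R⌋) (-⌊-R⌋))).image fun z : ℤ × ℤ => Y z.1 z.2) ?_
    rintro _ ⟨j, rfl⟩
    have key : ∀ i : Fin 3, |c i (w j)| ≤ R → -⌊c i (w j)⌋ ∈ Set.Icc (-⌊R⌋) (-⌊-R⌋) := by
      intro i hi
      obtain ⟨hi1, hi2⟩ := abs_le.mp hi
      exact ⟨neg_le_neg (Int.floor_le_floor hi2), neg_le_neg (Int.floor_le_floor hi1)⟩
    refine ⟨(-⌊c 0 (w j)⌋, -⌊c 1 (w j)⌋), ⟨key 0 (hR j).1, key 1 (hR j).2⟩, ?_⟩
    show Y (-⌊c 0 (w j)⌋) (-⌊c 1 (w j)⌋) = (w j)⁻¹ * w (j + 1)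
    rw [hws, inv_mul_cancel_left]
  · intro T
    obtain ⟨j, hj⟩ := exists_nat_ge (T - c 2 1)
    exact ⟨j, le_trans (by linarith [h2 j]) (le_abs_self _)⟩

private theorem steer_at_one {ε : G →* ℤˣ} {c q : G → ℝ} {D : ℝ}
    (hq : ∀ x, ε x = 1 → ∀ k : ℤ, |c (x ^ k) - k * q x| ≤ 3 * D) {x : G} (hx : ε x = 1) :
    |c x - q x| ≤ 3 * D := by
  have h := hq x hx 1
  rwa [zpow_one, Int.cast_one, one_mul] at h

private theorem steer_prop (K : Subgroup G) [K.FiniteIndex] {ε : G →* ℤˣ} {c c' q q' : G → ℝ}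
    {D D' : ℝ} (h : QC ε c D) (h' : QC ε c' D') (hK : ∀ x ∈ K, ε x = 1)
    (hq : ∀ x, ε x = 1 → ∀ k : ℤ, |c (x ^ k) - k * q x| ≤ 3 * D)
    (hq' : ∀ x, ε x = 1 → ∀ k : ℤ, |c' (x ^ k) - k * q' x| ≤ 3 * D') {t : ℝ}
    (ht : ∀ x ∈ K, q' x = t * q x) : ∃ B : ℝ, ∀ g, |c' g - t * c g| ≤ B := by
  have h1 : QC ε (fun g => c' g - t * c g) (D' + |t| * D) := by
    intro g k
    have e1 : c' (g * k) - t * c (g * k) - (c' g - t * c g) - sg (ε g) * (c' k - t * c k) =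
        (c' (g * k) - c' g - sg (ε g) * c' k) - t * (c (g * k) - c g - sg (ε g) * c k) := by ring
    show |c' (g * k) - t * c (g * k) - (c' g - t * c g) - sg (ε g) * (c' k - t * c k)| ≤ _
    rw [e1]
    refine (abs_sub _ _).trans ?_
    rw [abs_mul]
    exact add_le_add (h' g k) (mul_le_mul_of_nonneg_left (h g k) (abs_nonneg t))
  refine h1.bdd_of_finiteIndex K (B := 3 * D' + |t| * (3 * D)) fun x hx => ?_
  have e1 : c' x - t * c x = (c' x - q' x) - t * (c x - q x) := by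
    rw [ht x hx]
    ring
  show |c' x - t * c x| ≤ _
  rw [e1]
  refine (abs_sub _ _).trans ?_
  rw [abs_mul]
  exact add_le_add (steer_at_one hq' (hK x hx))
    (mul_le_mul_of_nonneg_left (steer_at_one hq (hK x hx)) (abs_nonneg t))

/-- Steering for quasi-cocycles.

Proof. Let `K` be the intersection of the kernels of the `ε i` (a normal subgroup of finite index, the
kernel of a homomorphism to a finite group), and `q i` the homogenisations (`QC.homog`). On `K` the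
`c i` are additive up to `D i`, and `QC.homog` gives the other hypotheses of `exists_box`, where
`indep` is used. `hne`: if `q i = 0` on `K`, then `|c i| ≤ 3 D i` on `K` (exponent `1`) and `c i` is
bounded by `QC.bdd_of_finiteIndex`. `h20`: if `ε 2 = ε 0` and `q 2 = t * q 0` on `K`, then
`c 2 - t * c 0` is bounded on `K`; as it is a quasi-cocycle for `ε 0` (with defect `D 2 + |t| D 0`), it
is bounded by `QC.bdd_of_finiteIndex`. The same for `h21`. -/
theorem steer (ε : Fin 3 → G →* ℤˣ) (c : Fin 3 → G → ℝ) (hc : ∀ i, ∃ D, QC (ε i) (c i) D)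
    (hu : ∀ i, Unb (c i)) (h01 : ε 0 ≠ ε 1)
    (h20 : ε 2 = ε 0 → ¬ ∃ t B : ℝ, ∀ g, |c 2 g - t * c 0 g| ≤ B)
    (h21 : ε 2 = ε 1 → ¬ ∃ t B : ℝ, ∀ g, |c 2 g - t * c 1 g| ≤ B) :
    ∃ w : ℕ → G, w 0 = 1 ∧ (Set.range fun j => (w j)⁻¹ * w (j + 1)).Finite ∧
      (∃ R : ℝ, ∀ j, |c 0 (w j)| ≤ R ∧ |c 1 (w j)| ≤ R) ∧ ∀ T : ℝ, ∃ j, T ≤ |c 2 (w j)| := by
  choose D hD using hc
  choose q hq1 hq2 using fun i => (hD i).homog
  set φ : G →* (Fin 3 → ℤˣ) := MonoidHom.mk' (fun g i => ε i g) (fun g h => by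
    funext i
    exact map_mul (ε i) g h) with hφ
  set K : Subgroup G := φ.ker with hKdef
  have hmem : ∀ x ∈ K, ∀ i, ε i x = 1 := fun x hx i => congrFun (MonoidHom.mem_ker.mp hx) i
  have : K.FiniteIndex := Subgroup.finiteIndex_ker φ
  have hD0 : ∀ i, 0 ≤ D i := fun i => (hD i).nonneg
  have hle : ∀ i, 3 * D i ≤ 3 * ∑ i, D i := fun i =>
    mul_le_mul_of_nonneg_left (Finset.single_le_sum (fun j _ => hD0 j) (Finset.mem_univ i))
      (by norm_num)
  have hadd : ∀ i, ∀ x ∈ K, ∀ y ∈ K, |c i (x * y) - c i x - c i y| ≤ 3 * ∑ i, D i := by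
    intro i x hx y _
    have h1 := hD i x y
    rw [hmem x hx i, sg_one, one_mul] at h1
    have h2 := hle i
    have h3 := hD0 i
    linarith
  have hbox := exists_box K c q hadd
    (fun i x hx k => (hq1 i x (hmem x hx i) k).trans (hle i))
    (fun α hα => indep K ε q (fun i g x hx => hq2 i g x (hmem x hx i)) h01 ?_ ?_ ?_ α hα)
  · obtain ⟨ρ, hρ⟩ := hbox
    exact exists_walk K c hadd hρ
  · intro i
    by_contra hcon
    push Not at hcon
    obtain ⟨B, hB⟩ := (hD i).bdd_of_finiteIndex K (B := 3 * D i) fun x hx => by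
      have h1 := steer_at_one (hq1 i) (hmem x hx i)
      rwa [hcon x hx, sub_zero] at h1
    obtain ⟨g, hg⟩ := hu i (B + 1)
    have := hB g
    linarith
  · rintro h ⟨t, ht⟩
    obtain ⟨B, hB⟩ := steer_prop K (ε := ε 0) (hD 0) (h ▸ hD 2) (fun x hx => hmem x hx 0) (hq1 0)
      (h ▸ hq1 2) ht
    exact h20 h ⟨t, B, hB⟩
  · rintro h ⟨t, ht⟩
    obtain ⟨B, hB⟩ := steer_prop K (ε := ε 1) (hD 1) (h ▸ hD 2) (fun x hx => hmem x hx 1) (hq1 1)
      (h ▸ hq1 2) ht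
    exact h21 h ⟨t, B, hB⟩

end Pool.Agent.Helper35.HS
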