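import Pool.Agent.Helper35.HS.Chain
import Pool.Agent.Helper35.HS.Steer
import Pool.Agent.Helper35.HS.Coset

/-!
# Isomorphisms between posets of hyperbolic structures on free groups (project HS)
-/

set_option autoImplicit false

namespace Pool.Agent.Helper35.HS

variable {m n : ℕ}

/-- Two different nontrivial homomorphisms have the value `-1` at a common element.

Proof. There is `g` with `ε g ≠ δ g`, say `ε g = -1`, `δ g = 1` (otherwise interchange them), and `h`
with `δ h = -1`. If `ε h = -1` take `x = h`. If `ε h = 1` take `x = g * h`. -/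
theorem exists_neg_neg {G : Type} [Group G] {ε δ : G →* ℤˣ} (hε : ε ≠ 1) (hδ : δ ≠ 1)
    (h : ε ≠ δ) : ∃ x, ε x = -1 ∧ δ x = -1 := by
  have hu : ∀ φ : G →* ℤˣ, φ ≠ 1 → ∃ x, φ x = -1 := by
    intro φ hφ
    by_contra hcon
    push Not at hcon
    exact hφ (MonoidHom.ext fun x => (Int.units_eq_one_or (φ x)).resolve_right (hcon x))
  obtain ⟨x, hx⟩ := hu ε hε
  obtain ⟨y, hy⟩ := hu δ hδ
  rcases Int.units_eq_one_or (δ x) with hx' | hx'
  · rcases Int.units_eq_one_or (ε y) with hy' | hy'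
    · exact ⟨x * y, by rw [map_mul, hx, hy', mul_one], by rw [map_mul, hx', hy, one_mul]⟩
    · exact ⟨y, hy', hy⟩
  · exact ⟨x, hx, hx'⟩

/-- Below all common upper bounds of two lineal structures with different nontrivial characters there
are only these two structures and the trivial one.

Proof. Suppose that `a ≤ t` whenever `s₁ ≤ t` and `s₂ ≤ t`. Let `Y` be a representative of `a`. If `Y` is
bounded (`Bdd`), then `a ≤ t` for all `t` (`cls_le`), contradiction. Let `x` be as in `exists_neg_neg`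
and `K = ε₁.ker ⊓ ε₂.ker` (normal, finite index). Let `h ∈ K` and `z = x * h`, so that `ε₁ z = ε₂ z = -1`.
By `QC.bdd_pow`, `c₁` and `c₂` are bounded on the sequence `w j = z ^ j` (steps `z`), so by
`LDs.le_chain` `s₁, s₂ ≤ cls (facH (range w))`, hence `a ≤ cls (facH (range w))`, the length with respect
to `Y` is bounded on `fac (range w)` and in particular on the powers of `z` (`subset_fac`): `Ell Y z`. So
`lineal_of_elliptic` shows that `Y` is lineal, and by `exists_ld` there are `ε₃` and `c₃` with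
`LD Y ε₃ c₃`. By `LDs.eq_of_prop` and `a ≠ s₁`, `a ≠ s₂`, `c₃` is not proportional to `c₁` or to `c₂`
up to a bounded function. Apply `steer` to `![ε₁, ε₂, ε₃]` and `![c₁, c₂, c₃]` to get a
sequence `w`; by `LDs.le_chain` again `a ≤ cls (facH (range w))`, so `c₃` is bounded on `range w` by
`LDs.le_iff`, contradiction. -/
theorem exists_upper {s₁ s₂ a : H (F m)} {ε₁ ε₂ : F m →* ℤˣ} {c₁ c₂ : F m → ℝ} (h₁ : LDs s₁ ε₁ c₁)
    (h₂ : LDs s₂ ε₂ c₂) (hε₁ : ε₁ ≠ 1) (hε₂ : ε₂ ≠ 1) (hne : ε₁ ≠ ε₂) (ha : ∃ t, ¬ a ≤ t)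
    (ha₁ : a ≠ s₁) (ha₂ : a ≠ s₂) : ∃ t, s₁ ≤ t ∧ s₂ ≤ t ∧ ¬ a ≤ t := by
  by_contra hcon
  push Not at hcon
  obtain ⟨Y, rfl⟩ := exists_cls a
  have hb : ¬ Bdd Y.1 := by
    rintro ⟨C, hC⟩
    obtain ⟨t, ht⟩ := ha
    obtain ⟨T, rfl⟩ := exists_cls t
    exact ht (cls_le.mpr ⟨C, fun y _ => hC y⟩)
  obtain ⟨x, hx₁, hx₂⟩ := exists_neg_neg hε₁ hε₂ hne
  have hqc : ∀ {s : H (F m)} {ε : F m →* ℤˣ} {c : F m → ℝ}, LDs s ε c →
      (∃ D, QC ε c D) ∧ Unb c := fun h => ⟨h.choose_spec.2.qc, h.choose_spec.2.unb⟩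
  have hell : ∀ h ∈ ε₁.ker ⊓ ε₂.ker, Ell Y.1 (x * h) := by
    intro h hh
    have hz₁ : ε₁ (x * h) = -1 := by rw [map_mul, hx₁, MonoidHom.mem_ker.mp hh.1, mul_one]
    have hz₂ : ε₂ (x * h) = -1 := by rw [map_mul, hx₂, MonoidHom.mem_ker.mp hh.2, mul_one]
    obtain ⟨D₁, hD₁⟩ := (hqc h₁).1
    obtain ⟨D₂, hD₂⟩ := (hqc h₂).1
    obtain ⟨R₁, hR₁⟩ := hD₁.bdd_pow hz₁
    obtain ⟨R₂, hR₂⟩ := hD₂.bdd_pow hz₂
    have h0 : (fun j : ℕ => (x * h) ^ j) 0 = 1 := pow_zero _
    have hfin : (Set.range fun j : ℕ => ((fun j : ℕ => (x * h) ^ j) j)⁻¹ *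
        (fun j : ℕ => (x * h) ^ j) (j + 1)).Finite := by
      refine (Set.finite_singleton (x * h)).subset ?_
      rintro _ ⟨j, rfl⟩
      simp only [Set.mem_singleton_iff]
      rw [pow_succ, inv_mul_cancel_left]
    have hle := hcon _ (h₁.le_chain h0 hfin hR₁) (h₂.le_chain h0 hfin hR₂)
    obtain ⟨C, hC⟩ := cls_le.mp hle
    exact ⟨C, fun k => hC _ (subset_fac _ ⟨k, rfl⟩)⟩
  have hlin : Lineal Y.1 :=
    lineal_of_elliptic Y.2.1 Y.2.2 hb (ε₁.ker ⊓ ε₂.ker) x hell
  obtain ⟨ε₃, c₃, hL⟩ := exists_ld Y.2.1 hlin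
  have h₃ : LDs (cls Y) ε₃ c₃ := ⟨Y, rfl, hL⟩
  obtain ⟨w, hw0, hfin, ⟨R, hR⟩, hT⟩ := steer ![ε₁, ε₂, ε₃] ![c₁, c₂, c₃]
    (by
      intro i
      fin_cases i
      · exact (hqc h₁).1
      · exact (hqc h₂).1
      · exact (hqc h₃).1)
    (by
      intro i
      fin_cases i
      · exact (hqc h₁).2
      · exact (hqc h₂).2
      · exact (hqc h₃).2) hne
    (by
      rintro - ⟨t, B, hB⟩
      exact ha₁ (h₁.eq_of_prop h₃ hB))
    (by
      rintro - ⟨t, B, hB⟩
      exact ha₂ (h₂.eq_of_prop h₃ hB))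
  have hle := hcon _ (h₁.le_chain hw0 hfin fun j => (hR j).1)
    (h₂.le_chain hw0 hfin fun j => (hR j).2)
  obtain ⟨B, hB⟩ := (h₃.le_iff _).mp hle
  obtain ⟨j, hj⟩ := hT (B + 1)
  have := hB (w j) (subset_fac _ ⟨j, rfl⟩)
  have hj' : B + 1 ≤ |c₃ (w j)| := hj
  linarith

/-- A lineal structure is not the smallest one. (`Set.univ` is a generating set with bounded word length,
so it is hyperbolic; if the structure was below its class, then the word length of a lineal
representative would be bounded, and the real line would be bounded.) -/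
theorem IsLineal.exists_not_le {G : Type} [Group G] {s : H G} (h : IsLineal s) : ∃ t, ¬ s ≤ t := by
  obtain ⟨X, rfl, φ, A, hA, h1, h2⟩ := h
  have hgen : Gen (Set.univ : Set G) := Subgroup.closure_univ
  have hwd : ∀ x y : G, 0 ≤ wd Set.univ x y ∧ wd Set.univ x y ≤ 1 := by
    intro x y
    refine ⟨Nat.cast_nonneg _, ?_⟩
    have h3 : len (Set.univ : Set G) (x⁻¹ * y) ≤ 1 := len_mem (Set.mem_univ _)
    have h4 : ((len (Set.univ : Set G) (x⁻¹ * y) : ℕ) : ℝ) ≤ ((1 : ℕ) : ℝ) := Nat.cast_le.mpr h3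
    rw [Nat.cast_one] at h4
    exact h4
  have hhyp : Hyp (Set.univ : Set G) := by
    refine ⟨2, fun x y z w => ?_⟩
    have h3 := (hwd x y).2
    have h4 := (hwd z w).2
    have h5 := (hwd x z).1
    have h6 := (hwd y w).1
    have h7 := le_max_left (wd Set.univ x z + wd Set.univ y w) (wd Set.univ x w + wd Set.univ y z)
    linarith
  refine ⟨cls ⟨Set.univ, hgen, hhyp⟩, fun hle => ?_⟩
  obtain ⟨C, hC⟩ := cls_le.mp hle
  obtain ⟨x, hx⟩ := h2 (φ 1 + A * C + 2 * A + 1)
  have h3 := (h1 x 1).1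
  have h4 : wd X.1 x 1 ≤ C := by
    have h5 : ((len X.1 (x⁻¹ * 1) : ℕ) : ℝ) ≤ (C : ℝ) := Nat.cast_le.mpr (hC _ (Set.mem_univ _))
    exact h5
  have h5 : A * wd X.1 x 1 ≤ A * C := mul_le_mul_of_nonneg_left h4 hA.le
  have h6 := (abs_le.mp hx).1
  have h7 := (abs_le.mp h3).2
  linarith

/-- Existence of lineal structures with a given nontrivial character.

Proof. Let `i` be such that `ε` is `-1` at the generator `x_i` and `j ≠ i` (`2 ≤ m`). Let `F m` act on the
real line by `x_i t = - t`, `x_j t = ε (x_j) t + 1`, `x_k t = ε (x_k) t` for other `k` (use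
`FreeGroup.lift` to `Equiv.Perm ℝ`), so that `g t = ε g * t + c g` for all `g`, and
`c (g h) = c g + ε g * c h`. It is unbounded: if `ε x_j = 1`, then `c (x_j ^ k) = k`, if `ε x_j = -1`, then
`x_j x_i t = t + 1` and `c ((x_j x_i) ^ k) = k`. Now `exists_lds` (with the finite set of generators)
and `lineal_char_iff`. -/
theorem exists_lineal (hm : 2 ≤ m) (ε : F m →* ℤˣ) (hε : ε ≠ 1) :
    ∃ s : H (F m), IsLineal s ∧ HasChar ε s := by
  classical
  obtain ⟨i, hi⟩ : ∃ i, ε (FreeGroup.of i) = -1 := by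
    by_contra hcon
    push Not at hcon
    exact hε (FreeGroup.ext_hom _ _ fun k => (Int.units_eq_one_or _).resolve_right (hcon k))
  have : Nontrivial (Fin m) := Fin.nontrivial_iff_two_le.mpr hm
  obtain ⟨j, hj⟩ := exists_ne i
  let d : Fin m → ℝ := fun k => if k = j then 1 else 0
  let T : Fin m → Equiv.Perm ℝ := fun k =>
    { toFun := fun t => sg (ε (FreeGroup.of k)) * t + d k
      invFun := fun t => sg (ε (FreeGroup.of k)) * (t - d k)
      left_inv := fun t => by
        have h1 := sg_mul_self (ε (FreeGroup.of k))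
        change sg (ε (FreeGroup.of k)) * (sg (ε (FreeGroup.of k)) * t + d k - d k) = t
        rw [add_sub_cancel_right, ← mul_assoc, h1, one_mul]
      right_inv := fun t => by
        have h1 := sg_mul_self (ε (FreeGroup.of k))
        change sg (ε (FreeGroup.of k)) * (sg (ε (FreeGroup.of k)) * (t - d k)) + d k = t
        rw [← mul_assoc, h1, one_mul, sub_add_cancel] }
  let ρ : F m →* Equiv.Perm ℝ := FreeGroup.lift T
  let c : F m → ℝ := fun g => ρ g 0
  have hT : ∀ k t, ρ (FreeGroup.of k) t = sg (ε (FreeGroup.of k)) * t + d k := by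
    intro k t
    change (FreeGroup.lift T (FreeGroup.of k)) t = _
    rw [FreeGroup.lift_apply_of]
    rfl
  have hρ : ∀ g t, ρ g t = sg (ε g) * t + c g := by
    intro g
    induction g using FreeGroup.induction_on with
    | C1 =>
      intro t
      change ρ 1 t = _ + ρ 1 0
      rw [map_one, map_one, sg_one, one_mul, Equiv.Perm.one_apply, Equiv.Perm.one_apply, add_zero]
    | of k =>
      intro t
      change ρ (FreeGroup.of k) t = _ + ρ (FreeGroup.of k) 0
      rw [hT, hT, mul_zero, zero_add]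
    | inv_of k hk =>
      intro t
      have h1 : ∀ u, ρ (FreeGroup.of k)⁻¹ u = sg (ε (FreeGroup.of k)) * (u - d k) := by
        intro u
        rw [map_inv, Equiv.Perm.inv_eq_iff_eq, hT, ← mul_assoc, sg_mul_self, one_mul,
          sub_add_cancel]
      have h2 : ε (FreeGroup.of k)⁻¹ = ε (FreeGroup.of k) := by
        rw [map_inv, Int.units_inv_eq_self]
      change ρ (FreeGroup.of k)⁻¹ t = _ + ρ (FreeGroup.of k)⁻¹ 0
      rw [h1, h1, h2]
      ring
    | mul g h hg hh =>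
      intro t
      change ρ (g * h) t = _ + ρ (g * h) 0
      have h1 : ∀ u, ρ (g * h) u = ρ g (ρ h u) := fun u => by rw [map_mul]; rfl
      rw [h1, h1, hg, hh t, hg (ρ h 0), map_mul, sg_mul]
      change _ = _ + (sg (ε g) * c h + c g)
      ring
  have hc : ∀ g h, c (g * h) = c g + sg (ε g) * c h := by
    intro g h
    have h1 : c (g * h) = ρ g (c h) := by
      change ρ (g * h) 0 = ρ g (ρ h 0)
      rw [map_mul]
      rfl
    rw [h1, hρ]
    ring
  have hof : ∀ k, c (FreeGroup.of k) = d k := by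
    intro k
    change ρ (FreeGroup.of k) 0 = d k
    rw [hT, mul_zero, zero_add]
  obtain ⟨y, hy1, hy2⟩ : ∃ y, ε y = 1 ∧ c y = 1 := by
    rcases Int.units_eq_one_or (ε (FreeGroup.of j)) with h1 | h1
    · refine ⟨FreeGroup.of j, h1, ?_⟩
      rw [hof]
      exact if_pos rfl
    · refine ⟨FreeGroup.of j * FreeGroup.of i, ?_, ?_⟩
      · rw [map_mul, h1, hi]
        decide
      · rw [hc, hof, hof]
        have h2 : d j = 1 := if_pos rfl
        have h3 : d i = 0 := if_neg hj.symm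
        rw [h2, h3, mul_zero, add_zero]
  have hpow : ∀ k : ℕ, ε (y ^ k) = 1 ∧ c (y ^ k) = k := by
    intro k
    induction k with
    | zero =>
      refine ⟨by rw [pow_zero, map_one], ?_⟩
      rw [pow_zero, Nat.cast_zero]
      change ρ 1 0 = 0
      rw [map_one, Equiv.Perm.one_apply]
    | succ k ih =>
      refine ⟨by rw [pow_succ, map_mul, ih.1, hy1, mul_one], ?_⟩
      rw [pow_succ, hc, ih.1, ih.2, hy2, sg_one, mul_one, Nat.cast_succ]
  have hQ : QC ε c 0 := by
    intro g h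
    rw [hc, add_sub_cancel_left, sub_self, abs_zero]
  have hU : Unb c := by
    intro B
    obtain ⟨k, hk⟩ := exists_nat_ge B
    refine ⟨y ^ k, ?_⟩
    rw [(hpow k).2, Nat.abs_cast]
    exact hk
  have hS : Subgroup.closure ((Finset.univ.image (FreeGroup.of : Fin m → F m) : Finset (F m)) :
      Set (F m)) = ⊤ := by
    rw [Finset.coe_image, Finset.coe_univ, Set.image_univ]
    exact FreeGroup.closure_range_of (Fin m)
  obtain ⟨s, -, hs⟩ := exists_lds hQ hU _ hS
  exact ⟨s, lineal_char_iff.2 ⟨c, hs⟩⟩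

/-- Lineal structures with different nontrivial characters are not mapped to lineal structures with
the same character.

Proof. `f s₁ ≠ f s₂`, since otherwise `s₁ = s₂` and `ε₁ = ε₂` (both `ε i g = 1` are equivalent to the same
condition by `LD.char`, for the same representative, `LDs.ld`). By `exists_third` there is a
lineal structure `s₃` different from `f s₁` and `f s₂` below all common upper bounds of these. Let
`a = f.symm s₃`. It is below all common upper bounds of `s₁` and `s₂`, different from them, and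
`∃ t, ¬ a ≤ t` by `IsLineal.exists_not_le`. Contradiction to `exists_upper`. -/
theorem char_ne (f : H (F m) ≃o H (F n)) {s₁ s₂ : H (F m)} {ε₁ ε₂ : F m →* ℤˣ} {η : F n →* ℤˣ}
    (h₁ : IsLineal s₁ ∧ HasChar ε₁ s₁) (h₂ : IsLineal s₂ ∧ HasChar ε₂ s₂) (hε₁ : ε₁ ≠ 1)
    (hε₂ : ε₂ ≠ 1) (hne : ε₁ ≠ ε₂) (h₁' : IsLineal (f s₁) ∧ HasChar η (f s₁))
    (h₂' : IsLineal (f s₂) ∧ HasChar η (f s₂)) : False := by
  obtain ⟨c₁, hc₁⟩ := lineal_char_iff.1 h₁
  obtain ⟨c₂, hc₂⟩ := lineal_char_iff.1 h₂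
  obtain ⟨d₁, hd₁⟩ := lineal_char_iff.1 h₁'
  obtain ⟨d₂, hd₂⟩ := lineal_char_iff.1 h₂'
  have hfne : f s₁ ≠ f s₂ := by
    intro h
    have hs : s₁ = s₂ := f.injective h
    subst hs
    obtain ⟨X, hX, hL₁⟩ := hc₁
    have hL₂ := hc₂.ld hX
    apply hne
    refine MonoidHom.ext fun g => ?_
    have h3 : ε₁ g = 1 ↔ ε₂ g = 1 := (hL₁.char g).trans (hL₂.char g).symm
    rcases Int.units_eq_one_or (ε₁ g) with h4 | h4
    · rw [h4, h3.1 h4]
    · rcases Int.units_eq_one_or (ε₂ g) with h5 | h5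
      · rw [h3.2 h5] at h4
        exact absurd h4 (by decide)
      · rw [h4, h5]
  have hS : Subgroup.closure ((Finset.univ.image (FreeGroup.of : Fin n → F n) : Finset (F n)) :
      Set (F n)) = ⊤ := by
    rw [Finset.coe_image, Finset.coe_univ, Set.image_univ]
    exact FreeGroup.closure_range_of (Fin n)
  obtain ⟨s₃, hl₃, hn₁, hn₂, hle⟩ := exists_third _ hS hd₁ hd₂ hfne
  obtain ⟨t₀, ht₀⟩ := hl₃.exists_not_le
  obtain ⟨t, ht₁, ht₂, ht₃⟩ := exists_upper hc₁ hc₂ hε₁ hε₂ hne (a := f.symm s₃)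
    ⟨f.symm t₀, fun h => ht₀ (f.symm.le_iff_le.1 h)⟩
    (fun h => hn₁ (by rw [← h, f.apply_symm_apply]))
    (fun h => hn₂ (by rw [← h, f.apply_symm_apply]))
  apply ht₃
  have h6 := hle (f t) (f.monotone ht₁) (f.monotone ht₂)
  have h7 := f.symm.monotone h6
  rwa [f.symm_apply_apply] at h7

/-- The number of homomorphisms. (`FreeGroup.lift` is an equivalence.) -/
theorem card_hom (n : ℕ) : Nat.card (F n →* ℤˣ) = 2 ^ n := by
  rw [← Nat.card_congr (FreeGroup.lift : (Fin n → ℤˣ) ≃ (F n →* ℤˣ)), Nat.card_eq_fintype_card,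
    Fintype.card_fun, Fintype.card_fin, Fintype.card_units_int]

/-- The counting argument.

Proof. Let `E` be the set of the `ε ≠ 1` for which there is a lineal structure `s` with character `ε` such
that `f s` is lineal. Choose for each `ε ∈ E` such an `s` and a character of `f s`
(`IsLineal.exists_char`); the map from `E` to the homomorphisms `F n →* ℤˣ` is injective by `char_ne`, so
`E` has at most `2 ^ n` elements. The set in the statement is the complement of `E ∪ {1}` in a set with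
`2 ^ m` elements. -/
theorem count (f : H (F m) ≃o H (F n)) :
    2 ^ m ≤ 2 ^ n + 1 + Nat.card {ε : F m →* ℤˣ //
      ε ≠ 1 ∧ ∀ s, IsLineal s → HasChar ε s → ¬ IsLineal (f s)} := by
  classical
  have hfm : Finite (F m →* ℤˣ) :=
    Finite.of_equiv (Fin m → ℤˣ) (FreeGroup.lift : (Fin m → ℤˣ) ≃ (F m →* ℤˣ))
  have hfn : Finite (F n →* ℤˣ) :=
    Finite.of_equiv (Fin n → ℤˣ) (FreeGroup.lift : (Fin n → ℤˣ) ≃ (F n →* ℤˣ))
  obtain ⟨Q, hQ⟩ : ∃ Q : (F m →* ℤˣ) → Prop, Q = fun ε =>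
    ε ≠ 1 ∧ ∀ s, IsLineal s → HasChar ε s → ¬ IsLineal (f s) := ⟨_, rfl⟩
  have hcard : Nat.card {ε : F m →* ℤˣ //
      ε ≠ 1 ∧ ∀ s, IsLineal s → HasChar ε s → ¬ IsLineal (f s)} = Nat.card {ε // Q ε} := by
    rw [hQ]
  rw [hcard]
  have hex : ∀ ε : F m →* ℤˣ, ∃ η : F n →* ℤˣ, ¬ Q ε → ε ≠ 1 →
      ∃ s, (IsLineal s ∧ HasChar ε s) ∧ (IsLineal (f s) ∧ HasChar η (f s)) := by
    intro ε
    by_cases h1 : ∃ s, IsLineal s ∧ HasChar ε s ∧ IsLineal (f s)
    · obtain ⟨s, h2, h3, h4⟩ := h1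
      obtain ⟨η, hη⟩ := h4.exists_char
      exact ⟨η, fun _ _ => ⟨s, ⟨h2, h3⟩, h4, hη⟩⟩
    · refine ⟨1, fun h2 h3 => ?_⟩
      exfalso
      apply h2
      rw [hQ]
      exact ⟨h3, fun s h4 h5 h6 => h1 ⟨s, h4, h5, h6⟩⟩
  choose η hη using hex
  let Φ : (F m →* ℤˣ) → ((F n →* ℤˣ) ⊕ Unit) ⊕ {ε // Q ε} := fun ε =>
    if h : Q ε then Sum.inr ⟨ε, h⟩ else if ε = 1 then Sum.inl (Sum.inr ()) else
      Sum.inl (Sum.inl (η ε))
  have hΦ : Function.Injective Φ := by
    intro ε ε' h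
    simp only [Φ] at h
    by_cases h1 : Q ε
    · by_cases h2 : Q ε'
      · rw [dif_pos h1, dif_pos h2] at h
        exact congrArg Subtype.val (Sum.inr_injective h)
      · rw [dif_pos h1, dif_neg h2] at h
        split_ifs at h
    · by_cases h2 : Q ε'
      · rw [dif_neg h1, dif_pos h2] at h
        split_ifs at h
      · rw [dif_neg h1, dif_neg h2] at h
        by_cases h3 : ε = 1
        · by_cases h4 : ε' = 1
          · rw [h3, h4]
          · rw [if_pos h3, if_neg h4] at h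
            exact absurd (Sum.inl_injective h) (by simp)
        · by_cases h4 : ε' = 1
          · rw [if_neg h3, if_pos h4] at h
            exact absurd (Sum.inl_injective h) (by simp)
          · rw [if_neg h3, if_neg h4] at h
            have h5 : η ε = η ε' := Sum.inl_injective (Sum.inl_injective h)
            by_contra hne
            obtain ⟨s₁, h₁, h₁'⟩ := hη ε h1 h3
            obtain ⟨s₂, h₂, h₂'⟩ := hη ε' h2 h4
            rw [← h5] at h₂'
            exact char_ne f h₁ h₂ h3 h4 hne h₁' h₂'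
  have hle := Nat.card_le_card_of_injective Φ hΦ
  rw [Nat.card_sum, Nat.card_sum, card_hom, card_hom, Nat.card_unique] at hle
  exact hle

end Pool.Agent.Helper35.HS
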